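import Pool.Agent.Run7.h585.AN.Typ
import Pool.Agent.N232.SZ_LO

/-!
# The final statements in terms of sets of primes (helper585)
-/

set_option autoImplicit false

namespace Pool.Agent.Run7.h585.AN

open Finset Filter Topology Pool.Agent.N906.SZ Pool.Agent.N906.FH

/-- the primes dividing `|D| / N₆` -/
theorem mem_nq {a b : ℤ} (hD : Dd a b ≠ 0) {p : ℕ} (hp : p.Prime) :
    p ∈ (nq a b).primeFactors ↔ (p : ℤ) ^ (1 + fe p a) ∣ Dd a b := by
  obtain ⟨h1, h2, h3⟩ := nq_spec hD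
  have hn0 : nq a b ≠ 0 := by omega
  constructor
  · intro h
    have h4 := h2 p h
    have h5 : 1 ≤ (nq a b).factorization p :=
      hp.factorization_pos_of_dvd hn0 (Nat.dvd_of_mem_primeFactors h)
    exact (pow_dvd_pow _ (by omega)).trans h4
  · intro h
    have hpD : (p : ℤ) ∣ Dd a b := (dvd_pow_self _ (by omega)).trans h
    have h4 := Pool.Agent.N232.SZ.fac_Nc a b hD hp hpD
    have hD0 : (Dd a b).natAbs ≠ 0 := Int.natAbs_ne_zero.2 hD
    have h5 : p ^ (1 + fe p a) ∣ (Dd a b).natAbs := by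
      have : ((p ^ (1 + fe p a) : ℕ) : ℤ) ∣ Dd a b := by exact_mod_cast h
      exact Int.natCast_dvd.1 this
    have h6 := (hp.pow_dvd_iff_le_factorization hD0).1 h5
    have hN0 : Nc a b ≠ 0 := (Nc_pos a b).ne'
    rw [h3, Nat.factorization_mul hn0 hN0, Finsupp.add_apply, h4] at h6
    rw [Nat.mem_primeFactors]
    refine ⟨hp, ?_, hn0⟩
    have h7 : 1 ≤ (nq a b).factorization p := by omega
    exact Nat.dvd_of_factorization_pos (by omega)

/-- the primes `5 ≤ p ≤ y` with `p ∤ a`, `p² ∣ D` -/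
def nodes (a b : ℤ) (y : ℝ) : Set ℕ :=
  {p | p.Prime ∧ 5 ≤ p ∧ (p : ℝ) ≤ y ∧ ¬ (p : ℤ) ∣ a ∧ (p : ℤ) ^ 2 ∣ Dd a b}

/-- the primes `5 ≤ p ≤ y` with `p ∣ a`, `p³ ∤ a`, `p⁷ ∣ D` -/
def stars (a b : ℤ) (y : ℝ) : Set ℕ :=
  {p | p.Prime ∧ 5 ≤ p ∧ (p : ℝ) ≤ y ∧ (p : ℤ) ∣ a ∧ ¬ (p : ℤ) ^ 3 ∣ a ∧ (p : ℤ) ^ 7 ∣ Dd a b}

/-- the other primes `p ≥ 5` with `p ∣ a`, `p³ ∣ D` -/
def others (a b : ℤ) : Set ℕ :=
  {p | p.Prime ∧ 5 ≤ p ∧ (p : ℤ) ∣ a ∧ (p : ℤ) ^ 3 ∣ Dd a b ∧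
    ¬ (¬ (p : ℤ) ^ 3 ∣ a ∧ (p : ℤ) ^ 7 ∣ Dd a b)}

theorem nodes_card {a b : ℤ} (hD : Dd a b ≠ 0) (y : ℝ) :
    (nodes a b y).ncard = cntT 0 y (a, b) := by
  unfold cntT
  rw [← Set.ncard_coe_finset]
  congr 1
  ext p
  simp only [nodes, Set.mem_ofPred_eq, Finset.coe_filter]
  constructor
  · rintro ⟨h1, h2, h3, h4, h5⟩
    refine ⟨(mem_nq hD h1).2 ?_, h2, ty_zero.2 h4, h3⟩
    rw [fe, if_neg (by omega), if_neg h4]
    exact h5
  · rintro ⟨h1, h2, h3, h4⟩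
    have hp := Nat.prime_of_mem_primeFactors h1
    have h5 := (mem_nq hD hp).1 h1
    rw [ty_zero] at h3
    rw [fe, if_neg (by omega), if_neg h3] at h5
    exact ⟨hp, h2, h4, h3, h5⟩

theorem stars_card {a b : ℤ} (hD : Dd a b ≠ 0) (y : ℝ) :
    (stars a b y).ncard = cntT 1 y (a, b) := by
  unfold cntT
  rw [← Set.ncard_coe_finset]
  congr 1
  ext p
  simp only [stars, Set.mem_ofPred_eq, Finset.coe_filter]
  constructor
  · rintro ⟨h1, h2, h3, h4, h5, h6⟩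
    refine ⟨(mem_nq hD h1).2 ?_, h2, ty_one.2 ⟨h4, h5, h6⟩, h3⟩
    rw [fe, if_neg (by omega), if_pos h4]
    exact (pow_dvd_pow _ (by norm_num)).trans h6
  · rintro ⟨h1, h2, h3, h4⟩
    have hp := Nat.prime_of_mem_primeFactors h1
    rw [ty_one] at h3
    exact ⟨hp, h2, h4, h3⟩

theorem others_card {a b : ℤ} (hD : Dd a b ≠ 0) :
    (others a b).ncard = cntA 2 (a, b) := by
  unfold cntA
  rw [← Set.ncard_coe_finset]
  congr 1
  ext p
  simp only [others, Set.mem_ofPred_eq, Finset.coe_filter]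
  constructor
  · rintro ⟨h1, h2, h4, h5, h6⟩
    refine ⟨(mem_nq hD h1).2 ?_, h2, ty_two.2 ⟨h4, h6⟩⟩
    rw [fe, if_neg (by omega), if_pos h4]
    exact h5
  · rintro ⟨h1, h2, h3⟩
    have hp := Nat.prime_of_mem_primeFactors h1
    have h5 := (mem_nq hD hp).1 h1
    rw [ty_two] at h3
    rw [fe, if_neg (by omega), if_pos h3.1] at h5
    exact ⟨hp, h2, h3.1, h5, h3.2⟩

/-- the scale `√(log X / log log X)` -/
noncomputable def sc (X : ℝ) : ℝ := √(Real.log X / Real.log (Real.log X))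

/-- the typical curves, final form -/
def TypS (σ ε X : ℝ) (a b : ℤ) : Prop :=
  X ^ (6 - ε) ≤ |((Dd a b : ℤ) : ℝ)| ∧ X ^ (6 / σ - ε) ≤ Nc a b ∧
  (∏ p ∈ ((Dd a b).natAbs / Nc a b).primeFactors with 5 ≤ p, p : ℕ) ≤ X ^ ε ∧
  (∀ y : ℝ, 2 ≤ y → |((nodes a b y).ncard : ℝ) -
    max 0 (1 - Real.log (Real.log X) / (2 * Real.log y)) * (√(6 * (1 - 1 / σ)) * sc X)| ≤ ε * sc X) ∧
  (∀ y : ℝ, 2 ≤ y → |((stars a b y).ncard : ℝ) -
    max 0 (1 - Real.log (Real.log X) / (2 * Real.log y)) * (√(6 * (1 - 1 / σ)) * sc X)| ≤ ε * sc X) ∧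
  ((others a b).ncard : ℝ) ≤ ε * sc X

theorem s0_eq {lam X : ℝ} (hl0 : 0 < lam) : s0 lam X = √(6 * lam) * sc X := by
  rw [s0, sc, ← Real.sqrt_mul (by positivity)]
  congr 1
  ring

theorem lower_of_tendsto {σ : ℝ} (hσ1 : 1 < σ) (hσ2 : σ < 6 / 5) (V : ℝ → Set (ℤ × ℤ))
    (h : Tendsto (fun X : ℝ => (Real.log ((V X).ncard : ℝ) - (6 / σ - 1) * Real.log X) /
      √(Real.log X / Real.log (Real.log X))) atTop (𝓝 √(96 * (1 - 1 / σ)))) (c : ℝ) (hc : 0 < c) :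
    ∀ᶠ X : ℝ in atTop, Real.exp ((5 - 6 * (1 - 1 / σ)) * Real.log X +
      (4 - c) * s0 (1 - 1 / σ) X) ≤ ((V X).ncard : ℝ) := by
  have hσ0 : 0 < σ := by linarith
  obtain ⟨lam, hlam⟩ : ∃ lam : ℝ, lam = 1 - 1 / σ := ⟨_, rfl⟩
  have hl0 : 0 < lam := by
    rw [hlam, sub_pos, div_lt_one hσ0]
    exact hσ1
  have hl1 : lam < 1 / 6 := by
    have : 5 / 6 < 1 / σ := by
      rw [lt_div_iff₀ hσ0]
      linarith
    rw [hlam]
    linarith
  have e1 : 6 / σ - 1 = 5 - 6 * lam := by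
    rw [hlam]
    field_simp
    ring
  rw [← hlam, e1] at h
  rw [← hlam]
  have hsq : 0 < √(6 * lam) := Real.sqrt_pos.2 (by positivity)
  have h4 : √(96 * lam) = 4 * √(6 * lam) := by
    rw [show (96 : ℝ) * lam = 4 ^ 2 * (6 * lam) by ring, Real.sqrt_mul (by norm_num),
      Real.sqrt_sq (by norm_num)]
  obtain ⟨c', hc'⟩ : ∃ c' : ℝ, c' = min c 1 := ⟨_, rfl⟩
  have hc'0 : 0 < c' := by rw [hc']; exact lt_min hc one_pos
  have hc'1 : c' ≤ c := by rw [hc']; exact min_le_left _ _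
  have hc'2 : c' ≤ 1 := by rw [hc']; exact min_le_right _ _
  have h5 : ∀ᶠ X : ℝ in atTop, (4 - c') * √(6 * lam) <
      (Real.log ((V X).ncard : ℝ) - (5 - 6 * lam) * Real.log X) /
        √(Real.log X / Real.log (Real.log X)) := by
    refine h.eventually (lt_mem_nhds ?_)
    rw [h4]
    nlinarith
  filter_upwards [h5, eventually_ge_atTop (31 : ℝ)] with X hX hX31
  have hX0 : 0 < X := by linarith
  have hlogX : 3 ≤ Real.log X := by
    rw [Real.le_log_iff_exp_le hX0]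
    have h1 := Real.exp_one_lt_d9
    have h2 : Real.exp 3 = Real.exp 1 ^ 3 := by rw [← Real.exp_nat_mul]; norm_num
    rw [h2]
    have h3 : Real.exp 1 ^ 3 ≤ 2.72 ^ 3 := pow_le_pow_left₀ (Real.exp_pos _).le (by linarith) 3
    norm_num at h3
    linarith
  have hllX : 0 < Real.log (Real.log X) := Real.log_pos (by linarith)
  have hsc : 0 < √(Real.log X / Real.log (Real.log X)) :=
    Real.sqrt_pos.2 (div_pos (by linarith) hllX)
  rw [lt_div_iff₀ hsc] at hX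
  have h6 : (5 - 6 * lam) * Real.log X + (4 - c') * s0 lam X < Real.log ((V X).ncard : ℝ) := by
    rw [s0_eq hl0, sc]
    linarith [show (4 - c') * (√(6 * lam) * √(Real.log X / Real.log (Real.log X))) =
      (4 - c') * √(6 * lam) * √(Real.log X / Real.log (Real.log X)) by ring]
  have h7 : 0 < Real.log ((V X).ncard : ℝ) := by
    refine lt_of_le_of_lt ?_ h6
    have h8 : 0 ≤ (4 - c') * s0 lam X := mul_nonneg (by linarith) (s0_nonneg _ _)
    have h9 : 0 ≤ (5 - 6 * lam) * Real.log X := mul_nonneg (by linarith) (by linarith)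
    linarith
  have h10 : 0 < ((V X).ncard : ℝ) := by
    by_contra h11
    have h12 : ((V X).ncard : ℝ) = 0 := le_antisymm (not_lt.1 h11) (Nat.cast_nonneg _)
    rw [h12, Real.log_zero] at h7
    exact lt_irrefl _ h7
  rw [← Real.le_log_iff_exp_le h10]
  refine le_trans ?_ h6.le
  have := mul_le_mul_of_nonneg_right hc'1 (s0_nonneg lam X)
  linarith [show (4 - c) * s0 lam X = 4 * s0 lam X - c * s0 lam X by ring,
    show (4 - c') * s0 lam X = 4 * s0 lam X - c' * s0 lam X by ring]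

/-- **The final statement.** -/
theorem fin_S {σ : ℝ} (hσ1 : 1 < σ) (hσ2 : σ < 6 / 5) (K : ℝ) (hK : 1 ≤ K) (V : ℝ → Set (ℤ × ℤ))
    (hfin : ∀ X, (V X).Finite)
    (hV : ∀ X, 31 ≤ X → ∀ x ∈ V X, Cand (1 - 1 / σ) K X x)
    (h : Tendsto (fun X : ℝ => (Real.log ((V X).ncard : ℝ) - (6 / σ - 1) * Real.log X) /
      √(Real.log X / Real.log (Real.log X))) atTop (𝓝 √(96 * (1 - 1 / σ)))) (ε : ℝ) (hε : 0 < ε) :
    ∃ δ : ℝ, 0 < δ ∧ ∀ᶠ X : ℝ in atTop, 0 < (V X).ncard ∧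
      (({x ∈ V X | ¬ TypS σ ε X x.1 x.2} : Set (ℤ × ℤ)).ncard : ℝ) ≤
        Real.exp (-(δ * sc X)) * ((V X).ncard : ℝ) := by
  have hσ0 : 0 < σ := by linarith
  have hlow := lower_of_tendsto hσ1 hσ2 V h
  have hs1 : 6 / σ = 6 * (1 - (1 - 1 / σ)) := by ring
  obtain ⟨lam, hlam⟩ : ∃ lam : ℝ, lam = 1 - 1 / σ := ⟨_, rfl⟩
  have hl0 : 0 < lam := by
    rw [hlam, sub_pos, div_lt_one hσ0]
    exact hσ1
  have hl1 : lam < 1 / 6 := by
    have : 5 / 6 < 1 / σ := by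
      rw [lt_div_iff₀ hσ0]
      linarith
    rw [hlam]
    linarith
  rw [← hlam] at hlow hV hs1
  have hsq : 0 < √(6 * lam) := Real.sqrt_pos.2 (by positivity)
  obtain ⟨ε', hε'⟩ : ∃ ε' : ℝ, ε' = min ε (ε / √(6 * lam)) := ⟨_, rfl⟩
  have hε'0 : 0 < ε' := by rw [hε']; exact lt_min hε (by positivity)
  have hε'1 : ε' ≤ ε := by rw [hε']; exact min_le_left _ _
  have hε'2 : ε' * √(6 * lam) ≤ ε := by
    rw [← le_div_iff₀ hsq, hε']
    exact min_le_right _ _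
  obtain ⟨δ, X₀, hδ, hX₀, hrare⟩ := rare_typ lam K ε' hl0 hl1 hK hε'0
  refine ⟨δ / 2 * √(6 * lam), by positivity, ?_⟩
  filter_upwards [hlow (δ / 2) (by positivity), eventually_ge_atTop X₀] with X h1 h2
  have hX31 : 31 ≤ X := hX₀.trans h2
  have hX1 : 1 ≤ X := by linarith
  have hN : (0 : ℝ) < ((V X).ncard : ℝ) := lt_of_lt_of_le (Real.exp_pos _) h1
  refine ⟨by exact_mod_cast hN, ?_⟩
  set U : Set (ℤ × ℤ) := {x ∈ V X | ¬ TypS σ ε X x.1 x.2} with hU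
  have hUfin : U.Finite := (hfin X).subset fun x hx => hx.1
  have hsc0 : 0 ≤ sc X := Real.sqrt_nonneg _
  have hεs : ε' * s0 lam X ≤ ε * sc X := by
    rw [s0_eq hl0, ← mul_assoc]
    exact mul_le_mul_of_nonneg_right hε'2 hsc0
  have h3 := hrare X hUfin.toFinset h2 (by
    intro x hx
    rw [Set.Finite.mem_toFinset] at hx
    obtain ⟨hxV, hxT⟩ := hx
    have hc := hV X hX31 x hxV
    refine ⟨hc, fun ht => hxT ?_⟩
    obtain ⟨t1, t2, t3, t4, t5, t6⟩ := ht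
    have hD := hc.1.1
    refine ⟨?_, ?_, ?_, ?_, ?_, ?_⟩
    · exact (Real.rpow_le_rpow_of_exponent_le hX1 (by linarith)).trans t1
    · rw [hs1]
      exact (Real.rpow_le_rpow_of_exponent_le hX1 (by linarith)).trans t2
    · exact t3.trans (Real.rpow_le_rpow_of_exponent_le hX1 hε'1)
    · intro y hy
      have := t4 y hy
      rw [nodes_card hD, ← hlam, ← s0_eq hl0]
      exact this.trans hεs
    · intro y hy
      have := t5 y hy
      rw [stars_card hD, ← hlam, ← s0_eq hl0]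
      exact this.trans hεs
    · rw [others_card hD]
      exact t6.trans hεs)
  rw [← Set.ncard_eq_toFinset_card _ hUfin] at h3
  refine h3.trans ?_
  calc Real.exp ((5 - 6 * lam) * Real.log X + (4 - δ) * s0 lam X)
      = Real.exp (-(δ / 2 * √(6 * lam) * sc X)) *
        Real.exp ((5 - 6 * lam) * Real.log X + (4 - δ / 2) * s0 lam X) := by
        rw [← Real.exp_add, s0_eq hl0]
        congr 1
        ring
    _ ≤ _ := mul_le_mul_of_nonneg_left h1 (Real.exp_pos _).le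

end Pool.Agent.Run7.h585.AN
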