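import Pool.Agent.Run7.h585.AN.SFin

/-!
# Semistable curves: the number (helper585)

Adapted from `Pool/Agent/N265/SS_FINS.lean`.
-/

set_option autoImplicit false

namespace Pool.Agent.Run7.h585.AN.Semi

open Finset Filter Topology Pool.Agent.N906.SZ Pool.Agent.N906.FH Pool.Agent.N906.SS

open Pool.Agent.N265.SS (box mn cs_of_cn absorb wm_c₄ wm_c₆)

/-- the number of the semistable curves with `N₆ ≤ K Mx ^ (1/σ)` -/
theorem lim_semi {σ : ℝ} (hσ1 : 1 < σ) (hσ2 : σ < 6 / 5) (K : ℝ) (hK : 1 ≤ K) (V : ℝ → Set (ℤ × ℤ))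
    (hfin : ∀ X, (V X).Finite)
    (hV : ∀ X, 31 ≤ X → ∀ q ∈ V X, ∃ W : WeierstrassCurve ℤ, W.Δ ≠ 0 ∧ IsCoprime W.c₄ W.Δ ∧
      q = (W.c₄, W.c₆) ∧ |(W.c₄ : ℝ)| ≤ X ^ 2 ∧ |(W.c₆ : ℝ)| ≤ X ^ 3 ∧
      ∀ a b u : ℤ, (u = 1 ∨ u = 3) → a * u ^ 4 = 27 * W.c₄ → b * u ^ 6 = 54 * W.c₆ →
        (Nc a b : ℝ) ≤ K * Mx a b ^ (1 / σ))
    (hL : ∃ A : ℝ, 1 ≤ A ∧ ∀ X : ℝ, 31 ≤ X → ∀ x : ℤ × ℤ, (Wm x).Δ ≠ 0 → IsCoprime (Wm x).c₄ (Wm x).Δ →
      |((Wm x).c₄ : ℝ)| ≤ X ^ 2 → |((Wm x).c₆ : ℝ)| ≤ X ^ 3 →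
      A * (rdD (Wm x) : ℝ) * |((Wm x).Δ : ℝ)| ^ (1 - 1 / σ) ≤ |((Wm x).Δ : ℝ)| →
      ((Wm x).c₄, (Wm x).c₆) ∈ V X) :
    Tendsto (fun X : ℝ => (Real.log ((V X).ncard : ℝ) - (6 / σ - 1) * Real.log X) /
      √(Real.log X / Real.log (Real.log X))) atTop (𝓝 √(48 * (1 - 1 / σ))) := by
  classical
  have hσ0 : 0 < σ := by linarith
  obtain ⟨lam, hlam⟩ : ∃ lam : ℝ, lam = 1 - 1 / σ := ⟨_, rfl⟩
  have hl0 : 0 < lam := by
    rw [hlam, sub_pos, div_lt_one hσ0]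
    exact hσ1
  have hl1 : lam < 1 / 6 := by
    have : 5 / 6 < 1 / σ := by
      rw [lt_div_iff₀ hσ0]
      linarith
    rw [hlam]
    linarith
  have es : 1 / σ = 1 - lam := by rw [hlam]; ring
  have e1 : 6 / σ - 1 = 5 - 6 * lam := by
    rw [hlam]
    field_simp
    ring
  rw [e1, ← hlam]
  rw [← hlam] at hL
  simp only [es] at hV
  refine lim_gen (by positivity) (fun X => ((V X).ncard : ℝ)) ?_ ?_
  · intro ε hε
    obtain ⟨X₀, hX₀, h⟩ := up_st lam K (ε / 2) hl0 hl1 hK (by positivity)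
    obtain ⟨X₁, hX₁⟩ := eventually_atTop.1
      (absorb (β := 48 * lam) (e := 5 - 6 * lam) (ε := ε) (by positivity) hε)
    refine ⟨max 31 (max X₀ X₁), lt_of_lt_of_le (by norm_num) (le_max_left _ _), fun X hX => ?_⟩
    have hX4 : 31 ≤ X := (le_max_left _ _).trans hX
    have hX0 : X₀ ≤ X := (le_max_left _ _).trans ((le_max_right _ _).trans hX)
    have hX1 : X₁ ≤ X := (le_max_right _ _).trans ((le_max_right _ _).trans hX)
    refine le_trans ?_ (hX₁ X hX1)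
    let S := (hfin X).toFinset
    let p : ℤ × ℤ → Prop := fun q => (3 : ℤ) ∣ q.1 ∧ (27 : ℤ) ∣ q.2
    have hcard : (V X).ncard = (S.filter p).card + (S.filter fun q => ¬ p q).card := by
      rw [Set.ncard_eq_toFinset_card _ (hfin X), Finset.card_filter_add_card_filter_not]
    have hmem : ∀ q ∈ S, ∃ W : WeierstrassCurve ℤ, W.Δ ≠ 0 ∧ IsCoprime W.c₄ W.Δ ∧
        q = (W.c₄, W.c₆) ∧ |(W.c₄ : ℝ)| ≤ X ^ 2 ∧ |(W.c₆ : ℝ)| ≤ X ^ 3 ∧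
        (∀ a b u : ℤ, (u = 1 ∨ u = 3) → a * u ^ 4 = 27 * W.c₄ → b * u ^ 6 = 54 * W.c₆ →
          (Nc a b : ℝ) ≤ K * Mx a b ^ (1 - lam)) := fun q hq => by
      rw [Set.Finite.mem_toFinset] at hq
      exact hV X hX4 q hq
    have hkey : ∀ (W : WeierstrassCurve ℤ) (a b u : ℤ), W.Δ ≠ 0 → IsCoprime W.c₄ W.Δ →
        (u = 1 ∨ u = 3) → a * u ^ 4 = 27 * W.c₄ → b * u ^ 6 = 54 * W.c₆ →
        (u = 1 → ¬ ((3 : ℤ) ∣ W.c₄ ∧ (27 : ℤ) ∣ W.c₆)) →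
        |(W.c₄ : ℝ)| ≤ X ^ 2 → |(W.c₆ : ℝ)| ≤ X ^ 3 → (Nc a b : ℝ) ≤ K * Mx a b ^ (1 - lam) →
        Mn a b ∧ |(a : ℝ)| ≤ (6 * X) ^ 2 ∧ |(b : ℝ)| ≤ (6 * X) ^ 3 ∧
          ∃ n : ℕ, 1 ≤ n ∧ Cs n a b ∧
            |((Dd a b : ℤ) : ℝ)| ≤ K * n * Mx a b ^ (1 - lam) := by
      intro W a b u h0 hco hu ha hb h31 h4 h6 hN'
      obtain ⟨k1, k2⟩ := box hu ha hb (by linarith) h4 h6
      have hM := mn h0 hco hu ha hb h31
      refine ⟨hM, k1, k2, nq a b, (nq_spec hM.1).1, cs_of_cn hco hu ha hb (nq_spec hM.1).2.1, ?_⟩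
      rw [nq_real hM.1]
      calc (nq a b : ℝ) * Nc a b ≤ nq a b * (K * Mx a b ^ (1 - lam)) :=
            mul_le_mul_of_nonneg_left hN' (Nat.cast_nonneg _)
        _ = _ := by ring
    have hF1 := h (6 * X) ((S.filter p).image fun q => (q.1 / 3, 2 * (q.2 / 27))) (by linarith) (by
      intro x hx
      rw [Finset.mem_image] at hx
      obtain ⟨q, hq, rfl⟩ := hx
      rw [Finset.mem_filter] at hq
      obtain ⟨hq, hq3, hq27⟩ := hq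
      obtain ⟨W, h0, hco, rfl, h4, h6, hS⟩ := hmem q hq
      simp only at hq3 hq27 ⊢
      have ha : W.c₄ / 3 * (3 : ℤ) ^ 4 = 27 * W.c₄ := by omega
      have hb : 2 * (W.c₆ / 27) * (3 : ℤ) ^ 6 = 54 * W.c₆ := by omega
      have h31 : (3 : ℤ) = 1 → ¬ ((3 : ℤ) ∣ W.c₄ ∧ (27 : ℤ) ∣ W.c₆) := fun h => by omega
      exact hkey W _ _ 3 h0 hco (Or.inr rfl) ha hb h31 h4 h6 (hS _ _ 3 (Or.inr rfl) ha hb))
    have hF2 := h (6 * X) ((S.filter fun q => ¬ p q).image fun q => (27 * q.1, 54 * q.2))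
      (by linarith) (by
      intro x hx
      rw [Finset.mem_image] at hx
      obtain ⟨q, hq, rfl⟩ := hx
      rw [Finset.mem_filter] at hq
      obtain ⟨hq, hqp⟩ := hq
      obtain ⟨W, h0, hco, rfl, h4, h6, hS⟩ := hmem q hq
      have ha : 27 * W.c₄ * (1 : ℤ) ^ 4 = 27 * W.c₄ := by omega
      have hb : 54 * W.c₆ * (1 : ℤ) ^ 6 = 54 * W.c₆ := by omega
      have h31 : (1 : ℤ) = 1 → ¬ ((3 : ℤ) ∣ W.c₄ ∧ (27 : ℤ) ∣ W.c₆) := fun _ => hqp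
      exact hkey W _ _ 1 h0 hco (Or.inl rfl) ha hb h31 h4 h6 (hS _ _ 1 (Or.inl rfl) ha hb))
    rw [Finset.card_image_of_injOn] at hF1 hF2
    · rw [mul_one] at hF1 hF2
      rw [hcard]
      push_cast
      linarith
    · intro x hx y hy hxy
      simp only [Prod.mk.injEq] at hxy
      refine Prod.ext ?_ ?_ <;> omega
    · intro x hx y hy hxy
      rw [Finset.mem_coe, Finset.mem_filter] at hx hy
      obtain ⟨-, hx1, hx2⟩ := hx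
      obtain ⟨-, hy1, hy2⟩ := hy
      simp only [Prod.mk.injEq] at hxy
      refine Prod.ext ?_ ?_ <;> omega
  · intro ε hε hε1
    obtain ⟨A, hA1, hA⟩ := hL
    obtain ⟨X₀, hX₀, h⟩ := los_all lam A ε hl0 hl1 hA1 hε hε1
    refine ⟨max 31 X₀, lt_of_lt_of_le (by norm_num) (le_max_left _ _), fun X hX => ?_⟩
    obtain ⟨F, hF, hc⟩ := h X ((le_max_right _ _).trans hX)
    refine hc.trans ?_
    have h5 : ((F.image fun x => ((Wm x).c₄, (Wm x).c₆) : Finset (ℤ × ℤ)) : Set (ℤ × ℤ)) ⊆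
        V X := by
      intro q hq
      rw [Finset.mem_coe, Finset.mem_image] at hq
      obtain ⟨x, hx, rfl⟩ := hq
      obtain ⟨h0, hco, h4, h6, hA'⟩ := hF x hx
      exact hA X ((le_max_left _ _).trans hX) x h0 hco h4 h6 hA'
    have h6 := Set.ncard_le_ncard h5 (hfin X)
    rw [Set.ncard_coe_finset, Finset.card_image_of_injective] at h6
    · exact_mod_cast h6
    · intro x y hxy
      simp only [wm_c₄, wm_c₆, Prod.mk.injEq] at hxy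
      refine Prod.ext ?_ ?_ <;> omega

end Pool.Agent.Run7.h585.AN.Semi
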