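import Pool.Agent.Run7.h585.AN.Wcnt
import Pool.Agent.N692.FH_UPG
import Pool.Agent.N906.FH.AllUn

/-!
# Decomposition into blocks (helper585)

Adapted from `Pool/Agent/N692/FH_UPG.lean` and `Pool/Agent/N163/FH_UPAG.lean`.
-/

set_option autoImplicit false

namespace Pool.Agent.Run7.h585.AN

open Finset Filter Topology Pool.Agent.N906.SZ Pool.Agent.N906.FH
open Pool.Agent.N692.FH (upg_size upg_mx upg_box)

/-- the integer `|D| / N₆` -/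
def nq (a b : ℤ) : ℕ := (Dd a b).natAbs / Nc a b

theorem nq_spec {a b : ℤ} (h : Dd a b ≠ 0) :
    1 ≤ nq a b ∧ Cn (nq a b) a b ∧ (Dd a b).natAbs = nq a b * Nc a b := by
  obtain ⟨n, h1, h2, h3⟩ := Pool.Agent.N157.SZ.gain a b h
  have e : nq a b = n := by
    unfold nq
    rw [h3]
    exact Nat.mul_div_cancel _ (Nc_pos a b)
  rw [e]
  exact ⟨h1, h2, h3⟩

theorem nq_real {a b : ℤ} (h : Dd a b ≠ 0) :
    |((Dd a b : ℤ) : ℝ)| = nq a b * Nc a b := by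
  have h1 := (nq_spec h).2.2
  have h2 : |((Dd a b : ℤ) : ℝ)| = (((Dd a b).natAbs : ℕ) : ℝ) := by
    rw [← Int.cast_abs, ← Nat.cast_natAbs]
  rw [h2, h1]
  push_cast
  rfl

/-- the sum over dyadic blocks -/
theorem assemble {X : ℝ} (hX31 : 31 ≤ X) (φ : ℤ × ℤ → ℝ) (Bd : ℝ)
    (hBd : 0 ≤ Bd) (F : Finset (ℤ × ℤ))
    (hF : ∀ x ∈ F, Mn x.1 x.2 ∧ |(x.1 : ℝ)| ≤ X ^ 2 ∧ |(x.2 : ℝ)| ≤ X ^ 3 ∧ X ^ 3 < Mx x.1 x.2)
    (hblk : ∀ (A Y : ℝ) (F' : Finset (ℤ × ℤ)), √X ≤ A → A ≤ 2 * X → 1 ≤ Y → Y ≤ A ^ 6 → F' ⊆ F →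
      (∀ x ∈ F', A ^ 6 ≤ 64 * Mx x.1 x.2 ∧ Mx x.1 x.2 ≤ A ^ 6 ∧
        Y / 2 < |((Dd x.1 x.2 : ℤ) : ℝ)| ∧ |((Dd x.1 x.2 : ℤ) : ℝ)| ≤ Y) →
      ∑ x ∈ F', φ x ≤ Bd) :
    ∑ x ∈ F, φ x ≤ (12 * Real.log X) ^ 2 * Bd := by
  classical
  have hX0 : 0 < X := by linarith
  have hX1 : 1 ≤ X := by linarith
  have hsX : 0 < √X := Real.sqrt_pos.mpr hX0
  have hsX2 : √X ^ 2 = X := Real.sq_sqrt hX0.le
  have hsX6 : √X ^ 6 = X ^ 3 := by
    calc √X ^ 6 = (√X ^ 2) ^ 3 := by ring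
      _ = X ^ 3 := by rw [hsX2]
  have hD1 : ∀ x ∈ F, 1 ≤ |((Dd x.1 x.2 : ℤ) : ℝ)| := by
    intro x hx
    have := Int.one_le_abs (hF x hx).1.1
    exact_mod_cast this
  set Ak : ℕ → ℝ := fun k => 2 * X / 2 ^ k with hAk
  set Yk : ℕ → ℕ → ℝ := fun k j => Ak k ^ 6 / 2 ^ j with hYk
  have hAk0 : ∀ k, 0 < Ak k := fun k => by rw [hAk]; positivity
  have hAk2 : ∀ k, Ak k ≤ 2 * X := fun k => by
    rw [hAk]
    exact div_le_self (by positivity) (one_le_pow₀ (by norm_num))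
  have hlogX : 3 ≤ Real.log X := by
    rw [Real.le_log_iff_exp_le hX0]
    have h1 := Real.exp_one_lt_d9
    have h2 : Real.exp 3 = Real.exp 1 ^ 3 := by rw [← Real.exp_nat_mul]; norm_num
    rw [h2]
    have h3 : Real.exp 1 ^ 3 ≤ 2.72 ^ 3 := pow_le_pow_left₀ (Real.exp_pos _).le (by linarith) 3
    norm_num at h3
    linarith
  set K₀ : ℕ := ⌊11 * Real.log X⌋₊ with hK₀
  have hKle : (K₀ : ℝ) ≤ 11 * Real.log X := Nat.floor_le (by positivity)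
  have hpow : ∀ k : ℕ, (2 : ℝ) ^ k ≤ 64 * X ^ 6 → k ≤ K₀ := by
    intro k h5
    rw [hK₀]
    apply Nat.le_floor
    have h2k : (0 : ℝ) < 2 ^ k := by positivity
    have h6 : Real.log ((2 : ℝ) ^ k) ≤ Real.log (64 * X ^ 6) :=
      Real.log_le_log h2k h5
    rw [Real.log_pow, Real.log_mul (by norm_num) (by positivity), Real.log_pow] at h6
    have h7 : Real.log 64 = 6 * Real.log 2 := by
      rw [show (64 : ℝ) = 2 ^ 6 by norm_num, Real.log_pow]; push_cast; ring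
    have h8 := Real.log_two_gt_d9
    have h8' := Real.log_two_lt_d9
    push_cast at h6
    have h9 : (k : ℝ) * 0.6931471803 ≤ k * Real.log 2 :=
      mul_le_mul_of_nonneg_left h8.le (by positivity)
    rw [h7] at h6
    nlinarith
  -- the block of `x`
  have hex : ∀ x : ℤ × ℤ, ∃ q : ℕ × ℕ, x ∈ F → (q ∈ range (K₀ + 1) ×ˢ range (K₀ + 1) ∧
      Ak q.1 ^ 6 ≤ 64 * Mx x.1 x.2 ∧ Mx x.1 x.2 ≤ Ak q.1 ^ 6 ∧
      Yk q.1 q.2 / 2 < |((Dd x.1 x.2 : ℤ) : ℝ)| ∧ |((Dd x.1 x.2 : ℤ) : ℝ)| ≤ Yk q.1 q.2) := by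
    intro x
    by_cases hx : x ∈ F
    swap
    · exact ⟨(0, 0), fun h => absurd h hx⟩
    obtain ⟨hM, ha, hb', hxs⟩ := hF x hx
    have hMu := upg_mx ha hb'
    have hM1 : 1 ≤ Mx x.1 x.2 := (hD1 x hx).trans (le_max_right _ _)
    have hM0 : 0 < Mx x.1 x.2 := by linarith
    have hDM : |((Dd x.1 x.2 : ℤ) : ℝ)| ≤ Mx x.1 x.2 := le_max_right _ _
    have hD0 : 0 < |((Dd x.1 x.2 : ℤ) : ℝ)| := by
      have := hD1 x hx
      linarith
    obtain ⟨k, hk1, hk2⟩ := exists_nat_pow_near (x := 64 * X ^ 6 / Mx x.1 x.2)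
      (y := 64) (by rw [le_div_iff₀ hM0]; linarith) (by norm_num)
    have hAk6 : Ak k ^ 6 = 64 * X ^ 6 / 64 ^ k := by
      simp only [hAk]
      rw [div_pow, mul_pow, ← pow_mul, mul_comm k 6, pow_mul]
      norm_num
    have h64k : (0 : ℝ) < 64 ^ k := by positivity
    have hk3 : Mx x.1 x.2 ≤ Ak k ^ 6 := by
      rw [hAk6, le_div_iff₀ h64k]
      rw [le_div_iff₀ hM0] at hk1
      linarith
    have hk4 : Ak k ^ 6 ≤ 64 * Mx x.1 x.2 := by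
      rw [hAk6, div_le_iff₀ h64k]
      have h64 : (64 : ℝ) ^ (k + 1) = 64 ^ k * 64 := pow_succ _ _
      rw [div_lt_iff₀ hM0, h64] at hk2
      linarith
    obtain ⟨j, hj1, hj2⟩ := exists_nat_pow_near (x := Ak k ^ 6 / |((Dd x.1 x.2 : ℤ) : ℝ)|)
      (y := 2) (by rw [le_div_iff₀ hD0]; linarith) (by norm_num)
    have h2j : (0 : ℝ) < 2 ^ j := by positivity
    refine ⟨(k, j), fun _ => ⟨?_, hk4, hk3, ?_, ?_⟩⟩
    · rw [Finset.mem_product, Finset.mem_range, Finset.mem_range, Nat.lt_succ_iff, Nat.lt_succ_iff]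
      refine ⟨hpow k ?_, hpow j ?_⟩
      · calc (2 : ℝ) ^ k ≤ 64 ^ k := pow_le_pow_left₀ (by norm_num) (by norm_num) k
          _ ≤ 64 * X ^ 6 / Mx x.1 x.2 := hk1
          _ ≤ 64 * X ^ 6 := div_le_self (by positivity) hM1
      · calc (2 : ℝ) ^ j ≤ Ak k ^ 6 / |((Dd x.1 x.2 : ℤ) : ℝ)| := hj1
          _ ≤ Ak k ^ 6 := div_le_self (by have := hAk0 k; positivity) (hD1 x hx)
          _ ≤ 64 * X ^ 6 := by
              rw [hAk6]
              exact div_le_self (by positivity) (one_le_pow₀ (by norm_num))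
    · simp only [hYk]
      rw [div_lt_iff₀ hD0] at hj2
      rw [div_div, div_lt_iff₀ (by positivity)]
      calc Ak k ^ 6 < 2 ^ (j + 1) * |((Dd x.1 x.2 : ℤ) : ℝ)| := hj2
        _ = |((Dd x.1 x.2 : ℤ) : ℝ)| * (2 ^ j * 2) := by ring
    · simp only [hYk]
      rw [le_div_iff₀ hD0] at hj1
      rw [le_div_iff₀ h2j]
      linarith
  choose q hq using hex
  have hmaps : ∀ x ∈ F, q x ∈ range (K₀ + 1) ×ˢ range (K₀ + 1) := fun x hx => (hq x hx).1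
  rw [← Finset.sum_fiberwise_of_maps_to hmaps]
  have hcell : ∀ c ∈ range (K₀ + 1) ×ˢ range (K₀ + 1), ∑ x ∈ F with q x = c, φ x ≤ Bd := by
    intro c _
    by_cases hne : (F.filter (fun x => q x = c)).Nonempty
    · obtain ⟨x₀, hx₀⟩ := hne
      rw [Finset.mem_filter] at hx₀
      obtain ⟨hx₀F, hc⟩ := hx₀
      obtain ⟨-, g1, g2, g3, g4⟩ := hq x₀ hx₀F
      rw [hc] at g1 g2 g3 g4
      have hAs : √X ≤ Ak c.1 := by
        refine le_of_pow_le_pow_left₀ (n := 6) (by norm_num) (hAk0 _).le ?_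
        rw [hsX6]
        exact (hF x₀ hx₀F).2.2.2.le.trans g2
      have hY1 : 1 ≤ Yk c.1 c.2 := (hD1 x₀ hx₀F).trans g4
      have hYA : Yk c.1 c.2 ≤ Ak c.1 ^ 6 := by
        rw [hYk]
        exact div_le_self (by have := hAk0 c.1; positivity) (one_le_pow₀ (by norm_num))
      refine hblk (Ak c.1) (Yk c.1 c.2) _ hAs (hAk2 _) hY1 hYA (Finset.filter_subset _ _) ?_
      intro x hx
      rw [Finset.mem_filter] at hx
      obtain ⟨-, g1, g2, g3, g4⟩ := hq x hx.1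
      rw [hx.2] at g1 g2 g3 g4
      exact ⟨g1, g2, g3, g4⟩
    · rw [Finset.not_nonempty_iff_eq_empty] at hne
      rw [hne, Finset.sum_empty]
      exact hBd
  refine (Finset.sum_le_sum hcell).trans ?_
  have hcc : (((range (K₀ + 1) ×ˢ range (K₀ + 1)).card : ℕ) : ℝ) = ((K₀ : ℝ) + 1) ^ 2 := by
    rw [Finset.card_product, Finset.card_range]
    push_cast
    ring
  rw [Finset.sum_const, nsmul_eq_mul, hcc]
  apply mul_le_mul_of_nonneg_right _ hBd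
  exact pow_le_pow_left₀ (by positivity) (by linarith) 2

/-- one block, with weights -/
theorem block_w : ∃ C : ℝ, 0 < C ∧ ∀ (wt : ℕ → Fin 3 → ℝ), (∀ p t, 0 ≤ wt p t) →
    ∀ (A Y T u G S : ℝ), 1 ≤ A → 1 ≤ Y → 0 < T → 0 < u → u ≤ 1 →
    (∀ D : Finset ℕ, (∀ n ∈ D, 1 ≤ n) → ∑ n ∈ D, ww wt n * (n : ℝ) ^ (-u) / rd n ≤ G) →
    (∀ D : Finset ℕ, (∀ n ∈ D, 1 ≤ n ∧ (n : ℝ) ≤ A) → ∑ n ∈ D, ww wt n ≤ S) →
    ∀ (F : Finset (ℤ × ℤ)), (∀ x ∈ F, Mn x.1 x.2 ∧ Rg A Y x.1 x.2 ∧ T ≤ nq x.1 x.2 ∧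
      (nq x.1 x.2 : ℝ) ≤ A) →
    ∑ x ∈ F, Th wt (nq x.1 x.2) x.1 x.2 ≤ C * (Y / A * T ^ (u - 1) * G + A ^ 2 * S) := by
  classical
  obtain ⟨C, hC, hcnt⟩ := wcnt
  refine ⟨C, hC, fun wt hw A Y T u G S hA hY hT hu hu1 hG hS F hF => ?_⟩
  have hA0 : 0 < A := by linarith
  have hY0 : 0 < Y := by linarith
  set nn : ℤ × ℤ → ℕ := fun x => nq x.1 x.2 with hnn
  have hD : ∀ n ∈ F.image nn, 1 ≤ n ∧ T ≤ n ∧ (n : ℝ) ≤ A := by
    intro n hn
    obtain ⟨x, hx, rfl⟩ := mem_image.1 hn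
    obtain ⟨q1, -, q2, q3⟩ := hF x hx
    exact ⟨(nq_spec q1.1).1, q2, q3⟩
  have hmaps : ∀ x ∈ F, nn x ∈ F.image nn := fun x hx => mem_image_of_mem _ hx
  have hrd : ∀ n : ℕ, 0 < rd n := Pool.Agent.N50.SZ.rd_pos
  have h1 : ∑ x ∈ F, Th wt (nq x.1 x.2) x.1 x.2 ≤ ∑ n ∈ F.image nn,
      (C * ww wt n * (Y / (A * (n * rd n : ℕ)) + A ^ 2)) := by
    rw [← Finset.sum_fiberwise_of_maps_to hmaps]
    refine Finset.sum_le_sum fun n hn => ?_
    obtain ⟨q1, q2, q3⟩ := hD n hn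
    have h2 := hcnt wt hw A Y n hA hY q1 (by
      have r2 : (rd n : ℝ) ≤ n := by exact_mod_cast Pool.Agent.N50.SZ.rd_le q1
      push_cast
      have r3 : (0 : ℝ) ≤ n := Nat.cast_nonneg _
      have r4 : (0 : ℝ) ≤ rd n := Nat.cast_nonneg _
      nlinarith) (F.filter (fun x => nn x = n)) (by
      intro x hx
      rw [mem_filter] at hx
      obtain ⟨hxF, hxn⟩ := hx
      have e : nq x.1 x.2 = n := hxn
      rw [← e]
      exact ⟨(hF x hxF).1, (hF x hxF).2.1, (nq_spec (hF x hxF).1.1).2.1⟩)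
    refine le_trans (le_of_eq ?_) h2
    refine Finset.sum_congr rfl fun x hx => ?_
    rw [mem_filter] at hx
    have e : nq x.1 x.2 = n := hx.2
    rw [e]
  refine h1.trans ?_
  have e1 : ∑ n ∈ F.image nn, (C * ww wt n * (Y / (A * (n * rd n : ℕ)) + A ^ 2)) =
      C * (∑ n ∈ F.image nn, ww wt n * (Y / (A * (n * rd n : ℕ)))) +
      C * A ^ 2 * ∑ n ∈ F.image nn, ww wt n := by
    rw [Finset.mul_sum, Finset.mul_sum, ← Finset.sum_add_distrib]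
    exact Finset.sum_congr rfl fun n _ => by ring
  rw [e1]
  have p1 : ∑ n ∈ F.image nn, ww wt n * (Y / (A * (n * rd n : ℕ))) ≤
      Y / A * T ^ (u - 1) * G := by
    have g := hG (F.image nn) (fun n hn => (hD n hn).1)
    refine le_trans ?_ (mul_le_mul_of_nonneg_left g (by positivity))
    rw [Finset.mul_sum]
    refine Finset.sum_le_sum fun n hn => ?_
    obtain ⟨q1, q2, q3⟩ := hD n hn
    have hn0 : (0 : ℝ) < n := by exact_mod_cast q1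
    have hr0 : (0 : ℝ) < rd n := by exact_mod_cast hrd n
    have hw0 := ww_nonneg hw n
    have k1 : (n : ℝ)⁻¹ ≤ T ^ (u - 1) * (n : ℝ) ^ (-u) := by
      have k2 : (n : ℝ)⁻¹ = (n : ℝ) ^ (u - 1) * (n : ℝ) ^ (-u) := by
        rw [← Real.rpow_add hn0, show u - 1 + -u = -1 by ring, Real.rpow_neg_one]
      rw [k2]
      apply mul_le_mul_of_nonneg_right _ (by positivity)
      exact Real.rpow_le_rpow_of_nonpos hT q2 (by linarith)
    calc ww wt n * (Y / (A * (n * rd n : ℕ)))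
        = Y / A * (ww wt n / rd n) * (n : ℝ)⁻¹ := by
          push_cast; field_simp
      _ ≤ Y / A * (ww wt n / rd n) * (T ^ (u - 1) * (n : ℝ) ^ (-u)) :=
          mul_le_mul_of_nonneg_left k1 (by positivity)
      _ = _ := by ring
  have p2 := hS (F.image nn) (fun n hn => ⟨(hD n hn).1, (hD n hn).2.2⟩)
  have k1 := mul_le_mul_of_nonneg_left p1 hC.le
  have k2 := mul_le_mul_of_nonneg_left p2 (show 0 ≤ C * A ^ 2 by positivity)
  calc _ ≤ C * (Y / A * T ^ (u - 1) * G) + C * A ^ 2 * S := add_le_add k1 k2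
    _ = _ := by ring

end Pool.Agent.Run7.h585.AN
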