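import Pool.Agent.Run7.h585.AN.Main

/-!
# The exceptional curves (helper585)
-/

set_option autoImplicit false

namespace Pool.Agent.Run7.h585.AN

open Finset Filter Topology Pool.Agent.N906.SZ Pool.Agent.N906.FH
open Pool.Agent.N692.FH (upg_size upg_mx upg_box)

/-- linear functions dominate `√(x / log x)` -/
theorem lin_dom (a b : ℝ) (hb : 0 < b) : ∀ᶠ x : ℝ in atTop, a * √(x / Real.log x) ≤ b * x := by
  filter_upwards [eventually_ge_atTop (max 3 ((|a| / b) ^ 2))] with x hx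
  have hx3 : 3 ≤ x := (le_max_left _ _).trans hx
  have hxa : (|a| / b) ^ 2 ≤ x := (le_max_right _ _).trans hx
  have hx0 : 0 < x := by linarith
  have hl1 : 1 ≤ Real.log x := by
    rw [Real.le_log_iff_exp_le hx0]
    have := Real.exp_one_lt_d9
    linarith
  have h1 : √(x / Real.log x) ≤ √x := Real.sqrt_le_sqrt (div_le_self hx0.le hl1)
  have h2 : |a| / b ≤ √x := Real.le_sqrt_of_sq_le hxa
  rw [div_le_iff₀ hb] at h2
  have h3 : √x * √x = x := Real.mul_self_sqrt hx0.le
  have h4 : 0 ≤ √x := Real.sqrt_nonneg _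
  calc a * √(x / Real.log x) ≤ |a| * √x := by
        apply mul_le_mul (le_abs_self a) h1 (Real.sqrt_nonneg _) (abs_nonneg a)
    _ ≤ (√x * b) * √x := mul_le_mul_of_nonneg_right h2 h4
    _ = b * (√x * √x) := by ring
    _ = b * x := by rw [h3]

/-- a polynomial in `L` is dominated by `exp (ε √(L / log L))` -/
theorem poly_dom (c ε : ℝ) (hc : 0 < c) (hε : 0 < ε) : ∀ᶠ X : ℝ in atTop,
    c * Real.log X ^ 2 ≤ Real.exp (ε * √(Real.log X / Real.log (Real.log X))) := by
  have hasym := Pool.Agent.N92.SZ.up_asym c 1 (ε / 3) one_pos (by positivity)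
  filter_upwards [hasym, eventually_ge_atTop (3 : ℝ)] with X h hX
  have hL : 0 ≤ Real.log X := Real.log_nonneg (by linarith)
  rw [one_mul] at h
  set S := √(Real.log X / Real.log (Real.log X)) with hS
  have h1 : (c + 60 * Real.log X) ^ 3 ≤ Real.exp (ε / 3 * S) ^ 3 :=
    pow_le_pow_left₀ (by positivity) h 3
  have h2 : Real.exp (ε / 3 * S) ^ 3 = Real.exp (ε * S) := by
    rw [← Real.exp_nat_mul]; congr 1; push_cast; ring
  rw [h2] at h1
  refine le_trans ?_ h1
  have h4 : c * Real.log X ^ 2 ≤ (c + 60 * Real.log X) * (c + 60 * Real.log X) ^ 2 := by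
    apply mul_le_mul (by linarith) _ (by positivity) (by positivity)
    exact pow_le_pow_left₀ hL (by linarith) 2
  calc c * Real.log X ^ 2 ≤ _ := h4
    _ = (c + 60 * Real.log X) ^ 3 := by ring

/-- the exceptional curves -/
theorem bad (lam K ε : ℝ) (hl0 : 0 < lam) (hl1 : lam < 1 / 6) (hK : 1 ≤ K) (hε : 0 < ε) :
    ∃ X₀ : ℝ, 31 ≤ X₀ ∧ ∀ (X : ℝ) (F : Finset (ℤ × ℤ)), X₀ ≤ X →
      (∀ x ∈ F, Mn x.1 x.2 ∧ |(x.1 : ℝ)| ≤ X ^ 2 ∧ |(x.2 : ℝ)| ≤ X ^ 3 ∧
        (Nc x.1 x.2 : ℝ) ≤ K * Mx x.1 x.2 ^ (1 - lam) ∧ ¬ Good lam K X x) →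
      (F.card : ℝ) ≤ Real.exp ((5 - 6 * lam) * Real.log X +
        ε * √(Real.log X / Real.log (Real.log X))) := by
  classical
  have hK0 : 0 < K := by linarith
  obtain ⟨C, hC, hcnt⟩ := cnt2_all
  obtain ⟨lam', hlam'⟩ : ∃ lam' : ℝ, lam' = 1 / 12 + lam / 2 := ⟨_, rfl⟩
  have hl'0 : 0 < lam' := by rw [hlam']; linarith
  have hl'1 : lam' < 1 / 6 := by rw [hlam']; linarith
  obtain ⟨X₁, hX₁3, hup⟩ := up_un lam' (128 * K) 1 hl'0 hl'1 (by linarith) one_pos
  obtain ⟨c, hc⟩ : ∃ c : ℝ, c = 9 + 144 * (C * (8192 * K + 4)) + 1 := ⟨_, rfl⟩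
  have hc0 : 0 < c := by rw [hc]; positivity
  have hpd := poly_dom c ε hc0 hε
  have hld := lin_dom (2 * √(96 * lam')) (6 * (lam' - lam)) (by rw [hlam']; linarith)
  have hld' := Real.tendsto_log_atTop.eventually hld
  obtain ⟨X₂, hX₂⟩ := eventually_atTop.1 (hpd.and hld')
  refine ⟨max (max X₁ X₂) 31, le_max_right _ _, fun X F hX hF => ?_⟩
  have hX1' : X₁ ≤ X := ((le_max_left _ _).trans (le_max_left _ _)).trans hX
  have hX2' : X₂ ≤ X := ((le_max_right _ _).trans (le_max_left _ _)).trans hX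
  have hX31 : (31 : ℝ) ≤ X := (le_max_right _ _).trans hX
  obtain ⟨hbig, hlin⟩ := hX₂ X hX2'
  have hX0 : 0 < X := by linarith
  have hX1 : 1 ≤ X := by linarith
  obtain ⟨L, hL⟩ : ∃ L : ℝ, L = Real.log X := ⟨_, rfl⟩
  rw [← hL] at hbig hlin ⊢
  have hlogX : 3 ≤ L := by
    rw [hL, Real.le_log_iff_exp_le hX0]
    have h1 := Real.exp_one_lt_d9
    have h2 : Real.exp 3 = Real.exp 1 ^ 3 := by rw [← Real.exp_nat_mul]; norm_num
    rw [h2]
    have h3 : Real.exp 1 ^ 3 ≤ 2.72 ^ 3 := pow_le_pow_left₀ (Real.exp_pos _).le (by linarith) 3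
    norm_num at h3
    linarith
  obtain ⟨P, hP⟩ : ∃ P : ℝ, P = Real.exp ((5 - 6 * lam) * L) := ⟨_, rfl⟩
  have hP0 : 0 < P := by rw [hP]; exact Real.exp_pos _
  have hXP : X ^ (5 - 6 * lam) = P := by
    rw [Real.rpow_def_of_pos hX0, hP, hL]
    congr 1; ring
  have hX3P : X ^ 3 ≤ P := by
    rw [← hXP, ← Real.rpow_natCast X 3]
    apply Real.rpow_le_rpow_of_exponent_le hX1
    push_cast
    linarith
  have hX2P : X ^ 2 ≤ P := by
    rw [← hXP, ← Real.rpow_natCast X 2]
    apply Real.rpow_le_rpow_of_exponent_le hX1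
    push_cast
    linarith
  set F1 := F.filter (fun x => Mx x.1 x.2 ≤ X ^ 3) with hF1
  set F2 := F.filter (fun x => X ^ 3 < Mx x.1 x.2 ∧
    |((Dd x.1 x.2 : ℤ) : ℝ)| < 128 * K * Mx x.1 x.2 ^ (1 - lam)) with hF2
  set F3 := F.filter (fun x => (Nc x.1 x.2 : ℝ) < 128 * K * Mx x.1 x.2 ^ (1 - lam')) with hF3
  have hcov : F ⊆ F1 ∪ F2 ∪ F3 := by
    intro x hx
    obtain ⟨g1, g2, g3, g4, g5⟩ := hF x hx
    rw [mem_union, mem_union]
    by_cases h1 : Mx x.1 x.2 ≤ X ^ 3
    · left; left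
      rw [hF1, mem_filter]
      exact ⟨hx, h1⟩
    by_cases h2 : |((Dd x.1 x.2 : ℤ) : ℝ)| < 128 * K * Mx x.1 x.2 ^ (1 - lam)
    · left; right
      rw [hF2, mem_filter]
      exact ⟨hx, not_le.1 h1, h2⟩
    right
    rw [hF3, mem_filter]
    refine ⟨hx, ?_⟩
    by_contra h3
    rw [hlam'] at h3
    exact g5 ⟨g1, g2, g3, not_le.1 h1, g4, not_lt.1 h2, not_lt.1 h3⟩
  have hsX : 0 < √X := Real.sqrt_pos.mpr hX0
  have hsX2 : √X ^ 2 = X := Real.sq_sqrt hX0.le
  have hsX1 : 1 ≤ √X := by rw [Real.one_le_sqrt]; exact hX1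
  have hsXX : √X ≤ X := by nlinarith
  have hsX6 : √X ^ 6 = X ^ 3 := by
    calc √X ^ 6 = (√X ^ 2) ^ 3 := by ring
      _ = X ^ 3 := by rw [hsX2]
  have hc1 : (F1.card : ℝ) ≤ 9 * P := by
    have h1 := upg_box X (X ^ 2) hX0.le (by positivity) F1 (by
      intro x hx
      rw [hF1, Finset.mem_filter] at hx
      have h2 := upg_size (A := √X) hsX.le (a := x.1) (b := x.2) (by rw [hsX6]; exact hx.2)
      refine ⟨by rw [hsX2] at h2; exact h2.1, h2.2.trans ?_⟩
      calc √X ^ 3 = √X ^ 2 * √X := by ring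
        _ = X * √X := by rw [hsX2]
        _ ≤ X * X := by nlinarith
        _ = X ^ 2 := by ring)
    have h3 : (2 * X + 1) * (2 * X ^ 2 + 1) ≤ 9 * X ^ 3 := by
      have h4 : 2 * X + 1 ≤ 3 * X := by linarith
      have hX2 : 1 ≤ X ^ 2 := one_le_pow₀ hX1
      have h5 : 2 * X ^ 2 + 1 ≤ 3 * X ^ 2 := by linarith
      calc (2 * X + 1) * (2 * X ^ 2 + 1) ≤ (3 * X) * (3 * X ^ 2) :=
            mul_le_mul h4 h5 (by positivity) (by positivity)
        _ = 9 * X ^ 3 := by ring
    linarith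
  have hc2 : (F2.card : ℝ) ≤ (12 * L) ^ 2 * (C * (8192 * K + 4) * P) := by
    have h := assemble hX31 (fun _ => (1 : ℝ)) (C * (8192 * K + 4) * P) (by positivity) F2
      (fun x hx => by
        rw [hF2, mem_filter] at hx
        obtain ⟨g1, g2, g3, -⟩ := hF x hx.1
        exact ⟨g1, g2, g3, hx.2.1⟩) (by
      intro A Y F' hA1 hA2 hY1 hYA hF'F hF'
      have hA1' : 1 ≤ A := hsX1.trans hA1
      have hA0 : 0 < A := by linarith
      by_cases hne : F'.Nonempty
      swap
      · rw [Finset.not_nonempty_iff_eq_empty] at hne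
        rw [hne, Finset.sum_empty]
        positivity
      rw [Finset.sum_const, nsmul_eq_mul, mul_one]
      have hrd1 : rd 1 = 1 := by simp [rd]
      have hcc1 : cc 1 = 1 := by simp [cc]
      have h1 := hcnt A Y 1 hA1' hY1 le_rfl (by
        rw [hrd1]
        push_cast
        nlinarith) F' (by
        intro x hx
        have hx2 := hF'F hx
        rw [hF2, mem_filter] at hx2
        obtain ⟨g1, -⟩ := hF x hx2.1
        obtain ⟨b1, b2, b3, b4⟩ := hF' x hx
        have hsz := upg_size hA0.le b2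
        refine ⟨g1, ⟨hsz.1, hsz.2, b1, b4⟩, ?_⟩
        intro p hp
        simp at hp)
      simp only [hrd1, hcc1] at h1
      norm_num at h1
      have eA : ∀ s : ℝ, (A ^ 6) ^ s = A ^ (6 * s) := by
        intro s
        rw [← Real.rpow_natCast A 6, ← Real.rpow_mul hA0.le]
        congr 1
      have hY : Y ≤ 256 * K * A ^ (6 * (1 - lam)) := by
        obtain ⟨x, hx⟩ := hne
        have hx2 := hF'F hx
        rw [hF2, mem_filter] at hx2
        obtain ⟨b1, b2, b3, b4⟩ := hF' x hx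
        have hMp : (0 : ℝ) ≤ Mx x.1 x.2 := le_trans (abs_nonneg _) (le_max_right _ _)
        have h2 : Mx x.1 x.2 ^ (1 - lam) ≤ A ^ (6 * (1 - lam)) := by
          rw [← eA]
          exact Real.rpow_le_rpow hMp b2 (by linarith)
        have h3 := mul_le_mul_of_nonneg_left h2 (show 0 ≤ 128 * K by positivity)
        linarith [hx2.2.2]
      have hA3 : A ^ (6 * (1 - lam)) / A ≤ 32 * P := by
        have e1 : A ^ (6 * (1 - lam)) / A = A ^ (5 - 6 * lam) := by
          rw [show 6 * (1 - lam) = (5 - 6 * lam) + 1 by ring, Real.rpow_add hA0, Real.rpow_one]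
          field_simp
        rw [e1]
        calc A ^ (5 - 6 * lam) ≤ (2 * X) ^ (5 - 6 * lam) :=
              Real.rpow_le_rpow hA0.le hA2 (by linarith)
          _ = 2 ^ (5 - 6 * lam) * X ^ (5 - 6 * lam) := Real.mul_rpow (by norm_num) hX0.le
          _ ≤ 32 * P := by
              rw [hXP]
              apply mul_le_mul_of_nonneg_right _ hP0.le
              calc (2 : ℝ) ^ (5 - 6 * lam) ≤ 2 ^ (5 : ℝ) :=
                    Real.rpow_le_rpow_of_exponent_le (by norm_num) (by linarith)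
                _ = 32 := by
                    have : (2 : ℝ) ^ (5 : ℝ) = 2 ^ (5 : ℕ) := by
                      rw [← Real.rpow_natCast]; norm_num
                    rw [this]; norm_num
      have hYA' : Y / A ≤ 8192 * K * P := by
        calc Y / A ≤ (256 * K * A ^ (6 * (1 - lam))) / A := div_le_div_of_nonneg_right hY hA0.le
          _ = 256 * K * (A ^ (6 * (1 - lam)) / A) := by ring
          _ ≤ 256 * K * (32 * P) := mul_le_mul_of_nonneg_left hA3 (by positivity)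
          _ = _ := by ring
      have hA2P : A ^ 2 ≤ 4 * P := by
        calc A ^ 2 ≤ (2 * X) ^ 2 := pow_le_pow_left₀ hA0.le hA2 2
          _ = 4 * X ^ 2 := by ring
          _ ≤ 4 * P := by linarith
      calc (F'.card : ℝ) ≤ C * (Y / A + A ^ 2) := h1
        _ ≤ C * (8192 * K * P + 4 * P) := mul_le_mul_of_nonneg_left (by linarith) hC.le
        _ = _ := by ring)
    rw [Finset.sum_const, nsmul_eq_mul, mul_one, ← hL] at h
    exact h
  have hc3 : (F3.card : ℝ) ≤ P := by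
    have h := hup X F3 hX1' (by
      intro x hx
      rw [hF3, mem_filter] at hx
      obtain ⟨g1, g2, g3, g4, -⟩ := hF x hx.1
      refine ⟨g1, g2, g3, nq x.1 x.2, (nq_spec g1.1).1, (nq_spec g1.1).2.1, ?_⟩
      rw [nq_real g1.1]
      calc (nq x.1 x.2 : ℝ) * Nc x.1 x.2 ≤
          nq x.1 x.2 * (128 * K * Mx x.1 x.2 ^ (1 - lam')) :=
            mul_le_mul_of_nonneg_left hx.2.le (Nat.cast_nonneg _)
        _ = _ := by ring)
    refine h.trans ?_
    rw [hP, ← hL]
    apply Real.exp_le_exp.2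
    have e1 : √(48 * 2 * lam' * L / Real.log L) = √(96 * lam') * √(L / Real.log L) := by
      rw [← Real.sqrt_mul (by positivity)]
      congr 1
      ring
    rw [e1]
    linarith
  have hcard : (F.card : ℝ) ≤ F1.card + F2.card + F3.card := by
    have h1 := (Finset.card_le_card hcov).trans (Finset.card_union_le _ _)
    have h2 := Finset.card_union_le F1 F2
    exact_mod_cast (by omega : F.card ≤ F1.card + F2.card + F3.card)
  have hL2 : 1 ≤ L ^ 2 := one_le_pow₀ (by linarith)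
  calc (F.card : ℝ) ≤ 9 * P + (12 * L) ^ 2 * (C * (8192 * K + 4) * P) + P := by linarith
    _ ≤ 9 * L ^ 2 * P + (12 * L) ^ 2 * (C * (8192 * K + 4) * P) + L ^ 2 * P := by
        have h1 : P ≤ L ^ 2 * P := le_mul_of_one_le_left hP0.le hL2
        linarith
    _ = (c * L ^ 2) * P := by rw [hc]; ring
    _ ≤ Real.exp (ε * √(L / Real.log L)) * P := mul_le_mul_of_nonneg_right hbig hP0.le
    _ = _ := by
        rw [hP, ← Real.exp_add]
        congr 1; ring

end Pool.Agent.Run7.h585.AN
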