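import Pool.Agent.Run7.h585.AN.Bad

/-!
# Chernoff bounds for the numbers of primes of the types (helper585)
-/

set_option autoImplicit false

namespace Pool.Agent.Run7.h585.AN

open Finset Filter Topology Pool.Agent.N906.SZ Pool.Agent.N906.FH
open Pool.Agent.N692.FH (upg_size upg_mx upg_box)

/-- the number of the primes `5 ≤ p ≤ z` of the type `i` dividing `|D| / N₆` -/
noncomputable def cntT (i : Fin 3) (z : ℝ) (x : ℤ × ℤ) : ℕ :=
  ((nq x.1 x.2).primeFactors.filter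
    (fun p => 5 ≤ p ∧ ty p x.1 x.2 = i ∧ (p : ℝ) ≤ z)).card

/-- the number of the primes `p ≥ 5` of the type `i` dividing `|D| / N₆` -/
noncomputable def cntA (i : Fin 3) (x : ℤ × ℤ) : ℕ :=
  ((nq x.1 x.2).primeFactors.filter (fun p => 5 ≤ p ∧ ty p x.1 x.2 = i)).card

/-- `√(6 λ log X / log log X)` -/
noncomputable def s0 (lam X : ℝ) : ℝ := √(6 * lam * Real.log X / Real.log (Real.log X))

theorem s0_nonneg (lam X : ℝ) : 0 ≤ s0 lam X := Real.sqrt_nonneg _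

/-- `r` at `i` and `1` elsewhere -/
def wi (i : Fin 3) (r : ℝ) (j : Fin 3) : ℝ := if j = i then r else 1

theorem wi_nonneg (i : Fin 3) {r : ℝ} (hr : 0 ≤ r) (j : Fin 3) : 0 ≤ wi i r j := by
  unfold wi
  split_ifs
  · exact hr
  · exact zero_le_one

theorem cntT_mono (i : Fin 3) {z w : ℝ} (h : z ≤ w) (x : ℤ × ℤ) : cntT i z x ≤ cntT i w x := by
  unfold cntT
  refine Finset.card_le_card fun p hp => ?_
  rw [mem_filter] at hp ⊢
  exact ⟨hp.1, hp.2.1, hp.2.2.1, hp.2.2.2.trans h⟩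

theorem cntT_le (i : Fin 3) (z : ℝ) (x : ℤ × ℤ) : cntT i z x ≤ cntA i x := by
  unfold cntT cntA
  refine Finset.card_le_card fun p hp => ?_
  rw [mem_filter] at hp ⊢
  exact ⟨hp.1, hp.2.1, hp.2.2.1⟩

theorem Th_cut (i : Fin 3) (z r : ℝ) (x : ℤ × ℤ) :
    Th (wtc z (wi i r) (fun _ => 1)) (nq x.1 x.2) x.1 x.2 = r ^ cntT i z x := by
  classical
  unfold Th cntT
  have e : ∀ p ∈ (nq x.1 x.2).primeFactors.filter (fun p => 5 ≤ p),
      wtc z (wi i r) (fun _ => 1) p (ty p x.1 x.2) =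
      if (ty p x.1 x.2 = i ∧ (p : ℝ) ≤ z) then r else 1 := by
    intro p _
    unfold wtc wi
    by_cases h1 : (p : ℝ) ≤ z
    · rw [if_pos h1]
      by_cases h2 : ty p x.1 x.2 = i
      · rw [if_pos h2, if_pos ⟨h2, h1⟩]
      · rw [if_neg h2, if_neg (fun h => h2 h.1)]
    · rw [if_neg h1, if_neg (fun h => h1 h.2)]
  rw [Finset.prod_congr rfl e, Finset.prod_ite, Finset.prod_const, Finset.prod_const_one, mul_one,
    Finset.filter_filter]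

theorem Th_all (i : Fin 3) (z r : ℝ) (x : ℤ × ℤ) :
    Th (wtc z (wi i r) (wi i r)) (nq x.1 x.2) x.1 x.2 = r ^ cntA i x := by
  classical
  unfold Th cntA
  have e : ∀ p ∈ (nq x.1 x.2).primeFactors.filter (fun p => 5 ≤ p),
      wtc z (wi i r) (wi i r) p (ty p x.1 x.2) =
      if (ty p x.1 x.2 = i) then r else 1 := by
    intro p _
    unfold wtc wi
    split_ifs <;> rfl
  rw [Finset.prod_congr rfl e, Finset.prod_ite, Finset.prod_const, Finset.prod_const_one, mul_one,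
    Finset.filter_filter]

/-- the size of `|D|` in the box -/
theorem D_box {lam X : ℝ} (hl0 : 0 < lam) (hl1 : lam < 1 / 6) (hX : 1 ≤ X) {x : ℤ × ℤ}
    (h1 : |(x.1 : ℝ)| ≤ X ^ 2) (h2 : |(x.2 : ℝ)| ≤ X ^ 3) :
    |((Dd x.1 x.2 : ℤ) : ℝ)| ≤ 64 * X ^ (6 * lam) * Mx x.1 x.2 ^ (1 - lam) := by
  have hX0 : 0 < X := by linarith
  have hM := upg_mx h1 h2
  have hD : |((Dd x.1 x.2 : ℤ) : ℝ)| ≤ Mx x.1 x.2 := le_max_right _ _
  have hM0 : 0 ≤ Mx x.1 x.2 := (abs_nonneg _).trans hD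
  rcases hM0.eq_or_lt with h0 | h0
  · rw [← h0] at hD
    have : 0 ≤ 64 * X ^ (6 * lam) * Mx x.1 x.2 ^ (1 - lam) := by positivity
    linarith
  calc |((Dd x.1 x.2 : ℤ) : ℝ)| ≤ Mx x.1 x.2 := hD
    _ = Mx x.1 x.2 ^ lam * Mx x.1 x.2 ^ (1 - lam) := by
        rw [← Real.rpow_add h0, show lam + (1 - lam) = 1 by ring, Real.rpow_one]
    _ ≤ (64 * X ^ 6) ^ lam * Mx x.1 x.2 ^ (1 - lam) := by
        apply mul_le_mul_of_nonneg_right _ (by positivity)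
        exact Real.rpow_le_rpow hM0 hM hl0.le
    _ = 64 ^ lam * X ^ (6 * lam) * Mx x.1 x.2 ^ (1 - lam) := by
        rw [Real.mul_rpow (by norm_num) (by positivity), ← Real.rpow_natCast X 6,
          ← Real.rpow_mul hX0.le]
        norm_num
    _ ≤ 64 * X ^ (6 * lam) * Mx x.1 x.2 ^ (1 - lam) := by
        apply mul_le_mul_of_nonneg_right _ (by positivity)
        apply mul_le_mul_of_nonneg_right _ (by positivity)
        calc (64 : ℝ) ^ lam ≤ 64 ^ (1 : ℝ) :=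
              Real.rpow_le_rpow_of_exponent_le (by norm_num) (by linarith)
          _ = 64 := Real.rpow_one 64

/-- the general Chernoff bound -/
theorem cher0 (h g : Fin 3 → ℝ) (hh : ∀ i, 0 ≤ h i) (hg : ∀ i, 0 ≤ g i) (t : ℝ) (ht : 1 ≤ t)
    (μ : ℝ) (hμ0 : 0 < μ) (hμ : (h 0 + h 1) * (1 - 1 / t) + (g 0 + g 1) / t ≤ μ)
    (lam lam₂ K K₂ c : ℝ) (hl0 : 0 < lam) (hl1 : lam < 1 / 6) (hl2 : 0 < lam₂) (hK : 1 ≤ K)
    (hK₂ : 1 ≤ K₂) (hc : √(8 * μ * lam₂ / lam) - c < 4) :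
    ∃ δ X₀ : ℝ, 0 < δ ∧ 31 ≤ X₀ ∧ ∀ (X : ℝ) (F : Finset (ℤ × ℤ)), X₀ ≤ X →
      (∀ x ∈ F, Good lam K X x ∧
        |((Dd x.1 x.2 : ℤ) : ℝ)| ≤ K₂ * X ^ (6 * lam₂) * Mx x.1 x.2 ^ (1 - lam) ∧
        Real.exp (c * s0 lam X) ≤
          Th (wtc (uu μ (6 * lam₂) (Real.log X) ^ (-t)) h g) (nq x.1 x.2) x.1 x.2) →
      (F.card : ℝ) ≤ Real.exp ((5 - 6 * lam) * Real.log X + (4 - δ) * s0 lam X) := by
  obtain ⟨ρ, hρ⟩ : ∃ ρ : ℝ, ρ = √(8 * μ * lam₂ / lam) := ⟨_, rfl⟩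
  have hρ0 : 0 ≤ ρ := by rw [hρ]; exact Real.sqrt_nonneg _
  rw [← hρ] at hc
  obtain ⟨ε, hε⟩ : ∃ ε : ℝ, ε = (4 - ρ + c) / (2 * (ρ + 1)) := ⟨_, rfl⟩
  have hε0 : 0 < ε := by rw [hε]; apply div_pos <;> linarith
  have hερ : ε * ρ ≤ (4 - ρ + c) / 2 := by
    rw [hε, div_mul_eq_mul_div, div_le_div_iff₀ (by positivity) (by norm_num)]
    nlinarith
  obtain ⟨X₀, hX₀, hm⟩ := main_w h g hh hg t ht μ hμ0 hμ lam lam₂ K K₂ ε hl0 hl1 hl2 hK hK₂ hε0
  refine ⟨(4 - ρ + c) / 2, X₀, by linarith, hX₀, fun X F hX hF => ?_⟩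
  have h1 := hm X F hX (fun x hx => ⟨(hF x hx).1, (hF x hx).2.1⟩)
  have h2 : (F.card : ℝ) * Real.exp (c * s0 lam X) ≤
      ∑ x ∈ F, Th (wtc (uu μ (6 * lam₂) (Real.log X) ^ (-t)) h g) (nq x.1 x.2) x.1 x.2 := by
    rw [← nsmul_eq_mul]
    exact Finset.card_nsmul_le_sum _ _ _ (fun x hx => (hF x hx).2.2)
  have hX31 : (31 : ℝ) ≤ X := hX₀.trans hX
  have hX0 : 0 < X := by linarith
  have hlogX : 3 ≤ Real.log X := by
    rw [Real.le_log_iff_exp_le hX0]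
    have h1 := Real.exp_one_lt_d9
    have h2 : Real.exp 3 = Real.exp 1 ^ 3 := by rw [← Real.exp_nat_mul]; norm_num
    rw [h2]
    have h3 : Real.exp 1 ^ 3 ≤ 2.72 ^ 3 := pow_le_pow_left₀ (Real.exp_pos _).le (by linarith) 3
    norm_num at h3
    linarith
  have hllX : 0 < Real.log (Real.log X) := Real.log_pos (by linarith)
  have h3 : √(48 * μ * lam₂ * Real.log X / Real.log (Real.log X)) = ρ * s0 lam X := by
    rw [hρ, s0, ← Real.sqrt_mul (by positivity)]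
    congr 1
    field_simp
    ring
  rw [h3] at h1
  have h4 := h2.trans h1
  have h5 : (F.card : ℝ) ≤ Real.exp ((5 - 6 * lam) * Real.log X + (1 + ε) * (ρ * s0 lam X)) *
      Real.exp (-(c * s0 lam X)) := by
    have h6 : (F.card : ℝ) = (F.card : ℝ) * Real.exp (c * s0 lam X) *
        Real.exp (-(c * s0 lam X)) := by
      rw [mul_assoc, ← Real.exp_add, add_neg_cancel, Real.exp_zero, mul_one]
    rw [h6]
    exact mul_le_mul_of_nonneg_right h4 (Real.exp_pos _).le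
  refine h5.trans ?_
  rw [← Real.exp_add]
  apply Real.exp_le_exp.2
  have h7 := s0_nonneg lam X
  have h8 : ε * ρ * s0 lam X ≤ (4 - ρ + c) / 2 * s0 lam X := mul_le_mul_of_nonneg_right hερ h7
  linarith [show (1 + ε) * (ρ * s0 lam X) = ρ * s0 lam X + ε * ρ * s0 lam X by ring,
    show (4 - (4 - ρ + c) / 2) * s0 lam X = ρ * s0 lam X - c * s0 lam X +
      (4 - ρ + c) / 2 * s0 lam X by ring]

/-- `√(8 (2 + y)) ≤ 4 + y` -/
theorem sqrt_tan {y : ℝ} (hy : -2 ≤ y) : √(8 * (2 + y)) ≤ 4 + y := by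
  rw [Real.sqrt_le_left (by linarith)]
  nlinarith [sq_nonneg y]

/-- `e^ν - 1 ≤ ν + ν²` -/
theorem exp_le_quad {ν : ℝ} (h0 : 0 ≤ ν) (h1 : ν ≤ 1) : Real.exp ν ≤ 1 + ν + ν ^ 2 := by
  have := Real.abs_exp_sub_one_sub_id_le (x := ν) (by rw [abs_of_nonneg h0]; exact h1)
  rw [abs_le] at this
  linarith [this.2]

theorem exp_neg_le_quad {ν : ℝ} (h0 : 0 ≤ ν) (h1 : ν ≤ 1) :
    Real.exp (-ν) ≤ 1 - ν + ν ^ 2 := by
  have := Real.abs_exp_sub_one_sub_id_le (x := -ν) (by rw [abs_neg, abs_of_nonneg h0]; exact h1)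
  rw [abs_le] at this
  have h2 := this.2
  have h3 : (-ν) ^ 2 = ν ^ 2 := by ring
  rw [h3] at h2
  linarith

/-- the sum of the weights of the types 0 and 1 -/
theorem wi_sum {i : Fin 3} (hi : i = 0 ∨ i = 1) (r : ℝ) : wi i r 0 + wi i r 1 = 1 + r := by
  rcases hi with rfl | rfl
  · unfold wi
    rw [if_pos rfl, if_neg (by decide)]
    ring
  · unfold wi
    rw [if_neg (by decide), if_pos rfl]

theorem wi_sum2 (r : ℝ) : wi 2 r 0 + wi 2 r 1 = 2 := by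
  unfold wi
  rw [if_neg (by decide), if_neg (by decide)]
  norm_num

/-- upper tail -/
theorem cher_up (i : Fin 3) (hi : i = 0 ∨ i = 1) (t lam K ε : ℝ) (ht : 1 ≤ t) (hl0 : 0 < lam)
    (hl1 : lam < 1 / 6) (hK : 1 ≤ K) (hε : 0 < ε) (hε1 : ε ≤ 1) :
    ∃ δ X₀ : ℝ, 0 < δ ∧ 31 ≤ X₀ ∧ ∀ (X : ℝ) (F : Finset (ℤ × ℤ)), X₀ ≤ X →
      (∀ x ∈ F, Good lam K X x ∧
        (1 - 1 / t + ε) * s0 lam X ≤ cntT i (Real.log X ^ (t / 2)) x) →
      (F.card : ℝ) ≤ Real.exp ((5 - 6 * lam) * Real.log X + (4 - δ) * s0 lam X) := by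
  obtain ⟨ν, hν⟩ : ∃ ν : ℝ, ν = ε / 2 := ⟨_, rfl⟩
  have hν0 : 0 < ν := by rw [hν]; positivity
  have hν1 : ν ≤ 1 := by rw [hν]; linarith
  have ht0 : 0 < t := by linarith
  obtain ⟨θ, hθ⟩ : ∃ θ : ℝ, θ = 1 - 1 / t := ⟨_, rfl⟩
  have hθ1 : θ ≤ 1 := by
    rw [hθ]
    have : 0 < 1 / t := by positivity
    linarith
  have hθ0 : 0 ≤ θ := by
    rw [hθ]
    have : 1 / t ≤ 1 := by rw [div_le_one ht0]; exact ht
    linarith
  have he := exp_le_quad hν0.le hν1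
  have he1 : 1 ≤ Real.exp ν := Real.one_le_exp hν0.le
  obtain ⟨y, hy⟩ : ∃ y : ℝ, y = (Real.exp ν - 1) * θ := ⟨_, rfl⟩
  have hy0 : 0 ≤ y := by rw [hy]; exact mul_nonneg (by linarith) hθ0
  have hyu : y ≤ ν * θ + ν ^ 2 := by
    rw [hy]
    have h1 : (Real.exp ν - 1) * θ ≤ (ν + ν ^ 2) * θ := mul_le_mul_of_nonneg_right (by linarith) hθ0
    have h2 : ν ^ 2 * θ ≤ ν ^ 2 * 1 := mul_le_mul_of_nonneg_left hθ1 (by positivity)
    linarith
  have hμ : (wi i (Real.exp ν) 0 + wi i (Real.exp ν) 1) * (1 - 1 / t) +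
      ((fun _ : Fin 3 => (1 : ℝ)) 0 + (fun _ : Fin 3 => (1 : ℝ)) 1) / t ≤ 2 + y := by
    rw [wi_sum hi, hy]
    have e1 : 1 / t = 1 - θ := by rw [hθ]; ring
    have e2 : (1 + 1 : ℝ) / t = 2 * (1 - θ) := by rw [← e1]; ring
    simp only
    rw [e2, ← hθ]
    apply le_of_eq
    ring
  have hcc : √(8 * (2 + y) * lam / lam) - ν * (θ + ε) < 4 := by
    rw [mul_div_cancel_right₀ _ hl0.ne']
    have h1 := sqrt_tan (y := y) (by linarith)
    have h2 : ν ^ 2 < ν * ε := by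
      rw [hν]
      nlinarith
    linarith [show ν * (θ + ε) = ν * θ + ν * ε by ring]
  obtain ⟨δ, X₁, hδ, hX₁, hch⟩ := cher0 (wi i (Real.exp ν)) (fun _ => 1)
    (wi_nonneg i (Real.exp_pos _).le) (fun _ => zero_le_one) t ht (2 + y) (by linarith) hμ
    lam lam K 64 (ν * (θ + ε)) hl0 hl1 hl0 hK (by norm_num) hcc
  have hnum := Real.tendsto_log_atTop.eventually
    (numx (κ := 6 * lam) (ε := 1) (u₀ := 1) (μ := 2 + y) (by positivity) one_pos one_pos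
      (by linarith))
  obtain ⟨X₂, hX₂⟩ := eventually_atTop.1 hnum
  refine ⟨δ, max X₁ X₂, hδ, hX₁.trans (le_max_left _ _), fun X F hX hF => ?_⟩
  have hX31 : (31 : ℝ) ≤ X := (hX₁.trans (le_max_left _ _)).trans hX
  have hX0 : 0 < X := by linarith
  obtain ⟨hu0, hu1, hlu, -, -⟩ := hX₂ X ((le_max_right _ _).trans hX)
  refine hch X F ((le_max_left _ _).trans hX) (fun x hx => ?_)
  obtain ⟨hg, hcnt⟩ := hF x hx
  refine ⟨hg, D_box hl0 hl1 (by linarith) hg.2.1 hg.2.2.1, ?_⟩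
  rw [Th_cut, ← Real.exp_nat_mul]
  apply Real.exp_le_exp.2
  have hz : Real.log X ^ (t / 2) ≤ uu (2 + y) (6 * lam) (Real.log X) ^ (-t) := by
    have hlogX : 1 ≤ Real.log X := by
      rw [Real.le_log_iff_exp_le hX0]
      have h1 := Real.exp_one_lt_d9
      linarith
    have hlX0 : 0 < Real.log X := by linarith
    rw [Real.rpow_def_of_pos hlX0, Real.rpow_def_of_pos hu0]
    apply Real.exp_le_exp.2
    rw [one_div, Real.log_inv] at hlu
    nlinarith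
  have h1 : (cntT i (Real.log X ^ (t / 2)) x : ℝ) ≤
      cntT i (uu (2 + y) (6 * lam) (Real.log X) ^ (-t)) x := by
    exact_mod_cast cntT_mono i hz x
  rw [← hθ] at hcnt
  calc ν * (θ + ε) * s0 lam X = ν * ((θ + ε) * s0 lam X) := by ring
    _ ≤ ν * cntT i (uu (2 + y) (6 * lam) (Real.log X) ^ (-t)) x :=
        mul_le_mul_of_nonneg_left (hcnt.trans h1) hν0.le
    _ = _ := by ring

/-- upper tail for all primes -/
theorem cher_all (i : Fin 3) (hi : i = 0 ∨ i = 1) (lam K ε : ℝ) (hl0 : 0 < lam)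
    (hl1 : lam < 1 / 6) (hK : 1 ≤ K) (hε : 0 < ε) (hε1 : ε ≤ 1) :
    ∃ δ X₀ : ℝ, 0 < δ ∧ 31 ≤ X₀ ∧ ∀ (X : ℝ) (F : Finset (ℤ × ℤ)), X₀ ≤ X →
      (∀ x ∈ F, Good lam K X x ∧ (1 + ε) * s0 lam X ≤ cntA i x) →
      (F.card : ℝ) ≤ Real.exp ((5 - 6 * lam) * Real.log X + (4 - δ) * s0 lam X) := by
  obtain ⟨ν, hν⟩ : ∃ ν : ℝ, ν = ε / 2 := ⟨_, rfl⟩
  have hν0 : 0 < ν := by rw [hν]; positivity
  have hν1 : ν ≤ 1 := by rw [hν]; linarith
  have he := exp_le_quad hν0.le hν1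
  have he1 : 1 ≤ Real.exp ν := Real.one_le_exp hν0.le
  obtain ⟨y, hy⟩ : ∃ y : ℝ, y = Real.exp ν - 1 := ⟨_, rfl⟩
  have hμ : (wi i (Real.exp ν) 0 + wi i (Real.exp ν) 1) * (1 - 1 / 1) +
      (wi i (Real.exp ν) 0 + wi i (Real.exp ν) 1) / 1 ≤ 2 + y := by
    rw [wi_sum hi, hy]
    apply le_of_eq
    ring
  have hcc : √(8 * (2 + y) * lam / lam) - ν * (1 + ε) < 4 := by
    rw [mul_div_cancel_right₀ _ hl0.ne']
    have h1 := sqrt_tan (y := y) (by linarith)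
    have h2 : ν ^ 2 < ν * ε := by
      rw [hν]
      nlinarith
    linarith [show ν * (1 + ε) = ν + ν * ε by ring]
  obtain ⟨δ, X₁, hδ, hX₁, hch⟩ := cher0 (wi i (Real.exp ν)) (wi i (Real.exp ν))
    (wi_nonneg i (Real.exp_pos _).le) (wi_nonneg i (Real.exp_pos _).le) 1 le_rfl (2 + y)
    (by linarith) hμ lam lam K 64 (ν * (1 + ε)) hl0 hl1 hl0 hK (by norm_num) hcc
  refine ⟨δ, X₁, hδ, hX₁, fun X F hX hF => ?_⟩
  have hX31 : (31 : ℝ) ≤ X := hX₁.trans hX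
  refine hch X F hX (fun x hx => ?_)
  obtain ⟨hg, hcnt⟩ := hF x hx
  refine ⟨hg, D_box hl0 hl1 (by linarith) hg.2.1 hg.2.2.1, ?_⟩
  rw [Th_all, ← Real.exp_nat_mul]
  apply Real.exp_le_exp.2
  calc ν * (1 + ε) * s0 lam X = ν * ((1 + ε) * s0 lam X) := by ring
    _ ≤ ν * cntA i x := mul_le_mul_of_nonneg_left hcnt hν0.le
    _ = _ := by ring

/-- the type 2 -/
theorem cher_two (lam K ε : ℝ) (hl0 : 0 < lam) (hl1 : lam < 1 / 6) (hK : 1 ≤ K) (hε : 0 < ε) :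
    ∃ δ X₀ : ℝ, 0 < δ ∧ 31 ≤ X₀ ∧ ∀ (X : ℝ) (F : Finset (ℤ × ℤ)), X₀ ≤ X →
      (∀ x ∈ F, Good lam K X x ∧ ε * s0 lam X ≤ cntA 2 x) →
      (F.card : ℝ) ≤ Real.exp ((5 - 6 * lam) * Real.log X + (4 - δ) * s0 lam X) := by
  have hμ : (wi 2 (Real.exp 1) 0 + wi 2 (Real.exp 1) 1) * (1 - 1 / 1) +
      (wi 2 (Real.exp 1) 0 + wi 2 (Real.exp 1) 1) / 1 ≤ 2 := by
    rw [wi_sum2]
    norm_num
  have hcc : √(8 * 2 * lam / lam) - ε < 4 := by
    rw [mul_div_cancel_right₀ _ hl0.ne']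
    have h1 : √(8 * 2 : ℝ) = 4 := by
      rw [show (8 * 2 : ℝ) = 4 ^ 2 by norm_num]
      exact Real.sqrt_sq (by norm_num)
    rw [h1]
    linarith
  obtain ⟨δ, X₁, hδ, hX₁, hch⟩ := cher0 (wi 2 (Real.exp 1)) (wi 2 (Real.exp 1))
    (wi_nonneg 2 (Real.exp_pos _).le) (wi_nonneg 2 (Real.exp_pos _).le) 1 le_rfl 2
    (by norm_num) hμ lam lam K 64 ε hl0 hl1 hl0 hK (by norm_num) hcc
  refine ⟨δ, X₁, hδ, hX₁, fun X F hX hF => ?_⟩
  have hX31 : (31 : ℝ) ≤ X := hX₁.trans hX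
  refine hch X F hX (fun x hx => ?_)
  obtain ⟨hg, hcnt⟩ := hF x hx
  refine ⟨hg, D_box hl0 hl1 (by linarith) hg.2.1 hg.2.2.1, ?_⟩
  rw [Th_all, ← Real.exp_nat_mul]
  apply Real.exp_le_exp.2
  rw [mul_one]
  exact hcnt

/-- lower tail -/
theorem cher_lo (i : Fin 3) (hi : i = 0 ∨ i = 1) (t lam K ε : ℝ) (ht : 1 < t) (hl0 : 0 < lam)
    (hl1 : lam < 1 / 6) (hK : 1 ≤ K) (hε : 0 < ε) (hε1 : ε ≤ 1) :
    ∃ δ X₀ : ℝ, 0 < δ ∧ 31 ≤ X₀ ∧ ∀ (X : ℝ) (F : Finset (ℤ × ℤ)), X₀ ≤ X →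
      (∀ x ∈ F, Good lam K X x ∧
        (cntT i (Real.log X ^ (t / 2)) x : ℝ) ≤ (1 - 1 / t - ε) * s0 lam X) →
      (F.card : ℝ) ≤ Real.exp ((5 - 6 * lam) * Real.log X + (4 - δ) * s0 lam X) := by
  obtain ⟨ν, hν⟩ : ∃ ν : ℝ, ν = ε / 4 := ⟨_, rfl⟩
  have hν0 : 0 < ν := by rw [hν]; positivity
  have hν1 : ν ≤ 1 := by rw [hν]; linarith
  have ht0 : 0 < t := by linarith
  -- the smaller `t'`
  obtain ⟨t', ht'⟩ : ∃ t' : ℝ, t' = max 1 (t / (1 + ε / 2)) := ⟨_, rfl⟩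
  have ht'1 : 1 ≤ t' := by rw [ht']; exact le_max_left _ _
  have ht'0 : 0 < t' := by linarith
  have ht't : t' < t := by
    rw [ht']
    refine max_lt ht ?_
    rw [div_lt_iff₀ (by positivity)]
    nlinarith
  have hinv : 1 / t' ≤ 1 / t + ε / 2 := by
    have h1 : t / (1 + ε / 2) ≤ t' := by rw [ht']; exact le_max_right _ _
    have h2 : 1 / t' ≤ 1 / (t / (1 + ε / 2)) := one_div_le_one_div_of_le (by positivity) h1
    refine h2.trans ?_
    rw [one_div_div]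
    have h3 : (1 + ε / 2) / t = 1 / t + ε / 2 / t := by ring
    have h4 : ε / 2 / t ≤ ε / 2 := div_le_self (by positivity) ht.le
    linarith
  obtain ⟨θ, hθ⟩ : ∃ θ : ℝ, θ = 1 - 1 / t' := ⟨_, rfl⟩
  have hθ1 : θ ≤ 1 := by
    rw [hθ]
    have : 0 < 1 / t' := by positivity
    linarith
  have hθ0 : 0 ≤ θ := by
    rw [hθ]
    have : 1 / t' ≤ 1 := by rw [div_le_one ht'0]; exact ht'1
    linarith
  have he := exp_neg_le_quad hν0.le hν1
  have he0 : 0 < Real.exp (-ν) := Real.exp_pos _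
  obtain ⟨y, hy⟩ : ∃ y : ℝ, y = (Real.exp (-ν) - 1) * θ := ⟨_, rfl⟩
  have hy1 : -1 ≤ y := by
    rw [hy]
    nlinarith
  have hyu : y ≤ -(ν * θ) + ν ^ 2 := by
    rw [hy]
    have h1 : (Real.exp (-ν) - 1) * θ ≤ (-ν + ν ^ 2) * θ :=
      mul_le_mul_of_nonneg_right (by linarith) hθ0
    have h2 : ν ^ 2 * θ ≤ ν ^ 2 * 1 := mul_le_mul_of_nonneg_left hθ1 (by positivity)
    linarith
  have hμ : (wi i (Real.exp (-ν)) 0 + wi i (Real.exp (-ν)) 1) * (1 - 1 / t') +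
      ((fun _ : Fin 3 => (1 : ℝ)) 0 + (fun _ : Fin 3 => (1 : ℝ)) 1) / t' ≤ 2 + y := by
    rw [wi_sum hi, hy]
    have e1 : 1 / t' = 1 - θ := by rw [hθ]; ring
    have e2 : (1 + 1 : ℝ) / t' = 2 * (1 - θ) := by rw [← e1]; ring
    simp only
    rw [e2, ← hθ]
    apply le_of_eq
    ring
  have hcc : √(8 * (2 + y) * lam / lam) - (-(ν * (1 - 1 / t - ε))) < 4 := by
    rw [mul_div_cancel_right₀ _ hl0.ne']
    have h1 := sqrt_tan (y := y) (by linarith)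
    have h2 : ν ^ 2 < ν * (ε / 2) := by
      rw [hν]
      nlinarith
    have h3 : ν * (1 - 1 / t) ≤ ν * (θ + ε / 2) := by
      apply mul_le_mul_of_nonneg_left _ hν0.le
      rw [hθ]
      linarith
    linarith [show ν * (1 - 1 / t - ε) = ν * (1 - 1 / t) - ν * ε by ring,
      show ν * (θ + ε / 2) = ν * θ + ν * (ε / 2) by ring,
      show ν * ε = ν * (ε / 2) + ν * (ε / 2) by ring]
  obtain ⟨δ, X₁, hδ, hX₁, hch⟩ := cher0 (wi i (Real.exp (-ν))) (fun _ => 1)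
    (wi_nonneg i (Real.exp_pos _).le) (fun _ => zero_le_one) t' ht'1 (2 + y) (by linarith) hμ
    lam lam K 64 (-(ν * (1 - 1 / t - ε))) hl0 hl1 hl0 hK (by norm_num) hcc
  obtain ⟨η, hη⟩ : ∃ η : ℝ, η = (t / t' - 1) / 2 := ⟨_, rfl⟩
  have hη0 : 0 < η := by
    rw [hη]
    have : 1 < t / t' := by rw [one_lt_div ht'0]; exact ht't
    linarith
  have hηt : t' * (1 / 2 + η) = t / 2 := by
    rw [hη]
    field_simp
    ring
  have hnum := Real.tendsto_log_atTop.eventually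
    (numx (κ := 6 * lam) (ε := η) (u₀ := 1) (μ := 2 + y) (by positivity) hη0 one_pos
      (by linarith))
  obtain ⟨X₂, hX₂⟩ := eventually_atTop.1 hnum
  refine ⟨δ, max X₁ X₂, hδ, hX₁.trans (le_max_left _ _), fun X F hX hF => ?_⟩
  have hX31 : (31 : ℝ) ≤ X := (hX₁.trans (le_max_left _ _)).trans hX
  have hX0 : 0 < X := by linarith
  obtain ⟨hu0, hu1, -, hlu, -⟩ := hX₂ X ((le_max_right _ _).trans hX)
  refine hch X F ((le_max_left _ _).trans hX) (fun x hx => ?_)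
  obtain ⟨hg, hcnt⟩ := hF x hx
  refine ⟨hg, D_box hl0 hl1 (by linarith) hg.2.1 hg.2.2.1, ?_⟩
  rw [Th_cut, ← Real.exp_nat_mul]
  apply Real.exp_le_exp.2
  have hz : uu (2 + y) (6 * lam) (Real.log X) ^ (-t') ≤ Real.log X ^ (t / 2) := by
    have hlogX : 1 ≤ Real.log X := by
      rw [Real.le_log_iff_exp_le hX0]
      have h1 := Real.exp_one_lt_d9
      linarith
    have hlX0 : 0 < Real.log X := by linarith
    rw [Real.rpow_def_of_pos hlX0, Real.rpow_def_of_pos hu0]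
    apply Real.exp_le_exp.2
    rw [one_div, Real.log_inv] at hlu
    have h1 := mul_le_mul_of_nonneg_left hlu ht'0.le
    calc Real.log (uu (2 + y) (6 * lam) (Real.log X)) * -t' =
        t' * -Real.log (uu (2 + y) (6 * lam) (Real.log X)) := by ring
      _ ≤ t' * ((1 / 2 + η) * Real.log (Real.log X)) := h1
      _ = Real.log (Real.log X) * (t' * (1 / 2 + η)) := by ring
      _ = _ := by rw [hηt]
  have h1 : (cntT i (uu (2 + y) (6 * lam) (Real.log X) ^ (-t')) x : ℝ) ≤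
      cntT i (Real.log X ^ (t / 2)) x := by
    exact_mod_cast cntT_mono i hz x
  have h2 := mul_le_mul_of_nonneg_left (h1.trans hcnt) hν0.le
  linarith [show (cntT i (uu (2 + y) (6 * lam) (Real.log X) ^ (-t')) x : ℝ) * -ν =
    -(ν * cntT i (uu (2 + y) (6 * lam) (Real.log X) ^ (-t')) x) by ring,
    show ν * ((1 - 1 / t - ε) * s0 lam X) = ν * (1 - 1 / t - ε) * s0 lam X by ring]

/-- the weight of the radical -/
theorem Th_rad (u : ℝ) (n : ℕ) (a b : ℤ) : Th (wr u) n a b = (rd n : ℝ) ^ (u / 2) := by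
  unfold Th wr rd
  push_cast
  exact Real.finsetProd_rpow _ _ (fun p _ => Nat.cast_nonneg p) _

/-- the curves with a large radical of `|D| / N₆` -/
theorem cher_rad (lam K ε : ℝ) (hl0 : 0 < lam) (hl1 : lam < 1 / 6) (hK : 1 ≤ K) (hε : 0 < ε) :
    ∃ δ X₀ : ℝ, 0 < δ ∧ 31 ≤ X₀ ∧ ∀ (X : ℝ) (F : Finset (ℤ × ℤ)), X₀ ≤ X →
      (∀ x ∈ F, Good lam K X x ∧ X ^ ε ≤ (rd (nq x.1 x.2) : ℝ)) →
      (F.card : ℝ) ≤ Real.exp ((5 - 6 * lam) * Real.log X + (4 - δ) * s0 lam X) := by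
  obtain ⟨c, hc⟩ : ∃ c : ℝ, c = ε / (6 * lam) := ⟨_, rfl⟩
  have hc0 : 0 < c := by rw [hc]; positivity
  obtain ⟨X₁, hX₁, hm⟩ := main_r lam lam K 64 (c / 8) hl0 hl1 hl0 hK (by norm_num) (by positivity)
  have hnum := Real.tendsto_log_atTop.eventually
    (numx (κ := 6 * lam) (ε := 1) (u₀ := 1) (μ := 2) (by positivity) one_pos one_pos two_pos)
  obtain ⟨X₂, hX₂⟩ := eventually_atTop.1 hnum
  refine ⟨c / 2, max X₁ X₂, by positivity, hX₁.trans (le_max_left _ _), fun X F hX hF => ?_⟩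
  have hX31 : (31 : ℝ) ≤ X := (hX₁.trans (le_max_left _ _)).trans hX
  have hX0 : 0 < X := by linarith
  obtain ⟨hu0, -, -, -, -⟩ := hX₂ X ((le_max_right _ _).trans hX)
  have h1 := hm X F ((le_max_left _ _).trans hX)
    (fun x hx => ⟨(hF x hx).1, D_box hl0 hl1 (by linarith) (hF x hx).1.2.1 (hF x hx).1.2.2.1⟩)
  have hlogX : 3 ≤ Real.log X := by
    rw [Real.le_log_iff_exp_le hX0]
    have h1 := Real.exp_one_lt_d9
    have h2 : Real.exp 3 = Real.exp 1 ^ 3 := by rw [← Real.exp_nat_mul]; norm_num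
    rw [h2]
    have h3 : Real.exp 1 ^ 3 ≤ 2.72 ^ 3 := pow_le_pow_left₀ (Real.exp_pos _).le (by linarith) 3
    norm_num at h3
    linarith
  have hllX : 0 < Real.log (Real.log X) := Real.log_pos (by linarith)
  obtain ⟨u, hu⟩ : ∃ u : ℝ, u = uu 2 (6 * lam) (Real.log X) := ⟨_, rfl⟩
  rw [← hu] at h1 hu0
  -- `u L = s₀ / (3 λ)`
  have huL : u / 2 * ε * Real.log X = c * s0 lam X := by
    have e1 : u * Real.log X = 2 / (6 * lam) * s0 lam X := by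
      have e2 : 0 ≤ u * Real.log X := by positivity
      have e3 : 0 ≤ 2 / (6 * lam) * s0 lam X := mul_nonneg (by positivity) (s0_nonneg _ _)
      rw [← sq_eq_sq₀ e2 e3, mul_pow, mul_pow, hu, uu, s0, Real.sq_sqrt (by positivity),
        Real.sq_sqrt (by positivity)]
      field_simp
    calc u / 2 * ε * Real.log X = ε / 2 * (u * Real.log X) := by ring
      _ = ε / 2 * (2 / (6 * lam) * s0 lam X) := by rw [e1]
      _ = _ := by rw [hc]; ring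
  have h2 : (F.card : ℝ) * Real.exp (c * s0 lam X) ≤
      ∑ x ∈ F, Th (wr u) (nq x.1 x.2) x.1 x.2 := by
    rw [← nsmul_eq_mul]
    refine Finset.card_nsmul_le_sum _ _ _ (fun x hx => ?_)
    rw [Th_rad, ← huL]
    calc Real.exp (u / 2 * ε * Real.log X) = (X ^ ε) ^ (u / 2) := by
          rw [← Real.rpow_mul hX0.le, Real.rpow_def_of_pos hX0]
          congr 1
          ring
      _ ≤ _ := Real.rpow_le_rpow (by positivity) (hF x hx).2 (by positivity)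
  have h3 : √(48 * 2 * lam * Real.log X / Real.log (Real.log X)) = 4 * s0 lam X := by
    rw [s0, show (4 : ℝ) = √16 by
      rw [show (16 : ℝ) = 4 ^ 2 by norm_num]; exact (Real.sqrt_sq (by norm_num)).symm,
      ← Real.sqrt_mul (by norm_num)]
    congr 1
    ring
  rw [h3] at h1
  have h4 := h2.trans h1
  have h5 : (F.card : ℝ) ≤ Real.exp ((5 - 6 * lam) * Real.log X + (1 + c / 8) * (4 * s0 lam X)) *
      Real.exp (-(c * s0 lam X)) := by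
    have h6 : (F.card : ℝ) = (F.card : ℝ) * Real.exp (c * s0 lam X) *
        Real.exp (-(c * s0 lam X)) := by
      rw [mul_assoc, ← Real.exp_add, add_neg_cancel, Real.exp_zero, mul_one]
    rw [h6]
    exact mul_le_mul_of_nonneg_right h4 (Real.exp_pos _).le
  refine h5.trans (le_of_eq ?_)
  rw [← Real.exp_add]
  congr 1
  ring

end Pool.Agent.Run7.h585.AN
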