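import Pool.Agent.N966.SZ_DENS
import Pool.Agent.N123.FH_REG2

/-!
# Local densities of the reduction types of elliptic curves with a given `|D| / N₆` (helper585)

Adapted from `Pool/Agent/N966/SZ_DENS.lean`, with the types of the reduction at the primes `p ∣ n`, `p ≥ 5`:
type 0: `p ∤ a` (multiplicative reduction), type 1: `p ∣ a`, `p³ ∤ a`, `p⁷ ∣ D` (for a minimal model this is `I*_m`, `m ≥ 1`), and type 2: the
others.
-/

set_option autoImplicit false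

namespace Pool.Agent.Run7.h585.AN

open Finset Pool.Agent.N906.SZ Pool.Agent.N966.SZ

/-- the type of the reduction -/
noncomputable def ty (p : ℕ) (a b : ℤ) : Fin 3 := by
  classical
  exact if ¬ (p : ℤ) ∣ a then 0 else if ¬ (p : ℤ) ^ 3 ∣ a ∧ (p : ℤ) ^ 7 ∣ Dd a b then 1 else 2

theorem ty_zero {p : ℕ} {a b : ℤ} : ty p a b = 0 ↔ ¬ (p : ℤ) ∣ a := by
  classical
  by_cases h1 : (p : ℤ) ∣ a
  · by_cases h2 : ¬ (p : ℤ) ^ 3 ∣ a ∧ (p : ℤ) ^ 7 ∣ Dd a b
    · have e : ty p a b = 1 := by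
        unfold ty
        rw [if_neg (not_not.2 h1), if_pos h2]
      rw [e]
      exact ⟨fun h => absurd h (by decide), fun h => absurd h1 h⟩
    · have e : ty p a b = 2 := by
        unfold ty
        rw [if_neg (not_not.2 h1), if_neg h2]
      rw [e]
      exact ⟨fun h => absurd h (by decide), fun h => absurd h1 h⟩
  · have e : ty p a b = 0 := by
      unfold ty
      rw [if_pos h1]
    rw [e]
    exact ⟨fun _ => h1, fun _ => rfl⟩

theorem ty_one {p : ℕ} {a b : ℤ} :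
    ty p a b = 1 ↔ (p : ℤ) ∣ a ∧ ¬ (p : ℤ) ^ 3 ∣ a ∧ (p : ℤ) ^ 7 ∣ Dd a b := by
  classical
  by_cases h1 : (p : ℤ) ∣ a
  · by_cases h2 : ¬ (p : ℤ) ^ 3 ∣ a ∧ (p : ℤ) ^ 7 ∣ Dd a b
    · have e : ty p a b = 1 := by
        unfold ty
        rw [if_neg (not_not.2 h1), if_pos h2]
      rw [e]
      exact ⟨fun _ => ⟨h1, h2⟩, fun _ => rfl⟩
    · have e : ty p a b = 2 := by
        unfold ty
        rw [if_neg (not_not.2 h1), if_neg h2]
      rw [e]
      exact ⟨fun h => absurd h (by decide), fun h => absurd h.2 h2⟩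
  · have e : ty p a b = 0 := by
      unfold ty
      rw [if_pos h1]
    rw [e]
    exact ⟨fun h => absurd h (by decide), fun h => absurd h.1 h1⟩

theorem ty_two {p : ℕ} {a b : ℤ} :
    ty p a b = 2 ↔ (p : ℤ) ∣ a ∧ ¬ (¬ (p : ℤ) ^ 3 ∣ a ∧ (p : ℤ) ^ 7 ∣ Dd a b) := by
  classical
  by_cases h1 : (p : ℤ) ∣ a
  · by_cases h2 : ¬ (p : ℤ) ^ 3 ∣ a ∧ (p : ℤ) ^ 7 ∣ Dd a b
    · have e : ty p a b = 1 := by
        unfold ty
        rw [if_neg (not_not.2 h1), if_pos h2]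
      rw [e]
      exact ⟨fun h => absurd h (by decide), fun h => absurd h2 h.2⟩
    · have e : ty p a b = 2 := by
        unfold ty
        rw [if_neg (not_not.2 h1), if_neg h2]
      rw [e]
      exact ⟨fun _ => ⟨h1, h2⟩, fun _ => rfl⟩
  · have e : ty p a b = 0 := by
      unfold ty
      rw [if_pos h1]
    rw [e]
    exact ⟨fun h => absurd h (by decide), fun h => absurd h.1 h1⟩

/-- the local number of a type: the type 2 is possible only for `g ≤ 8` -/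
def ctn (g : ℕ) (t : Fin 3) : ℕ := if t = 2 ∧ 9 ≤ g then 0 else 1

section big

variable {p : ℕ} (hp : p.Prime) (h5 : 5 ≤ p)

include hp h5

/-- type 1, after the scaling -/
lemma red1 {k : ℕ} : cl (p ^ k) (fun a b => (p : ℤ) ^ k ∣ Dd a b ∧ ¬ (p : ℤ) ∣ a) ≤ p ^ k := by
  have hq : p ^ k ≠ 0 := pow_ne_zero _ hp.ne_zero
  refine cl_cusp hq fun a b h => ⟨by push_cast; exact h.1, Or.inl (unit2 hp h5 k h.2)⟩

/-- type 2, after the scaling -/
lemma red2 {k : ℕ} (hk : 1 ≤ k) : cl (p ^ k) (fun a b => (p : ℤ) ^ k ∣ Dd a b ∧ (p : ℤ) ∣ a ∧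
    ¬ ((p : ℤ) ^ 2 ∣ a ∧ (p : ℤ) ^ 3 ∣ b)) ≤ (if 5 ≤ k then 0 else 1) * p ^ k := by
  have hq : p ^ k ≠ 0 := pow_ne_zero _ hp.ne_zero
  have hk' : k = 1 ∨ k = 2 ∨ k = 3 ∨ k = 4 ∨ 5 ≤ k := by omega
  rcases hk' with rfl | rfl | rfl | rfl | hk5
  · rw [if_neg (by omega), one_mul]
    refine (cl_box (i := 1) (j := 1) hp.ne_zero (by norm_num) (by norm_num) ?_).trans ?_
    · rintro a b ⟨h1, h2, -⟩
      rw [pow_one] at h1 ⊢
      exact ⟨h2, F1 hp h5 h2 h1⟩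
    · have := hp.pos
      norm_num
      omega
  · rw [if_neg (by omega), one_mul]
    refine (cl_box (i := 1) (j := 1) hp.ne_zero (by norm_num) (by norm_num) ?_).trans
      (le_of_eq (by ring))
    rintro a b ⟨h1, h2, -⟩
    rw [pow_one]
    exact ⟨h2, F1 hp h5 h2 ((dvd_pow_self _ (by norm_num)).trans h1)⟩
  · rw [if_neg (by omega), one_mul]
    refine (cl_box (i := 1) (j := 2) hp.ne_zero (by norm_num) (by norm_num) ?_).trans
      (le_of_eq (by ring))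
    rintro a b ⟨h1, h2, -⟩
    rw [pow_one]
    exact ⟨h2, F2 hp h5 h2 h1⟩
  · rw [if_neg (by omega), one_mul]
    refine (cl_box (i := 2) (j := 2) hp.ne_zero (by norm_num) (by norm_num) ?_).trans
      (le_of_eq (by ring))
    rintro a b ⟨h1, h2, -⟩
    exact ⟨F3 hp h5 h2 h1, F2 hp h5 h2 ((pow_dvd_pow _ (by norm_num)).trans h1)⟩
  · rw [if_pos hk5, zero_mul]
    have : NeZero (p ^ k) := ⟨hq⟩
    unfold cl
    have he : Cl (p ^ k) (fun a b => (p : ℤ) ^ k ∣ Dd a b ∧ (p : ℤ) ∣ a ∧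
        ¬ ((p : ℤ) ^ 2 ∣ a ∧ (p : ℤ) ^ 3 ∣ b)) = ∅ := by
      rw [Set.eq_empty_iff_forall_notMem]
      rintro x ⟨a, b, ⟨h1, h2, h3⟩, -⟩
      exact h3 (F4 hp h5 h2 ((pow_dvd_pow _ hk5).trans h1))
    rw [he, Set.ncard_empty]

/-- the scaling by `(p², p³)` -/
lemma scale5 {k : ℕ} (W W1 : ℤ → ℤ → Prop)
    (h : ∀ a b, W a b → ∃ a1 b1, a = (p : ℤ) ^ 2 * a1 ∧ b = (p : ℤ) ^ 3 * b1 ∧ W1 a1 b1) :
    cl (p ^ (k + 4 + 1)) W ≤ cl (p ^ k) W1 * (p ^ 3 * p ^ 2) :=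
  cl_scale (Q := p ^ (k + 4 + 1)) (q := p ^ k) (I := p ^ 3) (J := p ^ 2)
    (pow_ne_zero _ hp.ne_zero) (pow_ne_zero _ hp.ne_zero) (pow_ne_zero _ hp.ne_zero)
    ((p : ℤ) ^ 2) ((p : ℤ) ^ 3) (W := W) (W1 := W1)
    (by push_cast; exact dvd_of_eq (by ring)) (by push_cast; exact dvd_of_eq (by ring)) h

lemma loc_ty {g : ℕ} (hg : 1 ≤ g) (t : Fin 3) : cl (p ^ (g + 1)) (fun a b =>
    (¬ ((p : ℤ) ^ 4 ∣ a ∧ (p : ℤ) ^ 6 ∣ b) ∧ (p : ℤ) ^ (g + fe p a) ∣ Dd a b) ∧ ty p a b = t) ≤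
      ctn g t * p ^ (g + 1) := by
  have hq : p ^ (g + 1) ≠ 0 := pow_ne_zero _ hp.ne_zero
  have hpp := Nat.prime_iff_prime_int.1 hp
  have ht : t = 0 ∨ t = 1 ∨ t = 2 := by
    fin_cases t <;> simp
  rcases ht with rfl | rfl | rfl
  · -- multiplicative
    unfold ctn
    rw [if_neg (fun h => absurd h.1 (by decide)), one_mul]
    refine (cl_mono hq (W' := fun a b => (p : ℤ) ^ (g + 1) ∣ Dd a b ∧ ¬ (p : ℤ) ∣ a) ?_).trans
      (red1 hp h5)
    rintro a b ⟨⟨-, h2⟩, h3⟩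
    rw [ty_zero] at h3
    rw [fe, if_neg (by omega), if_neg h3] at h2
    exact ⟨h2, h3⟩
  · -- type 1
    unfold ctn
    rw [if_neg (fun h => absurd h.1 (by decide)), one_mul]
    have hW : ∀ a b : ℤ, ((¬ ((p : ℤ) ^ 4 ∣ a ∧ (p : ℤ) ^ 6 ∣ b) ∧ (p : ℤ) ^ (g + fe p a) ∣ Dd a b) ∧
        ty p a b = 1) → (p : ℤ) ∣ a ∧ ¬ (p : ℤ) ^ 3 ∣ a ∧ (p : ℤ) ^ 7 ∣ Dd a b ∧
        (p : ℤ) ^ (g + 2) ∣ Dd a b := by
      rintro a b ⟨⟨-, h2⟩, h3⟩
      rw [ty_one] at h3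
      obtain ⟨h4, h6, h7⟩ := h3
      rw [fe, if_neg (by omega), if_pos h4] at h2
      exact ⟨h4, h6, h7, h2⟩
    have hF : ∀ a b : ℤ, ((p : ℤ) ∣ a ∧ ¬ (p : ℤ) ^ 3 ∣ a ∧ (p : ℤ) ^ 7 ∣ Dd a b ∧
        (p : ℤ) ^ (g + 2) ∣ Dd a b) → (p : ℤ) ^ 2 ∣ a ∧ (p : ℤ) ^ 3 ∣ b := by
      rintro a b ⟨h1, -, h3, -⟩
      exact F4 hp h5 h1 ((pow_dvd_pow _ (by norm_num)).trans h3)
    refine (cl_mono hq hW).trans ?_
    have hg' : g = 1 ∨ g = 2 ∨ g = 3 ∨ g = 4 ∨ 5 ≤ g := by omega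
    have hpos := hp.pos
    rcases hg' with rfl | rfl | rfl | rfl | hg5
    · refine (cl_box (i := 2) (j := 2) hp.ne_zero (by norm_num) (by norm_num) ?_).trans ?_
      · intro a b h
        obtain ⟨h1, h2⟩ := hF a b h
        exact ⟨h1, (pow_dvd_pow _ (by norm_num)).trans h2⟩
      · norm_num
        exact Nat.one_le_pow _ _ hpos
    · refine (cl_box (i := 2) (j := 3) hp.ne_zero (by norm_num) (by norm_num) ?_).trans ?_
      · exact fun a b h => hF a b h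
      · norm_num
        exact Nat.le_self_pow (by norm_num) p
    · refine (cl_box (i := 2) (j := 3) hp.ne_zero (by norm_num) (by norm_num) ?_).trans ?_
      · exact fun a b h => hF a b h
      · have h3 : p ^ (3 + 1 - 2) * p ^ (3 + 1 - 3) = p ^ 3 := by norm_num; ring
        rw [h3]
        exact Nat.pow_le_pow_right hp.pos (by norm_num)
    · refine (cl_box (i := 2) (j := 3) hp.ne_zero (by norm_num) (by norm_num) ?_).trans ?_
      · exact fun a b h => hF a b h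
      · exact le_of_eq (by norm_num; ring)
    · obtain ⟨k, rfl⟩ : ∃ k, g = k + 4 := ⟨g - 4, by omega⟩
      refine (scale5 hp h5 _ (fun a b => (p : ℤ) ^ k ∣ Dd a b ∧ ¬ (p : ℤ) ∣ a) ?_).trans ?_
      · rintro a b h
        obtain ⟨⟨a1, rfl⟩, ⟨b1, rfl⟩⟩ := hF a b h
        obtain ⟨-, h2, -, h4⟩ := h
        refine ⟨a1, b1, rfl, rfl, ?_, ?_⟩
        · have h6 : Dd (p ^ 2 * a1) (p ^ 3 * b1) = (p : ℤ) ^ 6 * Dd a1 b1 := by
            unfold Dd; ring
          rw [h6] at h4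
          have h7 : (p : ℤ) ^ 6 * p ^ k ∣ (p : ℤ) ^ 6 * Dd a1 b1 := by
            rw [← pow_add, show 6 + k = k + 4 + 2 by omega]
            exact h4
          exact (mul_dvd_mul_iff_left (pow_ne_zero 6 hpp.ne_zero)).1 h7
        · rintro ⟨a2, rfl⟩
          exact h2 ⟨a2, by ring⟩
      · calc _ ≤ p ^ k * (p ^ 3 * p ^ 2) := Nat.mul_le_mul_right _ (red1 hp h5)
          _ = _ := by ring
  · -- type 2
    have hW : ∀ a b : ℤ, ((¬ ((p : ℤ) ^ 4 ∣ a ∧ (p : ℤ) ^ 6 ∣ b) ∧ (p : ℤ) ^ (g + fe p a) ∣ Dd a b) ∧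
        ty p a b = 2) → (p : ℤ) ∣ a ∧ ¬ (¬ (p : ℤ) ^ 3 ∣ a ∧ (p : ℤ) ^ 7 ∣ Dd a b) ∧
        (p : ℤ) ^ (g + 2) ∣ Dd a b ∧ ¬ ((p : ℤ) ^ 4 ∣ a ∧ (p : ℤ) ^ 6 ∣ b) := by
      rintro a b ⟨⟨h0, h2⟩, h3⟩
      rw [ty_two] at h3
      obtain ⟨h4, h6⟩ := h3
      rw [fe, if_neg (by omega), if_pos h4] at h2
      exact ⟨h4, h6, h2, h0⟩
    refine (cl_mono hq hW).trans ?_
    have hg' : g = 1 ∨ g = 2 ∨ g = 3 ∨ g = 4 ∨ 5 ≤ g := by omega
    have hpos := hp.pos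
    unfold ctn
    rcases hg' with rfl | rfl | rfl | rfl | hg5
    · rw [if_neg (by omega), one_mul]
      refine (cl_box (i := 1) (j := 2) hp.ne_zero (by norm_num) (by norm_num) ?_).trans ?_
      · rintro a b ⟨h1, -, h2, -⟩
        rw [pow_one]
        exact ⟨h1, F2 hp h5 h1 h2⟩
      · have := hp.pos
        norm_num
        nlinarith
    · rw [if_neg (by omega), one_mul]
      refine (cl_box (i := 2) (j := 2) hp.ne_zero (by norm_num) (by norm_num) ?_).trans ?_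
      · rintro a b ⟨h1, -, h2, -⟩
        exact ⟨F3 hp h5 h1 h2, F2 hp h5 h1 ((pow_dvd_pow _ (by norm_num)).trans h2)⟩
      · have := hp.pos
        norm_num
        nlinarith [sq_nonneg p, pow_pos this 2]
    · rw [if_neg (by omega), one_mul]
      refine (cl_box (i := 2) (j := 3) hp.ne_zero (by norm_num) (by norm_num) ?_).trans ?_
      · rintro a b ⟨h1, -, h2, -⟩
        exact F4 hp h5 h1 h2
      · have h3 : p ^ (3 + 1 - 2) * p ^ (3 + 1 - 3) = p ^ 3 := by norm_num; ring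
        rw [h3]
        exact Nat.pow_le_pow_right hp.pos (by norm_num)
    · rw [if_neg (by omega), one_mul]
      refine (cl_box (i := 2) (j := 3) hp.ne_zero (by norm_num) (by norm_num) ?_).trans ?_
      · rintro a b ⟨h1, -, h2, -⟩
        exact F4 hp h5 h1 ((pow_dvd_pow _ (by norm_num)).trans h2)
      · exact le_of_eq (by norm_num; ring)
    · obtain ⟨k, rfl⟩ : ∃ k, g = k + 4 := ⟨g - 4, by omega⟩
      have hk : 1 ≤ k := by omega
      refine (scale5 hp h5 _ (fun a b => (p : ℤ) ^ k ∣ Dd a b ∧ (p : ℤ) ∣ a ∧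
        ¬ ((p : ℤ) ^ 2 ∣ a ∧ (p : ℤ) ^ 3 ∣ b)) ?_).trans ?_
      · rintro a b ⟨h1, h2, h3, h4⟩
        have h7 : (p : ℤ) ^ 7 ∣ Dd a b := (pow_dvd_pow _ (by omega)).trans h3
        have h8 : (p : ℤ) ^ 3 ∣ a := by
          by_contra h9
          exact h2 ⟨h9, h7⟩
        obtain ⟨⟨a1, rfl⟩, ⟨b1, rfl⟩⟩ := F4 hp h5 h1 ((pow_dvd_pow _ (by norm_num)).trans h7)
        refine ⟨a1, b1, rfl, rfl, ?_, ?_, ?_⟩
        · have h6 : Dd (p ^ 2 * a1) (p ^ 3 * b1) = (p : ℤ) ^ 6 * Dd a1 b1 := by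
            unfold Dd; ring
          rw [h6] at h3
          have h7 : (p : ℤ) ^ 6 * p ^ k ∣ (p : ℤ) ^ 6 * Dd a1 b1 := by
            rw [← pow_add, show 6 + k = k + 4 + 2 by omega]
            exact h3
          exact (mul_dvd_mul_iff_left (pow_ne_zero 6 hpp.ne_zero)).1 h7
        · have h9 : (p : ℤ) ^ 2 * p ∣ (p : ℤ) ^ 2 * a1 := by rwa [← pow_succ]
          exact (mul_dvd_mul_iff_left (pow_ne_zero 2 hpp.ne_zero)).1 h9
        · rintro ⟨⟨a2, rfl⟩, ⟨b2, rfl⟩⟩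
          exact h4 ⟨⟨a2, by ring⟩, ⟨b2, by ring⟩⟩
      · have h3 : (if ((2 : Fin 3) = 2 ∧ 9 ≤ k + 4) then 0 else 1) = if 5 ≤ k then 0 else 1 := by
          congr 1
          apply propext
          constructor
          · rintro ⟨-, h⟩; omega
          · intro h; exact ⟨rfl, by omega⟩
        rw [h3]
        calc _ ≤ (if 5 ≤ k then 0 else 1) * p ^ k * (p ^ 3 * p ^ 2) :=
              Nat.mul_le_mul_right _ (red2 hp h5 hk)
          _ = _ := by ring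

end big

/-! ### The theorem -/

/-- the local condition with the type `τ p` -/
def Wt (n : ℕ) (τ : ℕ → Fin 3) (p : ℕ) (a b : ℤ) : Prop :=
  (¬ ((p : ℤ) ^ 4 ∣ a ∧ (p : ℤ) ^ 6 ∣ b) ∧ (p : ℤ) ^ (n.factorization p + fe p a) ∣ Dd a b) ∧
    (5 ≤ p → ty p a b = τ p)

/-- the local number -/
def ctp (n : ℕ) (τ : ℕ → Fin 3) (p : ℕ) : ℕ :=
  if 5 ≤ p then ctn (n.factorization p) (τ p) else 1

lemma loc_all {n p : ℕ} (τ : ℕ → Fin 3) (hp : p ∈ n.primeFactors) :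
    cl (qq n p) (Wt n τ p) ≤ (if p < 5 then 3 ^ 14 else 1) * (ctp n τ p * qq n p) := by
  have hpp := Nat.prime_of_mem_primeFactors hp
  have hg : 1 ≤ n.factorization p := by
    have h1 := (Nat.prime_of_mem_primeFactors hp).factorization_pos_of_dvd
      (Nat.mem_primeFactors.1 hp).2.2 (Nat.dvd_of_mem_primeFactors hp)
    exact h1
  by_cases h5 : 5 ≤ p
  · have h1 := loc_ty hpp h5 hg (τ p)
    rw [if_neg (by omega), one_mul]
    unfold qq ctp
    rw [if_pos h5, if_pos h5]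
    refine (cl_mono (pow_ne_zero _ hpp.ne_zero) ?_).trans h1
    rintro a b ⟨h2, h3⟩
    exact ⟨h2, h3 h5⟩
  · have h23 : p = 2 ∨ p = 3 := by
      have h2 := hpp.two_le
      have h3 : p ≠ 4 := by
        rintro rfl
        revert hpp
        decide
      omega
    have h1 := loc_small (g := n.factorization p) h23
    rw [if_pos (by omega)]
    unfold qq ctp
    rw [if_neg h5, if_neg h5, add_zero, one_mul]
    refine (cl_mono (pow_ne_zero _ hpp.ne_zero) ?_).trans h1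
    rintro a b ⟨h2, -⟩
    exact h2

/-- the densities with types -/
theorem dens_ty : ∃ C : ℝ, 0 < C ∧ ∀ (n : ℕ) (τ : ℕ → Fin 3), 1 ≤ n → ∃ Q : ℤ → ℤ → Prop,
    (∀ a b, Q (a + (n * rd n : ℕ)) b ↔ Q a b) ∧ (∀ a b, Q a (b + (n * rd n : ℕ)) ↔ Q a b) ∧
    (∀ a b, Mn a b → Cn n a b → (∀ p ∈ n.primeFactors, 5 ≤ p → ty p a b = τ p) → Q a b) ∧
    ∀ F : Finset (ℤ × ℤ), (∀ x ∈ F, 0 ≤ x.1 ∧ x.1 < (n * rd n : ℕ) ∧ 0 ≤ x.2 ∧
      x.2 < (n * rd n : ℕ) ∧ Q x.1 x.2) →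
      (F.card : ℝ) ≤ C * ((∏ p ∈ n.primeFactors, ctp n τ p : ℕ) : ℝ) * (n * rd n : ℕ) := by
  classical
  refine ⟨(3 ^ 14 * 3 ^ 14 : ℕ), by positivity, ?_⟩
  intro n τ hn
  have hn0 : n ≠ 0 := by omega
  have hM := prod_qq hn0
  have hdvd : ∀ p ∈ n.primeFactors, qq n p ∣ n * rd n := fun p hp => by
    rw [← hM]
    exact dvd_prod_of_mem _ hp
  refine ⟨fun a b => ∀ p ∈ n.primeFactors, ∃ a' b' : ℤ, Wt n τ p a' b' ∧
    (a' : ZMod (qq n p)) = (a : ZMod (qq n p)) ∧ (b' : ZMod (qq n p)) = (b : ZMod (qq n p)),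
    ?_, ?_, ?_, ?_⟩
  · intro a b
    refine forall₂_congr fun p hp => ?_
    have h1 : (((n * rd n : ℕ) : ℤ) : ZMod (qq n p)) = 0 := by
      rw [Int.cast_natCast]
      exact (ZMod.natCast_eq_zero_iff _ _).2 (hdvd p hp)
    simp only [Int.cast_add, h1, add_zero]
  · intro a b
    refine forall₂_congr fun p hp => ?_
    have h1 : (((n * rd n : ℕ) : ℤ) : ZMod (qq n p)) = 0 := by
      rw [Int.cast_natCast]
      exact (ZMod.natCast_eq_zero_iff _ _).2 (hdvd p hp)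
    simp only [Int.cast_add, h1, add_zero]
  · intro a b hmn hcn hty p hp
    exact ⟨a, b, ⟨⟨hmn.2 p (Nat.prime_of_mem_primeFactors hp), hcn p hp⟩, hty p hp⟩, rfl, rfl⟩
  · intro F hF
    -- the map to the product of the local sets
    have hne : ∀ p : n.primeFactors, NeZero (qq n p) := fun p =>
      ⟨pow_ne_zero _ (Nat.prime_of_mem_primeFactors p.2).ne_zero⟩
    let S : ∀ p : n.primeFactors, Finset (ZMod (qq n p) × ZMod (qq n p)) :=
      fun p => (Set.toFinite (Cl (qq n p) (Wt n τ p))).toFinset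
    have hcard : F.card ≤ ∏ p : n.primeFactors, (S p).card := by
      rw [← Fintype.card_piFinset]
      refine card_le_card_of_injOn
        (fun x p => ((x.1 : ZMod (qq n p)), (x.2 : ZMod (qq n p)))) ?_ ?_
      · intro x hx
        rw [mem_coe, Fintype.mem_piFinset]
        intro p
        rw [Set.Finite.mem_toFinset]
        obtain ⟨a, b, hW, ha, hb⟩ := (hF x hx).2.2.2.2 p p.2
        exact ⟨a, b, hW, ha, hb⟩
      · intro x hx y hy hxy
        have key : ∀ c d : ℤ, 0 ≤ c → c < (n * rd n : ℕ) → 0 ≤ d → d < (n * rd n : ℕ) →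
            (∀ p ∈ n.primeFactors, (c : ZMod (qq n p)) = (d : ZMod (qq n p))) → c = d := by
          intro c d hc1 hc2 hd1 hd2 h
          have h1 : ((n * rd n : ℕ) : ℤ) ∣ c - d := by
            rw [← hM, Nat.cast_prod]
            refine Finset.prod_dvd_of_coprime ?_ ?_
            · intro p hp q hq hpq
              have hc : Nat.Coprime (qq n p) (qq n q) := by
                unfold qq
                refine Nat.Coprime.pow _ _ ?_
                exact (Nat.coprime_primes (Nat.prime_of_mem_primeFactors hp)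
                  (Nat.prime_of_mem_primeFactors hq)).2 hpq
              exact Nat.isCoprime_iff_coprime.2 hc
            · intro p hp
              exact (ZMod.intCast_eq_intCast_iff_dvd_sub _ _ _).1 (h p hp).symm
          have h2 : |c - d| < (n * rd n : ℕ) := by
            rw [abs_lt]
            constructor <;> linarith
          have h3 := Int.eq_zero_of_abs_lt_dvd h1 h2
          linarith
        obtain ⟨h1, h2, h3, h4, -⟩ := hF x hx
        obtain ⟨h5, h6, h7, h8, -⟩ := hF y hy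
        refine Prod.ext (key _ _ h1 h2 h5 h6 fun p hp => ?_) (key _ _ h3 h4 h7 h8 fun p hp => ?_)
        · exact congrArg Prod.fst (congrFun hxy ⟨p, hp⟩)
        · exact congrArg Prod.snd (congrFun hxy ⟨p, hp⟩)
    have h1 : ∀ p : n.primeFactors, (S p).card = cl (qq n p) (Wt n τ p) := fun p => by
      unfold cl
      rw [Set.ncard_eq_toFinset_card _ (Set.toFinite _)]
    simp only [h1] at hcard
    rw [Finset.prod_coe_sort n.primeFactors (fun p => cl (qq n p) (Wt n τ p))] at hcard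
    have h2 : ∏ p ∈ n.primeFactors, cl (qq n p) (Wt n τ p) ≤
        (∏ p ∈ n.primeFactors, if p < 5 then 3 ^ 14 else 1) *
          ((∏ p ∈ n.primeFactors, ctp n τ p) * (n * rd n)) := by
      rw [← hM, ← prod_mul_distrib, ← prod_mul_distrib]
      exact prod_le_prod' fun p hp => loc_all τ hp
    have h3 : (∏ p ∈ n.primeFactors, if p < 5 then 3 ^ 14 else 1) ≤ 3 ^ 14 * 3 ^ 14 := by
      rw [← prod_filter, prod_const]
      have h4 : (n.primeFactors.filter fun p => p < 5) ⊆ {2, 3} := by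
        intro p hp
        rw [mem_filter] at hp
        have h5 := (Nat.prime_of_mem_primeFactors hp.1).two_le
        have h6 : p ≠ 4 := by
          rintro rfl
          have := Nat.prime_of_mem_primeFactors hp.1
          revert this
          decide
        have h7 := hp.2
        have : p = 2 ∨ p = 3 := by omega
        simp only [mem_insert, mem_singleton]
        exact this
      have h5 := card_le_card h4
      have h6 : ({2, 3} : Finset ℕ).card = 2 := rfl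
      calc (3 ^ 14) ^ (n.primeFactors.filter fun p => p < 5).card ≤ (3 ^ 14) ^ 2 :=
            Nat.pow_le_pow_right (by norm_num) (by omega)
        _ = 3 ^ 14 * 3 ^ 14 := by norm_num
    have h4 : F.card ≤ 3 ^ 14 * 3 ^ 14 * ((∏ p ∈ n.primeFactors, ctp n τ p) * (n * rd n)) :=
      hcard.trans (h2.trans (Nat.mul_le_mul_right _ h3))
    calc (F.card : ℝ) ≤
          ((3 ^ 14 * 3 ^ 14 * ((∏ p ∈ n.primeFactors, ctp n τ p) * (n * rd n)) : ℕ) : ℝ) := by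
          exact_mod_cast h4
      _ = ((3 ^ 14 * 3 ^ 14 : ℕ) : ℝ) * ((∏ p ∈ n.primeFactors, ctp n τ p : ℕ) : ℝ) *
            (n * rd n : ℕ) := by
          push_cast
          ring

/-- counting with types -/
theorem cnt_ty : ∃ C : ℝ, 0 < C ∧ ∀ (X Y : ℝ) (n : ℕ) (τ : ℕ → Fin 3),
    1 ≤ X → 1 ≤ Y → 1 ≤ n → ((n * rd n : ℕ) : ℝ) ≤ X ^ 2 →
    ∀ F : Finset (ℤ × ℤ), (∀ x ∈ F, Mn x.1 x.2 ∧ Pool.Agent.N906.FH.Rg X Y x.1 x.2 ∧ Cn n x.1 x.2 ∧
      ∀ p ∈ n.primeFactors, 5 ≤ p → ty p x.1 x.2 = τ p) →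
    (F.card : ℝ) ≤ C * ((∏ p ∈ n.primeFactors, ctp n τ p : ℕ) : ℝ) *
      (Y / (X * (n * rd n : ℕ)) + X ^ 2) := by
  obtain ⟨C₁, hC₁, hd⟩ := dens_ty
  obtain ⟨C₂, hC₂, hr⟩ := Pool.Agent.N123.FH.reg2
  refine ⟨C₂ * C₁, by positivity, fun X Y n τ hX hY hn hM F hF => ?_⟩
  obtain ⟨Q, hQ1, hQ2, hQ3, hQ4⟩ := hd n τ hn
  have hrd : 0 < rd n := by
    unfold rd
    refine Finset.prod_pos fun p hp => ?_
    exact (Nat.prime_of_mem_primeFactors (Finset.mem_filter.1 hp).1).pos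
  have hM1 : 1 ≤ n * rd n := Nat.mul_pos (by omega) hrd
  have hMR : (0 : ℝ) < ((n * rd n : ℕ) : ℝ) := by exact_mod_cast hM1
  have h := hr X Y (n * rd n) (C₁ * ((∏ p ∈ n.primeFactors, ctp n τ p : ℕ) : ℝ) * (n * rd n : ℕ)) Q
    hX hY hM1 hM hQ1 hQ2 hQ4 F
    (fun x hx => ⟨(hF x hx).2.1, hQ3 _ _ (hF x hx).1 (hF x hx).2.2.1 (hF x hx).2.2.2⟩)
  refine h.trans (le_of_eq ?_)
  field_simp

end Pool.Agent.Run7.h585.AN
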