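import Pool.Agent.N72.SZ_EUPQ

/-!
# Euler products with a cut-off (helper585)

Adapted from `Pool/Agent/N163/RS_EUP.lean` (`large`, `eup_core`): the weights are `μ₁` for the primes `≤ u ^ (-t)` and `μ₂` for the
others, and the sum of the logarithms is at most `(μ₁ (1 - 1/t) + μ₂ / t + ε) / (u log (1/u))`.
-/

set_option autoImplicit false

namespace Pool.Agent.Run7.h585.AN

open Finset Filter Topology
open Pool.Agent.N163.RS (G G_anti G_val G_nonneg pow_sub_pos sum_sq)

section count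

variable {α : Type} (N : α → ℝ)

theorem large2 (η T0 : ℝ) (hη : 0 < η) (hT0 : 3 ≤ T0)
    (hsh : ∀ T : ℝ, T0 ≤ T → ∀ s : Finset α, (∀ v ∈ s, T < N v ∧ N v ≤ (1 + η) * T) →
        (s.card : ℝ) ≤ (1 + η) * η * (T / Real.log T))
    (T W θ u : ℝ) (hT : T0 ≤ T) (hTW : T ≤ W) (hu : 0 < u) (hθ : θ ≤ 1 / 2) (hθu : θ * u ≤ 1)
    (s : Finset α) (hs : ∀ v ∈ s, T < N v ∧ N v ≤ W) :
    ∑ v ∈ s, G θ u (N v) ≤ (1 + η) ^ 2 * (1 / (u * Real.log T) *
      (1 + u * Real.log (1 + η) / (u * Real.log T)) - 1 / (u * Real.log W)) := by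
  classical
  have hT3 : 3 ≤ T := hT0.trans hT
  have hTpos : 0 < T := by linarith
  have hr1 : 1 < 1 + η := by linarith
  have hlr : 0 < Real.log (1 + η) := Real.log_pos hr1
  have hlT : 0 < Real.log T := Real.log_pos (by linarith)
  set r := 1 + η with hr
  set kf : α → ℕ := fun v => ⌈Real.logb r (N v / T)⌉₊ - 1 with hkf
  have hk1 : ∀ v ∈ s, T * r ^ kf v < N v ∧ N v ≤ r * (T * r ^ kf v) := by
    intro v hv
    have h1 : 1 < N v / T := (one_lt_div hTpos).2 (hs v hv).1
    have h2 : 0 < Real.logb r (N v / T) := Real.logb_pos hr1 h1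
    have h3 : 0 < ⌈Real.logb r (N v / T)⌉₊ := Nat.ceil_pos.2 h2
    obtain ⟨m, hm⟩ : ∃ m, ⌈Real.logb r (N v / T)⌉₊ = m + 1 := ⟨_, (Nat.succ_pred_eq_of_pos h3).symm⟩
    have hkm : kf v = m := by
      rw [hkf]
      dsimp only
      rw [hm]
      rfl
    have h4 : Real.logb r (N v / T) ≤ (m + 1 : ℕ) := by
      rw [← hm]
      exact Nat.le_ceil _
    have h5 : (m : ℝ) < Real.logb r (N v / T) := by
      rw [← Nat.lt_ceil, hm]
      omega
    have hNT : 0 < N v / T := by linarith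
    rw [hkm]
    constructor
    · rw [Real.lt_logb_iff_rpow_lt hr1 hNT, Real.rpow_natCast, lt_div_iff₀ hTpos] at h5
      linarith
    · rw [Real.logb_le_iff_le_rpow hr1 hNT, Real.rpow_natCast, div_le_iff₀ hTpos] at h4
      calc N v ≤ r ^ (m + 1) * T := h4
        _ = r * (T * r ^ m) := by ring
  set K := s.sup kf with hK
  have hmaps : ∀ v ∈ s, kf v ∈ range (K + 1) := by
    intro v hv
    rw [mem_range, Nat.lt_succ_iff]
    exact Finset.le_sup (f := kf) hv
  rw [← Finset.sum_fiberwise_of_maps_to hmaps]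
  have hcell : ∀ k ∈ range (K + 1), ∑ v ∈ s with kf v = k, G θ u (N v) ≤
      r * η * (u / (u * Real.log T + k * (u * Real.log r)) ^ 2) := by
    intro k _
    have hTk : T ≤ T * r ^ k := by
      have := one_le_pow₀ (n := k) hr1.le
      nlinarith
    have hTk1 : 1 < T * r ^ k := by linarith
    have h1 := hsh (T * r ^ k) (by linarith) (s.filter (fun v => kf v = k)) (by
      intro v hv
      rw [mem_filter] at hv
      have := hk1 v hv.1
      rw [hv.2] at this
      exact this)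
    have h2 : ∑ v ∈ s with kf v = k, G θ u (N v) ≤
        ((s.filter (fun v => kf v = k)).card : ℝ) * G θ u (T * r ^ k) := by
      rw [← nsmul_eq_mul]
      refine Finset.sum_le_card_nsmul _ _ _ ?_
      intro v hv
      rw [mem_filter] at hv
      have h3 := hk1 v hv.1
      rw [hv.2] at h3
      exact G_anti hu hθu hTk1 h3.1.le
    have h4 := G_val (θ := θ) hu hθ hTk1
    have hlog : Real.log (T * r ^ k) = Real.log T + k * Real.log r := by
      rw [Real.log_mul hTpos.ne' (by positivity), Real.log_pow]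
    calc ∑ v ∈ s with kf v = k, G θ u (N v)
        ≤ ((s.filter (fun v => kf v = k)).card : ℝ) * G θ u (T * r ^ k) := h2
      _ ≤ (r * η * (T * r ^ k / Real.log (T * r ^ k))) * G θ u (T * r ^ k) :=
          mul_le_mul_of_nonneg_right h1 (G_nonneg hu hTk1)
      _ = r * η * (T * r ^ k / Real.log (T * r ^ k) * G θ u (T * r ^ k)) := by ring
      _ ≤ r * η * (u / (u * Real.log (T * r ^ k)) ^ 2) :=
          mul_le_mul_of_nonneg_left h4 (by positivity)
      _ = _ := by
          rw [hlog]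
          congr 3
          ring
  refine (Finset.sum_le_sum hcell).trans ?_
  rw [← Finset.mul_sum]
  set y := u * Real.log T with hy
  set h := u * Real.log r with hh
  have hy0 : 0 < y := by positivity
  have hh0 : 0 < h := by positivity
  have hKW : y + K * h ≤ u * Real.log W := by
    rcases s.eq_empty_or_nonempty with h0 | h0
    · have hK0 : K = 0 := by rw [hK, h0]; simp
      rw [hK0]
      push_cast
      rw [zero_mul, add_zero, hy]
      exact mul_le_mul_of_nonneg_left (Real.log_le_log hTpos hTW) hu.le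
    · obtain ⟨v, hv, hvK⟩ := Finset.exists_mem_eq_sup s h0 kf
      have h1 := hk1 v hv
      have h2 : kf v = K := by rw [hK, hvK]
      rw [h2] at h1
      have h3 : T * r ^ K ≤ W := h1.1.le.trans (hs v hv).2
      have h4 := Real.log_le_log (by positivity) h3
      rw [Real.log_mul hTpos.ne' (by positivity), Real.log_pow] at h4
      have h5 := mul_le_mul_of_nonneg_left h4 hu.le
      calc y + K * h = u * (Real.log T + K * Real.log r) := by rw [hy, hh]; ring
        _ ≤ _ := h5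
  have h5 := sum_sq y h hy0 hh0 K
  have h6 : ∑ k ∈ range (K + 1), u / (y + k * h) ^ 2 =
      1 / Real.log r * ∑ k ∈ range (K + 1), h / (y + k * h) ^ 2 := by
    rw [Finset.mul_sum]
    refine Finset.sum_congr rfl fun k _ => ?_
    rw [hh]
    field_simp
  rw [h6]
  have h7 : ∑ k ∈ range (K + 1), h / (y + k * h) ^ 2 ≤ 1 / y * (1 + h / y) - 1 / (u * Real.log W) := by
    refine h5.trans ?_
    have : 1 / (u * Real.log W) ≤ 1 / (y + K * h) :=
      one_div_le_one_div_of_le (by positivity) hKW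
    have e : 1 / y * (1 + h / y) = h / y ^ 2 + 1 / y := by
      field_simp
      ring
    rw [e]
    linarith
  have h8 : η / Real.log r ≤ r := by
    have h9 := Real.one_sub_inv_le_log_of_pos (show 0 < r by linarith)
    rw [div_le_iff₀ hlr]
    have h10 : 1 - r⁻¹ = η / r := by
      rw [hr]
      field_simp
      ring
    rw [h10, div_le_iff₀ (by linarith)] at h9
    linarith
  have h11 : 0 ≤ 1 / y * (1 + h / y) - 1 / (u * Real.log W) := by
    refine le_trans ?_ h7
    exact Finset.sum_nonneg fun k _ => by positivity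
  calc r * η * (1 / Real.log r * ∑ k ∈ range (K + 1), h / (y + k * h) ^ 2)
      = r * (η / Real.log r) * ∑ k ∈ range (K + 1), h / (y + k * h) ^ 2 := by ring
    _ ≤ r * (η / Real.log r) * (1 / y * (1 + h / y) - 1 / (u * Real.log W)) :=
        mul_le_mul_of_nonneg_left h7 (by positivity)
    _ ≤ r * r * (1 / y * (1 + h / y) - 1 / (u * Real.log W)) := by
        apply mul_le_mul_of_nonneg_right _ h11
        exact mul_le_mul_of_nonneg_left h8 (by linarith)
    _ = _ := by ring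

theorem eta_ineq {η : ℝ} (h0 : 0 ≤ η) (h1 : η ≤ 1 / 16) :
    (1 + η) ^ 3 ≤ (1 + 8 * η) * (1 - η) := by
  nlinarith [mul_nonneg h0 h0, mul_nonneg (mul_nonneg h0 h0) h0]

/-- the Euler product with a cut-off -/
theorem eup_cut (h2 : ∀ v, 2 ≤ N v) (hnat : ∀ v, ∃ n : ℕ, N v = n)
    (hpit : Tendsto (fun n : ℕ => (Set.ncard {v : α | N v ≤ n} : ℝ) * Real.log n / n) atTop (𝓝 1))
    (C0 : ℝ) (hC0 : 0 < C0) (hcnt : ∀ (Y : ℝ) (s : Finset α), 1 ≤ Y → (∀ v ∈ s, N v ≤ Y) →
      (s.card : ℝ) ≤ C0 * Y) (μ₁ μ₂ t ε : ℝ) (hμ₁ : 0 ≤ μ₁) (hμ₂ : 0 ≤ μ₂) (ht : 1 ≤ t)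
    (hε : 0 < ε) : ∃ u₀ : ℝ, 0 < u₀ ∧ u₀ < 1 / 2 ∧ ∀ u : ℝ, 0 < u → u < u₀ → ∀ s : Finset α,
      ∑ v ∈ s, Real.log (1 + (if N v ≤ u ^ (-t) then μ₁ else μ₂) * G 0 u (N v)) ≤
        (μ₁ * (1 - 1 / t) + μ₂ / t + ε) / (u * Real.log (1 / u)) := by
  classical
  have ht0 : 0 < t := by linarith
  obtain ⟨B, hB⟩ : ∃ B : ℝ, B = μ₁ + μ₂ + 1 := ⟨_, rfl⟩
  have hB0 : 0 < B := by rw [hB]; linarith
  obtain ⟨η, hη⟩ : ∃ η : ℝ, η = min (ε / (32 * B)) (1 / 16) := ⟨_, rfl⟩
  have hη0 : 0 < η := by rw [hη]; positivity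
  have hη1 : η ≤ 1 / 16 := by rw [hη]; exact min_le_right _ _
  have hηε : 16 * η * B ≤ ε / 2 := by
    have h1 : η ≤ ε / (32 * B) := by rw [hη]; exact min_le_left _ _
    rw [le_div_iff₀ (by positivity)] at h1
    linarith
  obtain ⟨T0, hT0, hsh⟩ := Pool.Agent.N163.RS.short N hnat hpit C0 hcnt η hη0 (by linarith)
  have hV : ∀ᶠ u : ℝ in 𝓝[>] 0, u ^ (1 - η) < 1 / T0 := by
    have h1 : Tendsto (fun u : ℝ => u ^ (1 - η)) (𝓝 0) (𝓝 ((0 : ℝ) ^ (1 - η))) :=
      (Real.continuous_rpow_const (by linarith)).tendsto 0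
    rw [Real.zero_rpow (by linarith)] at h1
    exact (h1.mono_left nhdsWithin_le_nhds).eventually (gt_mem_nhds (by positivity))
  have hall := (Pool.Agent.N163.RS.small_ev C0 (B / 3) (ε / B) η hC0 (by positivity)
    (by positivity) hη0).and hV
  obtain ⟨u1, hu1, hsub⟩ := mem_nhdsGT_iff_exists_Ioo_subset.1 hall
  refine ⟨min u1 (1 / 4), lt_min hu1 (by norm_num), (min_le_right _ _).trans_lt (by norm_num), ?_⟩
  intro u hu0 hu s
  have huu : u < u1 := hu.trans_le (min_le_left _ _)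
  have hu4 : u < 1 / 4 := hu.trans_le (min_le_right _ _)
  obtain ⟨⟨-, -, hsm⟩, hVu⟩ := hsub ⟨hu0, huu⟩
  have hθu : (0 : ℝ) * u ≤ 1 := by rw [zero_mul]; norm_num
  set V : ℝ := u ^ (-(1 - η)) with hVdef
  set W : ℝ := u ^ (-t) with hWdef
  have hp : 0 < u ^ (1 - η) := Real.rpow_pos_of_pos hu0 _
  have hVT : T0 ≤ V := by
    rw [hVdef, Real.rpow_neg hu0.le]
    rw [lt_div_iff₀ (by linarith)] at hVu
    rw [← one_div, le_div_iff₀ hp]
    linarith
  have hVW : V ≤ W := by
    rw [hVdef, hWdef]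
    exact Real.rpow_le_rpow_of_exponent_ge hu0 (by linarith) (by linarith)
  have hV3 : 3 ≤ V := hT0.trans hVT
  have hlV : Real.log V = (1 - η) * Real.log (1 / u) := by
    rw [hVdef, Real.log_rpow hu0, one_div, Real.log_inv]
    ring
  have hlW : Real.log W = t * Real.log (1 / u) := by
    rw [hWdef, Real.log_rpow hu0, one_div, Real.log_inv]
    ring
  have hlV1 : 1 ≤ Real.log V := by
    rw [Real.le_log_iff_exp_le (by linarith)]
    have := Real.exp_one_lt_d9
    linarith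
  have hlVW : Real.log V ≤ Real.log W := Real.log_le_log (by linarith) hVW
  have hlu : 0 < Real.log (1 / u) := Real.log_pos ((one_lt_div hu0).2 (by linarith))
  obtain ⟨E, hE⟩ : ∃ E : ℝ, E = 1 / (u * Real.log (1 / u)) := ⟨_, rfl⟩
  have hE0 : 0 < E := by rw [hE]; positivity
  set m : α → ℝ := fun v => if N v ≤ W then μ₁ else μ₂ with hm
  have hm0 : ∀ v, 0 ≤ m v := fun v => by
    simp only [hm]
    split_ifs
    · exact hμ₁
    · exact hμ₂
  have hmB : ∀ v, m v ≤ B := fun v => by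
    simp only [hm]
    split_ifs
    · rw [hB]; linarith
    · rw [hB]; linarith
  have hG0 : ∀ v, 0 ≤ G 0 u (N v) := fun v => G_nonneg hu0 (by have := h2 v; linarith)
  have hlogle : ∀ v, Real.log (1 + m v * G 0 u (N v)) ≤ m v * G 0 u (N v) := fun v => by
    have h1 : 0 ≤ m v * G 0 u (N v) := mul_nonneg (hm0 v) (hG0 v)
    have := Real.log_le_sub_one_of_pos (x := 1 + m v * G 0 u (N v)) (by linarith)
    linarith
  rw [← Finset.sum_filter_add_sum_filter_not s (fun v => N v ≤ V)]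
  -- the small primes
  have hA : ∑ v ∈ s with N v ≤ V, Real.log (1 + m v * G 0 u (N v)) ≤ (ε / 2) * E := by
    have e3 : 3 * (B / 3) = B := by ring
    rw [e3] at hsm
    have e4 : ε / B / 2 * B / (u * Real.log (1 / u)) = (ε / 2) * E := by
      rw [hE]; field_simp
    rw [e4] at hsm
    refine le_trans ?_ hsm
    have e0 : 0 ≤ Real.log (1 + B / (u * Real.log 2)) :=
      Real.log_nonneg (by
        have hl2 : 0 < Real.log 2 := Real.log_pos (by norm_num)
        have : 0 ≤ B / (u * Real.log 2) := by positivity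
        linarith)
    calc _ ≤ ∑ v ∈ s with N v ≤ V, Real.log (1 + B / (u * Real.log 2)) := by
          refine Finset.sum_le_sum fun v _ => ?_
          have hN := h2 v
          have h3 := Pool.Agent.N163.RS.term_small (μ := B / 3) (θ := 0) (by positivity) hu0 hθu hN
          rw [e3] at h3
          have h4 : m v * G 0 u (N v) ≤ B * N v ^ (0 * u - 1) / (N v ^ u - 1) := by
            calc m v * G 0 u (N v) ≤ B * G 0 u (N v) :=
                  mul_le_mul_of_nonneg_right (hmB v) (hG0 v)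
              _ = _ := by unfold G; ring
          have h5 : 0 ≤ m v * G 0 u (N v) := mul_nonneg (hm0 v) (hG0 v)
          exact Real.log_le_log (by linarith) (by linarith)
      _ = ((s.filter (fun v => N v ≤ V)).card : ℝ) * Real.log (1 + B / (u * Real.log 2)) := by
          rw [Finset.sum_const, nsmul_eq_mul]
      _ ≤ C0 * V * Real.log (1 + B / (u * Real.log 2)) := by
          apply mul_le_mul_of_nonneg_right _ e0
          exact hcnt V _ (by linarith) (fun v hv => (mem_filter.1 hv).2)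
  have hq1 : u * Real.log (1 + η) / (u * Real.log V) ≤ η := by
    rw [div_le_iff₀ (by positivity)]
    have h9 := Real.log_le_sub_one_of_pos (x := 1 + η) (by linarith)
    have h10 : Real.log (1 + η) ≤ η := by linarith
    nlinarith [mul_nonneg hη0.le (sub_nonneg.2 hlV1)]
  have hq2 : u * Real.log (1 + η) / (u * Real.log W) ≤ η := by
    refine le_trans ?_ hq1
    apply div_le_div_of_nonneg_left _ (by positivity) _
    · have : 0 ≤ Real.log (1 + η) := Real.log_nonneg (by linarith)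
      positivity
    · exact mul_le_mul_of_nonneg_left hlVW hu0.le
  have h8η : (1 + η) ^ 3 ≤ (1 + 8 * η) * (1 - η) := eta_ineq hη0.le hη1
  have hVE : 1 / (u * Real.log V) = E / (1 - η) := by
    rw [hlV, hE]
    have : (1 - η) ≠ 0 := by linarith
    field_simp
  have hWE : 1 / (u * Real.log W) = E / t := by
    rw [hlW, hE]
    field_simp
  have h1η : 0 < 1 - η := by linarith
  have hlogη : 0 ≤ Real.log (1 + η) := Real.log_nonneg (by linarith)
  -- the others
  rw [← Finset.sum_filter_add_sum_filter_not (s.filter (fun v => ¬ N v ≤ V)) (fun v => N v ≤ W)]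
  have hM : ∑ v ∈ (s.filter (fun v => ¬ N v ≤ V)) with N v ≤ W,
      Real.log (1 + m v * G 0 u (N v)) ≤ μ₁ * (1 + 8 * η - 1 / t) * E := by
    have h5 := large2 N η T0 hη0 hT0 hsh V W 0 u hVT hVW hu0 (by norm_num) hθu
      ((s.filter (fun v => ¬ N v ≤ V)).filter (fun v => N v ≤ W)) (fun v hv => by
        rw [mem_filter, mem_filter] at hv
        exact ⟨not_le.1 hv.1.2, hv.2⟩)
    have h6 : ∑ v ∈ (s.filter (fun v => ¬ N v ≤ V)) with N v ≤ W,
        Real.log (1 + m v * G 0 u (N v)) ≤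
        μ₁ * ∑ v ∈ (s.filter (fun v => ¬ N v ≤ V)) with N v ≤ W, G 0 u (N v) := by
      rw [Finset.mul_sum]
      refine Finset.sum_le_sum fun v hv => ?_
      rw [mem_filter] at hv
      have e : m v = μ₁ := if_pos hv.2
      have := hlogle v
      rwa [e] at this ⊢
    refine h6.trans ((mul_le_mul_of_nonneg_left h5 hμ₁).trans ?_)
    rw [mul_assoc]
    apply mul_le_mul_of_nonneg_left _ hμ₁
    rw [hVE, hWE]
    have k1 : E / (1 - η) * (1 + u * Real.log (1 + η) / (u * Real.log V)) ≤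
        E / (1 - η) * (1 + η) := mul_le_mul_of_nonneg_left (by linarith) (by positivity)
    have k2 : (1 + η) ^ 2 * (E / (1 - η) * (1 + η)) ≤ (1 + 8 * η) * E := by
      have : (1 + η) ^ 2 * (E / (1 - η) * (1 + η)) = (1 + η) ^ 3 * E / (1 - η) := by ring
      rw [this, div_le_iff₀ h1η]
      calc (1 + η) ^ 3 * E ≤ ((1 + 8 * η) * (1 - η)) * E := mul_le_mul_of_nonneg_right h8η hE0.le
        _ = _ := by ring
    have k3 : E / t ≤ (1 + η) ^ 2 * (E / t) :=
      le_mul_of_one_le_left (by positivity) (one_le_pow₀ (by linarith))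
    calc (1 + η) ^ 2 * (E / (1 - η) * (1 + u * Real.log (1 + η) / (u * Real.log V)) - E / t)
        ≤ (1 + η) ^ 2 * (E / (1 - η) * (1 + η) - E / t) :=
          mul_le_mul_of_nonneg_left (by linarith) (by positivity)
      _ = (1 + η) ^ 2 * (E / (1 - η) * (1 + η)) - (1 + η) ^ 2 * (E / t) := by ring
      _ ≤ (1 + 8 * η) * E - E / t := by linarith
      _ = (1 + 8 * η - 1 / t) * E := by ring
  have hTl : ∑ v ∈ (s.filter (fun v => ¬ N v ≤ V)) with ¬ N v ≤ W,
      Real.log (1 + m v * G 0 u (N v)) ≤ μ₂ * ((1 + 8 * η) / t) * E := by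
    have h5 := Pool.Agent.N163.RS.large N η T0 hη0 hT0 hsh W 0 u (hVT.trans hVW) hu0 (by norm_num)
      hθu ((s.filter (fun v => ¬ N v ≤ V)).filter (fun v => ¬ N v ≤ W)) (fun v hv => by
        rw [mem_filter] at hv
        exact not_le.1 hv.2)
    have h6 : ∑ v ∈ (s.filter (fun v => ¬ N v ≤ V)) with ¬ N v ≤ W,
        Real.log (1 + m v * G 0 u (N v)) ≤
        μ₂ * ∑ v ∈ (s.filter (fun v => ¬ N v ≤ V)) with ¬ N v ≤ W, G 0 u (N v) := by
      rw [Finset.mul_sum]
      refine Finset.sum_le_sum fun v hv => ?_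
      rw [mem_filter] at hv
      have e : m v = μ₂ := if_neg hv.2
      have := hlogle v
      rwa [e] at this ⊢
    refine h6.trans ((mul_le_mul_of_nonneg_left h5 hμ₂).trans ?_)
    rw [mul_assoc μ₂ ((1 + 8 * η) / t) E]
    apply mul_le_mul_of_nonneg_left _ hμ₂
    rw [hWE]
    have k0 : 0 ≤ E / t := by positivity
    calc (1 + η) ^ 2 * (E / t) * (1 + u * Real.log (1 + η) / (u * Real.log W))
        ≤ (1 + η) ^ 2 * (E / t) * (1 + η) := mul_le_mul_of_nonneg_left (by linarith) (by positivity)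
      _ = (1 + η) ^ 3 * (E / t) := by ring
      _ ≤ (1 + 8 * η) * (E / t) := by
          apply mul_le_mul_of_nonneg_right _ k0
          refine h8η.trans ?_
          have : 0 ≤ (1 + 8 * η) * η := by positivity
          linarith [show (1 + 8 * η) * (1 - η) = (1 + 8 * η) - (1 + 8 * η) * η by ring]
      _ = (1 + 8 * η) / t * E := by ring
  have hfin : (ε / 2) * E + (μ₁ * (1 + 8 * η - 1 / t) * E + μ₂ * ((1 + 8 * η) / t) * E) ≤
      (μ₁ * (1 - 1 / t) + μ₂ / t + ε) / (u * Real.log (1 / u)) := by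
    have e : (μ₁ * (1 - 1 / t) + μ₂ / t + ε) / (u * Real.log (1 / u)) =
        (μ₁ * (1 - 1 / t) + μ₂ / t + ε) * E := by rw [hE]; ring
    rw [e, ← add_mul, ← add_mul]
    apply mul_le_mul_of_nonneg_right _ hE0.le
    have k1 : μ₂ * (8 * η / t) ≤ μ₂ * (8 * η) := by
      apply mul_le_mul_of_nonneg_left _ hμ₂
      exact div_le_self (by positivity) ht
    have k2 : μ₁ * (8 * η) + μ₂ * (8 * η) ≤ 16 * η * B := by
      rw [hB]
      have q1 := mul_nonneg hμ₁ hη0.le
      have q2 := mul_nonneg hμ₂ hη0.le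
      linarith [show 16 * η * (μ₁ + μ₂ + 1) = 16 * (μ₁ * η) + 16 * (μ₂ * η) + 16 * η by ring]
    have k3 : μ₁ * (1 + 8 * η - 1 / t) + μ₂ * ((1 + 8 * η) / t) =
        μ₁ * (1 - 1 / t) + μ₂ / t + (μ₁ * (8 * η) + μ₂ * (8 * η / t)) := by ring
    linarith
  refine le_trans ?_ hfin
  exact add_le_add hA (add_le_add hM hTl)

end count

/-- the prime numbers -/
theorem eupq_cut (μ₁ μ₂ t ε : ℝ) (hμ₁ : 0 ≤ μ₁) (hμ₂ : 0 ≤ μ₂) (ht : 1 ≤ t) (hε : 0 < ε) :
    ∃ u₀ : ℝ, 0 < u₀ ∧ u₀ < 1 / 2 ∧ ∀ u : ℝ, 0 < u → u < u₀ → ∀ s : Finset ℕ,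
      (∀ p ∈ s, p.Prime) →
      ∑ p ∈ s, Real.log (1 + (if (p : ℝ) ≤ u ^ (-t) then μ₁ else μ₂) * G 0 u (p : ℝ)) ≤
        (μ₁ * (1 - 1 / t) + μ₂ / t + ε) / (u * Real.log (1 / u)) := by
  have hpit : Tendsto (fun n : ℕ =>
      (Set.ncard {v : {p : ℕ // p.Prime} | ((v.1 : ℕ) : ℝ) ≤ n} : ℝ) * Real.log n / n)
      atTop (𝓝 1) := by
    have := Pool.Agent.Helper923.PNT.pi_tendsto.comp (tendsto_natCast_atTop_atTop (R := ℝ))
    refine this.congr fun N => ?_
    simp only [Function.comp, Nat.floor_natCast, Pool.Agent.N72.SZ.ncard_primes]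
  have hcnt : ∀ (Y : ℝ) (s : Finset {p : ℕ // p.Prime}), 1 ≤ Y →
      (∀ v ∈ s, ((v.1 : ℕ) : ℝ) ≤ Y) → (s.card : ℝ) ≤ 1 * Y := by
    intro Y s hY hs
    rw [one_mul]
    have h1 : s.map (Function.Embedding.subtype _) ⊆ Finset.Icc 1 ⌊Y⌋₊ := by
      intro p hp
      rw [Finset.mem_map] at hp
      obtain ⟨v, hv, rfl⟩ := hp
      rw [Finset.mem_Icc]
      exact ⟨v.2.one_lt.le, Nat.le_floor (hs v hv)⟩
    have h2 := Finset.card_le_card h1
    rw [Finset.card_map, Nat.card_Icc, Nat.add_sub_cancel] at h2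
    calc (s.card : ℝ) ≤ (⌊Y⌋₊ : ℝ) := by exact_mod_cast h2
      _ ≤ Y := Nat.floor_le (by linarith)
  obtain ⟨u₀, h1, h2, h3⟩ := eup_cut
    (fun v : {p : ℕ // p.Prime} => ((v.1 : ℕ) : ℝ))
    (fun v => by exact_mod_cast v.2.two_le) (fun v => ⟨v.1, rfl⟩) hpit 1 one_pos hcnt μ₁ μ₂ t ε
    hμ₁ hμ₂ ht hε
  refine ⟨u₀, h1, h2, fun u hu huu s hs => ?_⟩
  have h4 := h3 u hu huu (s.subtype Nat.Prime)
  rw [Finset.sum_subtype_of_mem (fun p : ℕ =>
    Real.log (1 + (if (p : ℝ) ≤ u ^ (-t) then μ₁ else μ₂) * G 0 u (p : ℝ))) hs] at h4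
  exact h4

end Pool.Agent.Run7.h585.AN
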