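import Pool.Agent.Run7.h585.AN.Wcnt
import Pool.Agent.Run7.h585.AN.Euc
import Pool.Agent.N50.SZ_UPA

/-!
# Generating functions of the weights (helper585)

Adapted from `Pool/Agent/N72/SZ_EUPQ.lean` (`gw`, `gw_sum`, `genu`).
-/

set_option autoImplicit false

namespace Pool.Agent.Run7.h585.AN

open Finset Filter Topology Pool.Agent.N906.SZ
open Pool.Agent.N163.RS (G G_nonneg)
open Pool.Agent.N72.SZ (mf mf_nonneg sum_mf_le rpow_eq geo q_lt prod_one_add_le small)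

/-- weights with a cut-off -/
noncomputable def wtc (z : ℝ) (h g : Fin 3 → ℝ) (p : ℕ) (t : Fin 3) : ℝ :=
  if (p : ℝ) ≤ z then h t else g t

theorem wtc_nonneg {z : ℝ} {h g : Fin 3 → ℝ} (hh : ∀ i, 0 ≤ h i) (hg : ∀ i, 0 ≤ g i) (p : ℕ)
    (t : Fin 3) : 0 ≤ wtc z h g p t := by
  unfold wtc
  split_ifs
  · exact hh t
  · exact hg t

/-- the local weights -/
noncomputable def gwt (wt : ℕ → Fin 3 → ℝ) (u : ℝ) (p e : ℕ) : ℝ :=
  (if 5 ≤ p then (wt p 0 + wt p 1 + if 9 ≤ e then 0 else wt p 2) / (p : ℝ) else 1) *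
    ((p : ℝ) ^ (-u)) ^ e

theorem gwt_nonneg {wt : ℕ → Fin 3 → ℝ} (hw : ∀ p t, 0 ≤ wt p t) (u : ℝ) (p e : ℕ) :
    0 ≤ gwt wt u p e := by
  unfold gwt
  have h0 := hw p 0
  have h1 := hw p 1
  have h2 := hw p 2
  split_ifs <;> positivity

theorem gwt_sum {wt : ℕ → Fin 3 → ℝ} (hw : ∀ p t, 0 ≤ wt p t) (k : ℕ) {u : ℝ} (hu : 0 < u)
    {p : ℕ} (hp : p.Prime) (hk : wt p 2 * (p : ℝ) ^ (-u) ≤ k * (p : ℝ) ^ (-(u / 2))) :
    Summable (fun e : ℕ => gwt wt u p (e + 1)) ∧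
    1 + ∑' e : ℕ, gwt wt u p (e + 1) ≤
      (1 + (wt p 0 + wt p 1) * G 0 u (p : ℝ)) *
        ((1 + (p : ℝ) ^ (-(1 + u / 2))) ^ (8 * k) * (if p < 5 then 1 + 2 / u else 1)) := by
  have h0 := hw p 0
  have h1' := hw p 1
  have h2' := hw p 2
  have hp0 : (0 : ℝ) < p := by exact_mod_cast hp.pos
  have hu1 : 1 < (p : ℝ) ^ u := Real.one_lt_rpow (by exact_mod_cast hp.one_lt) hu
  have hu2 : 0 < (p : ℝ) ^ u - 1 := by linarith
  have hG : 0 ≤ G 0 u (p : ℝ) := G_nonneg hu (by exact_mod_cast hp.one_lt)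
  have hA : 1 ≤ 1 + (wt p 0 + wt p 1) * G 0 u (p : ℝ) := by
    have : 0 ≤ (wt p 0 + wt p 1) * G 0 u (p : ℝ) := mul_nonneg (by linarith) hG
    linarith
  set c := (p : ℝ) ^ (-(1 + u / 2)) with hc
  have hc0 : 0 ≤ c := by positivity
  by_cases h5 : p < 5
  · have hn5 : ¬ 5 ≤ p := by omega
    have e1 : (fun e : ℕ => gwt wt u p (e + 1)) = fun e : ℕ => 1 * ((p : ℝ) ^ (-u)) ^ (e + 1) := by
      funext e
      unfold gwt
      rw [if_neg hn5]
    have h1 := geo hp hu 1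
    rw [← e1] at h1
    refine ⟨h1.summable, ?_⟩
    rw [h1.tsum_eq, if_pos h5]
    have h2 : 1 + 1 / ((p : ℝ) ^ u - 1) ≤ 1 + 2 / u := by
      have h3 : u * Real.log 2 ≤ (p : ℝ) ^ u - 1 := by
        rw [Real.rpow_def_of_pos hp0]
        have h4 := Real.add_one_le_exp (Real.log p * u)
        have h6 : Real.log 2 ≤ Real.log p :=
          Real.log_le_log two_pos (by exact_mod_cast hp.two_le)
        nlinarith
      have h7 : (1 : ℝ) / 2 ≤ Real.log 2 := by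
        have := Real.log_two_gt_d9
        linarith
      have h8 : u / 2 ≤ (p : ℝ) ^ u - 1 := by nlinarith
      have h9 : 1 / ((p : ℝ) ^ u - 1) ≤ 2 / u := by
        rw [div_le_div_iff₀ hu2 hu]
        linarith
      linarith
    have h10 : 1 ≤ (1 + c) ^ (8 * k) := one_le_pow₀ (by linarith)
    have h11 : (0 : ℝ) ≤ 1 + 2 / u := by positivity
    calc 1 + 1 / ((p : ℝ) ^ u - 1) ≤ 1 + 2 / u := h2
      _ = 1 * (1 * (1 + 2 / u)) := by ring
      _ ≤ _ := mul_le_mul hA (mul_le_mul_of_nonneg_right h10 h11) (by positivity) (by linarith)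
  · have hn5 : 5 ≤ p := by omega
    set q := (p : ℝ) ^ (-u) with hq
    have hq0 : 0 ≤ q := by positivity
    have hq1 : q < 1 := q_lt hp hu
    -- split off the extra terms
    have hdec : ∀ e : ℕ, gwt wt u p (e + 1) = (wt p 0 + wt p 1) / (p : ℝ) * q ^ (e + 1) +
        (if e ∈ Finset.range 8 then wt p 2 * q ^ (e + 1) / (p : ℝ) else 0) := by
      intro e
      unfold gwt
      rw [if_pos hn5]
      by_cases he : e ∈ Finset.range 8
      · rw [if_pos he]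
        rw [Finset.mem_range] at he
        rw [if_neg (by omega)]
        ring
      · rw [if_neg he]
        rw [Finset.mem_range] at he
        rw [if_pos (by omega)]
        ring
    have h1 := geo hp hu ((wt p 0 + wt p 1) / (p : ℝ))
    have h2 : HasSum (fun e : ℕ => if e ∈ Finset.range 8 then wt p 2 * q ^ (e + 1) / (p : ℝ) else 0)
        (∑ e ∈ Finset.range 8, wt p 2 * q ^ (e + 1) / (p : ℝ)) := by
      have h : HasSum (fun e : ℕ => if e ∈ Finset.range 8 then wt p 2 * q ^ (e + 1) / (p : ℝ) else 0)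
          (∑ e ∈ Finset.range 8,
            if e ∈ Finset.range 8 then wt p 2 * q ^ (e + 1) / (p : ℝ) else 0) :=
        hasSum_sum_of_ne_finset_zero (fun e he => if_neg he)
      have e1 : ∑ e ∈ Finset.range 8, wt p 2 * q ^ (e + 1) / (p : ℝ) =
          ∑ e ∈ Finset.range 8, if e ∈ Finset.range 8 then wt p 2 * q ^ (e + 1) / (p : ℝ) else 0 :=
        Finset.sum_congr rfl fun e he => (if_pos he).symm
      rw [e1]
      exact h
    have h3 : HasSum (fun e : ℕ => gwt wt u p (e + 1))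
        ((wt p 0 + wt p 1) / (p : ℝ) / ((p : ℝ) ^ u - 1) +
          ∑ e ∈ Finset.range 8, wt p 2 * q ^ (e + 1) / (p : ℝ)) :=
      (h1.add h2).congr_fun hdec
    refine ⟨h3.summable, ?_⟩
    rw [h3.tsum_eq, if_neg h5]
    have h4 : ∑ e ∈ Finset.range 8, wt p 2 * q ^ (e + 1) / (p : ℝ) ≤ ((8 * k : ℕ) : ℝ) * c := by
      have h6 : ∀ e ∈ Finset.range 8, wt p 2 * q ^ (e + 1) / (p : ℝ) ≤ k * c := by
        intro e he
        have h7 : q ^ (e + 1) ≤ q := by
          calc q ^ (e + 1) ≤ q ^ 1 := pow_le_pow_of_le_one hq0 hq1.le (by omega)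
            _ = q := pow_one q
        have h8 : (p : ℝ) ^ (-(u / 2)) / (p : ℝ) = c := by
          rw [hc, show -(1 + u / 2) = -(u / 2) + (-1) by ring, Real.rpow_add hp0,
            Real.rpow_neg_one]
          rfl
        have h9 : wt p 2 * q ^ (e + 1) ≤ k * (p : ℝ) ^ (-(u / 2)) :=
          (mul_le_mul_of_nonneg_left h7 h2').trans hk
        calc wt p 2 * q ^ (e + 1) / (p : ℝ) ≤ k * (p : ℝ) ^ (-(u / 2)) / (p : ℝ) :=
              div_le_div_of_nonneg_right h9 hp0.le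
          _ = k * ((p : ℝ) ^ (-(u / 2)) / (p : ℝ)) := by ring
          _ = k * c := by rw [h8]
      have := Finset.sum_le_card_nsmul _ _ _ h6
      rw [Finset.card_range, nsmul_eq_mul] at this
      push_cast
      push_cast at this
      linarith
    have e1 : (wt p 0 + wt p 1) / (p : ℝ) / ((p : ℝ) ^ u - 1) =
        (wt p 0 + wt p 1) * G 0 u (p : ℝ) := by
      unfold G
      rw [zero_mul, zero_sub, Real.rpow_neg_one]
      ring
    rw [e1]
    set B := (wt p 0 + wt p 1) * G 0 u (p : ℝ) with hB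
    have hB0 : 0 ≤ B := by linarith
    have h9 : 1 + ((8 * k : ℕ) : ℝ) * c ≤ (1 + c) ^ (8 * k) :=
      one_add_mul_le_pow (by linarith) (8 * k)
    have h10 : 0 ≤ B * ((1 + c) ^ (8 * k) - 1) := by
      have : 0 ≤ ((8 * k : ℕ) : ℝ) * c := by positivity
      exact mul_nonneg hB0 (by linarith)
    rw [mul_one]
    have e2 : (1 + B) * (1 + c) ^ (8 * k) =
        (1 + c) ^ (8 * k) + B + B * ((1 + c) ^ (8 * k) - 1) := by ring
    rw [e2]
    linarith

/-- the sum over a finite set of integers -/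
theorem gen_fin {wt : ℕ → Fin 3 → ℝ} (hw : ∀ p t, 0 ≤ wt p t) (k : ℕ)
    {u : ℝ} (hu : 0 < u)
    (hk : ∀ p : ℕ, p.Prime → wt p 2 * (p : ℝ) ^ (-u) ≤ k * (p : ℝ) ^ (-(u / 2))) (F : Finset ℕ) (hF : ∀ n ∈ F, 1 ≤ n) :
    ∑ n ∈ F, ww wt n * (n : ℝ) ^ (-u) / rd n ≤
      Real.exp (∑ p ∈ F.biUnion Nat.primeFactors,
        Real.log (1 + (wt p 0 + wt p 1) * G 0 u (p : ℝ))) * (1 + 2 / u) ^ (8 * k + 5) := by
  classical
  have hmf : ∀ n ∈ F, ww wt n * (n : ℝ) ^ (-u) / rd n = mf (gwt wt u) n := by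
    intro n hn
    rw [rpow_eq (hF n hn)]
    unfold mf ww rd gwt
    rw [Finset.prod_mul_distrib]
    push_cast
    rw [Finset.prod_filter, Finset.prod_filter, mul_div_right_comm]
    congr 1
    rw [← Finset.prod_div_distrib]
    refine Finset.prod_congr rfl fun p _ => ?_
    by_cases h5 : 5 ≤ p
    · rw [if_pos h5, if_pos h5, if_pos h5]
    · rw [if_neg h5, if_neg h5, if_neg h5, div_one]
  rw [Finset.sum_congr rfl hmf]
  set s := F.biUnion Nat.primeFactors with hs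
  have hsp : ∀ p ∈ s, p.Prime := by
    intro p hp
    obtain ⟨n, _, h⟩ := Finset.mem_biUnion.1 hp
    exact Nat.prime_of_mem_primeFactors h
  refine (sum_mf_le (gwt wt u) (gwt_nonneg hw u)
    (fun p hp => (gwt_sum hw k hu hp (hk p hp)).1) F hF).trans ?_
  have hpos : ∀ p ∈ s, 0 < 1 + (wt p 0 + wt p 1) * G 0 u (p : ℝ) := by
    intro p hp
    have h0 := hw p 0
    have h1 := hw p 1
    have hG : 0 ≤ G 0 u (p : ℝ) := G_nonneg hu (by exact_mod_cast (hsp p hp).one_lt)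
    have : 0 ≤ (wt p 0 + wt p 1) * G 0 u (p : ℝ) := mul_nonneg (by linarith) hG
    linarith
  have hstep : ∏ p ∈ s, (1 + ∑' e : ℕ, gwt wt u p (e + 1)) ≤
      ∏ p ∈ s, ((1 + (wt p 0 + wt p 1) * G 0 u (p : ℝ)) *
        ((1 + (p : ℝ) ^ (-(1 + u / 2))) ^ (8 * k) * (if p < 5 then 1 + 2 / u else 1))) := by
    refine Finset.prod_le_prod (fun p _ => ?_)
      (fun p hp => (gwt_sum hw k hu (hsp p hp) (hk p (hsp p hp))).2)
    have : 0 ≤ ∑' e : ℕ, gwt wt u p (e + 1) := tsum_nonneg fun e => gwt_nonneg hw u p _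
    linarith
  refine hstep.trans ?_
  rw [Finset.prod_mul_distrib, Finset.prod_mul_distrib, Finset.prod_pow]
  have k1 : ∏ p ∈ s, (1 + (wt p 0 + wt p 1) * G 0 u (p : ℝ)) =
      Real.exp (∑ p ∈ s, Real.log (1 + (wt p 0 + wt p 1) * G 0 u (p : ℝ))) := by
    rw [Real.exp_sum]
    exact Finset.prod_congr rfl fun p hp => (Real.exp_log (hpos p hp)).symm
  have hd1 : (1 : ℝ) ≤ 1 + 2 / u := by
    have : 0 < 2 / u := by positivity
    linarith
  have k2 : (∏ p ∈ s, (1 + (p : ℝ) ^ (-(1 + u / 2)))) ^ (8 * k) ≤ (1 + 2 / u) ^ (8 * k) := by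
    apply pow_le_pow_left₀ (Finset.prod_nonneg fun p _ => by positivity)
    refine (prod_one_add_le (show 0 < u / 2 by positivity) s hsp).trans (le_of_eq ?_)
    rw [one_div_div]
  have k3 : ∏ p ∈ s, (if p < 5 then 1 + 2 / u else (1 : ℝ)) ≤ (1 + 2 / u) ^ 5 := by
    rw [Finset.prod_ite, Finset.prod_const, Finset.prod_const_one, mul_one]
    apply pow_le_pow_right₀ hd1
    have : s.filter (fun p => p < 5) ⊆ Finset.range 5 := by
      intro p hp
      rw [Finset.mem_filter] at hp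
      exact Finset.mem_range.2 hp.2
    have := Finset.card_le_card this
    rwa [Finset.card_range] at this
  have k4 : (∏ p ∈ s, (1 + (p : ℝ) ^ (-(1 + u / 2)))) ^ (8 * k) *
      ∏ p ∈ s, (if p < 5 then 1 + 2 / u else (1 : ℝ)) ≤ (1 + 2 / u) ^ (8 * k + 5) := by
    rw [pow_add]
    refine mul_le_mul k2 k3 (Finset.prod_nonneg fun p _ => ?_) (by positivity)
    split_ifs <;> positivity
  rw [k1]
  exact mul_le_mul_of_nonneg_left k4 (Real.exp_pos _).le

/-- the polynomial factor is small -/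
theorem small_pow (k : ℕ) (ε : ℝ) (hε : 0 < ε) : ∀ᶠ u : ℝ in 𝓝[>] 0,
    (1 + 2 / u) ^ k ≤ Real.exp (ε / (u * Real.log (1 / u))) := by
  have h := small (ε / (k + 1)) (by positivity)
  filter_upwards [h, Ioo_mem_nhdsGT (show (0 : ℝ) < 1 / 3 by norm_num)] with u h1 hu
  have hu0 : 0 < u := hu.1
  have hu3 : u < 1 / 3 := hu.2
  have hL : 0 < Real.log (1 / u) := Real.log_pos (by rw [lt_div_iff₀ hu0]; linarith)
  have hd1 : (1 : ℝ) ≤ 1 + 2 / u := by
    have : 0 < 2 / u := by positivity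
    linarith
  calc (1 + 2 / u) ^ k ≤ (1 + 2 / u) ^ (8 * k) := pow_le_pow_right₀ hd1 (by omega)
    _ = ((1 + 2 / u) ^ 8) ^ k := by rw [pow_mul]
    _ ≤ (Real.exp (ε / (k + 1) / (u * Real.log (1 / u)))) ^ k :=
        pow_le_pow_left₀ (by positivity) h1 k
    _ = Real.exp (k * (ε / (k + 1) / (u * Real.log (1 / u)))) := by rw [← Real.exp_nat_mul]
    _ ≤ _ := by
        apply Real.exp_le_exp.2
        have e : (k : ℝ) * (ε / (k + 1) / (u * Real.log (1 / u))) =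
            (k / (k + 1)) * (ε / (u * Real.log (1 / u))) := by
          field_simp
        rw [e]
        have h2 : (k : ℝ) / (k + 1) ≤ 1 := by
          rw [div_le_one (by positivity)]
          linarith
        have h3 : 0 ≤ ε / (u * Real.log (1 / u)) := by positivity
        nlinarith

/-- the generating function with a cut-off -/
theorem gen_cut (h g : Fin 3 → ℝ) (hh : ∀ i, 0 ≤ h i) (hg : ∀ i, 0 ≤ g i) (t ε : ℝ) (ht : 1 ≤ t)
    (hε : 0 < ε) : ∃ u₀ : ℝ, 0 < u₀ ∧ u₀ < 1 / 2 ∧ ∀ u : ℝ, 0 < u → u < u₀ →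
      ∀ F : Finset ℕ, (∀ n ∈ F, 1 ≤ n) →
      ∑ n ∈ F, ww (wtc (u ^ (-t)) h g) n * (n : ℝ) ^ (-u) / rd n ≤
        Real.exp (((h 0 + h 1) * (1 - 1 / t) + (g 0 + g 1) / t + ε) / (u * Real.log (1 / u))) := by
  classical
  obtain ⟨k, hk⟩ := exists_nat_ge (max (h 2) (g 2))
  obtain ⟨u₀, h1, h2, h3⟩ := eupq_cut (h 0 + h 1) (g 0 + g 1) t (ε / 2)
    (add_nonneg (hh 0) (hh 1)) (add_nonneg (hg 0) (hg 1)) ht (by positivity)
  have hsm := small_pow (8 * k + 5) (ε / 2) (by positivity)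
  obtain ⟨u₁, hu₁, hu₁'⟩ := mem_nhdsGT_iff_exists_Ioo_subset.1 hsm
  have hu₁0 : (0 : ℝ) < u₁ := hu₁
  refine ⟨min u₀ u₁, lt_min h1 hu₁0, (min_le_left _ _).trans_lt h2, fun u hu huu F hF => ?_⟩
  have huu0 : u < u₀ := huu.trans_le (min_le_left _ _)
  have huu1 : u < u₁ := huu.trans_le (min_le_right _ _)
  have hsm' : (1 + 2 / u) ^ (8 * k + 5) ≤ Real.exp (ε / 2 / (u * Real.log (1 / u))) :=
    hu₁' ⟨hu, huu1⟩
  have hw : ∀ p t', 0 ≤ wtc (u ^ (-t)) h g p t' := fun p t' => wtc_nonneg hh hg p t'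
  have h4 := gen_fin hw k hu (fun p hp => by
    have hp1 : (1 : ℝ) ≤ p := by exact_mod_cast hp.one_lt.le
    have h5 : wtc (u ^ (-t)) h g p 2 ≤ k := by
      unfold wtc
      split_ifs
      · exact (le_max_left _ _).trans hk
      · exact (le_max_right _ _).trans hk
    have h6 : (p : ℝ) ^ (-u) ≤ (p : ℝ) ^ (-(u / 2)) :=
      Real.rpow_le_rpow_of_exponent_le hp1 (by linarith)
    exact mul_le_mul h5 h6 (by positivity) (Nat.cast_nonneg k)) F hF
  have hsp : ∀ p ∈ F.biUnion Nat.primeFactors, p.Prime := by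
    intro p hp
    obtain ⟨n, _, h⟩ := Finset.mem_biUnion.1 hp
    exact Nat.prime_of_mem_primeFactors h
  have h5 := h3 u hu huu0 _ hsp
  have e : ∀ p ∈ F.biUnion Nat.primeFactors,
      Real.log (1 + (wtc (u ^ (-t)) h g p 0 + wtc (u ^ (-t)) h g p 1) * G 0 u (p : ℝ)) =
      Real.log (1 + (if (p : ℝ) ≤ u ^ (-t) then h 0 + h 1 else g 0 + g 1) * G 0 u (p : ℝ)) := by
    intro p _
    unfold wtc
    split_ifs <;> rfl
  rw [Finset.sum_congr rfl e] at h4
  refine h4.trans ?_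
  calc _ ≤ Real.exp (((h 0 + h 1) * (1 - 1 / t) + (g 0 + g 1) / t + ε / 2) /
        (u * Real.log (1 / u))) * Real.exp (ε / 2 / (u * Real.log (1 / u))) :=
        mul_le_mul (Real.exp_le_exp.2 h5) hsm' (by positivity) (Real.exp_pos _).le
    _ = _ := by
        rw [← Real.exp_add]
        congr 1
        ring

theorem ww_mono {wt wt' : ℕ → Fin 3 → ℝ} (hw : ∀ p t, 0 ≤ wt p t)
    (h : ∀ p t, wt p t ≤ wt' p t) (n : ℕ) : ww wt n ≤ ww wt' n := by
  unfold ww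
  refine Finset.prod_le_prod (fun p _ => ?_) (fun p _ => ?_)
  · have h0 := hw p 0
    have h1 := hw p 1
    have h2 := hw p 2
    split_ifs <;> linarith
  · have h0 := h p 0
    have h1 := h p 1
    have h2 := h p 2
    split_ifs <;> linarith

/-- a crude bound for the sum of the weights -/
theorem crude (B : ℝ) (hB : 0 ≤ B) : ∃ G₁ : ℝ, 0 < G₁ ∧ ∀ (z : ℝ) (h g : Fin 3 → ℝ),
    (∀ i, 0 ≤ h i) → (∀ i, 0 ≤ g i) → (∀ i, h i ≤ B) → (∀ i, g i ≤ B) → ∀ A : ℝ, 1 ≤ A →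
    ∀ D : Finset ℕ, (∀ n ∈ D, 1 ≤ n ∧ (n : ℝ) ≤ A) → ∑ n ∈ D, ww (wtc z h g) n ≤ G₁ * A ^ 2 := by
  obtain ⟨u₀, h1, h2, h3⟩ := gen_cut (fun _ => B) (fun _ => B) (fun _ => hB) (fun _ => hB) 1 1
    le_rfl one_pos
  obtain ⟨u, hu⟩ : ∃ u : ℝ, u = u₀ / 2 := ⟨_, rfl⟩
  have hu0 : 0 < u := by rw [hu]; positivity
  have huu : u < u₀ := by rw [hu]; linarith
  refine ⟨Real.exp (((B + B) * (1 - 1 / 1) + (B + B) / 1 + 1) / (u * Real.log (1 / u))),
    Real.exp_pos _, fun z h g hh hg hhB hgB A hA D hD => ?_⟩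
  have h4 := h3 u hu0 huu D (fun n hn => (hD n hn).1)
  simp only at h4
  refine le_trans ?_ (mul_le_mul_of_nonneg_right h4 (by positivity))
  rw [Finset.sum_mul]
  refine Finset.sum_le_sum fun n hn => ?_
  obtain ⟨q1, q2⟩ := hD n hn
  have hn0 : (0 : ℝ) < n := by exact_mod_cast q1
  have hrd : 0 < rd n := by
    unfold rd
    refine Finset.prod_pos fun p hp => ?_
    exact (Nat.prime_of_mem_primeFactors (Finset.mem_filter.1 hp).1).pos
  have hr0 : (0 : ℝ) < rd n := by exact_mod_cast hrd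
  have hrn : (rd n : ℝ) ≤ n := by exact_mod_cast Pool.Agent.N50.SZ.rd_le q1
  have hw : ∀ p t', 0 ≤ wtc z h g p t' := fun p t' => wtc_nonneg hh hg p t'
  have hm := ww_mono hw (wt' := wtc (u ^ (-(1 : ℝ))) (fun _ => B) (fun _ => B)) (fun p t' => by
    unfold wtc
    split_ifs
    · exact hhB t'
    · exact hhB t'
    · exact hgB t'
    · exact hgB t') n
  have hw0 := ww_nonneg hw n
  have k1 : (1 : ℝ) ≤ (n : ℝ) ^ (-u) / rd n * A ^ 2 := by
    rw [div_mul_eq_mul_div, le_div_iff₀ hr0, one_mul]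
    calc (rd n : ℝ) ≤ n := hrn
      _ = (n : ℝ) ^ (-u) * (n : ℝ) ^ (1 + u) := by
          rw [← Real.rpow_add hn0, show -u + (1 + u) = 1 by ring, Real.rpow_one]
      _ ≤ (n : ℝ) ^ (-u) * A ^ 2 := by
          apply mul_le_mul_of_nonneg_left _ (by positivity)
          calc (n : ℝ) ^ (1 + u) ≤ A ^ (1 + u) := Real.rpow_le_rpow hn0.le q2 (by linarith)
            _ ≤ A ^ (2 : ℝ) := Real.rpow_le_rpow_of_exponent_le hA (by linarith)
            _ = A ^ 2 := Real.rpow_two A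
  calc ww (wtc z h g) n = ww (wtc z h g) n * 1 := (mul_one _).symm
    _ ≤ ww (wtc (u ^ (-(1 : ℝ))) (fun _ => B) (fun _ => B)) n *
        ((n : ℝ) ^ (-u) / rd n * A ^ 2) := mul_le_mul hm k1 zero_le_one (hw0.trans hm)
    _ = _ := by ring

/-- the weights `p ^ (u/2)` -/
noncomputable def wr (u : ℝ) (p : ℕ) (_ : Fin 3) : ℝ := (p : ℝ) ^ (u / 2)

theorem wr_nonneg (u : ℝ) (p : ℕ) (t : Fin 3) : 0 ≤ wr u p t := Real.rpow_nonneg (Nat.cast_nonneg p) _

/-- the generating function with the radical -/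
theorem gen_rad (ε : ℝ) (hε : 0 < ε) : ∃ u₀ : ℝ, 0 < u₀ ∧ u₀ < 1 / 2 ∧ ∀ u : ℝ, 0 < u → u < u₀ →
      ∀ F : Finset ℕ, (∀ n ∈ F, 1 ≤ n) →
      ∑ n ∈ F, ww (wr u) n * (n : ℝ) ^ (-u) / rd n ≤
        Real.exp ((2 + ε) / (u * Real.log (1 / u))) := by
  classical
  obtain ⟨u₀, h1, h2, h3⟩ := Pool.Agent.N72.SZ.eupq 2 (1 / 2) (ε / 4) two_pos (by norm_num) le_rfl
    (by positivity)
  have hsm := small_pow (8 * 1 + 5) (ε / 2) (by positivity)
  obtain ⟨u₁, hu₁, hu₁'⟩ := mem_nhdsGT_iff_exists_Ioo_subset.1 hsm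
  have hu₁0 : (0 : ℝ) < u₁ := hu₁
  refine ⟨min u₀ u₁, lt_min h1 hu₁0, (min_le_left _ _).trans_lt h2, fun u hu huu F hF => ?_⟩
  have huu0 : u < u₀ := huu.trans_le (min_le_left _ _)
  have huu1 : u < u₁ := huu.trans_le (min_le_right _ _)
  have hsm' : (1 + 2 / u) ^ (8 * 1 + 5) ≤ Real.exp (ε / 2 / (u * Real.log (1 / u))) :=
    hu₁' ⟨hu, huu1⟩
  have h4 := gen_fin (wr_nonneg u) 1 hu (fun p hp => by
    have hp0 : (0 : ℝ) < p := by exact_mod_cast hp.pos
    unfold wr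
    rw [← Real.rpow_add hp0, Nat.cast_one, one_mul]
    apply le_of_eq
    congr 1
    ring) F hF
  have hsp : ∀ p ∈ F.biUnion Nat.primeFactors, p.Prime := by
    intro p hp
    obtain ⟨n, _, h⟩ := Finset.mem_biUnion.1 hp
    exact Nat.prime_of_mem_primeFactors h
  have h5 := h3 u hu huu0 _ hsp
  have e : ∀ p ∈ F.biUnion Nat.primeFactors,
      Real.log (1 + (wr u p 0 + wr u p 1) * G 0 u (p : ℝ)) =
      Real.log (1 + 2 * (p : ℝ) ^ (1 / 2 * u - 1) / ((p : ℝ) ^ u - 1)) := by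
    intro p hp
    have hp0 : (0 : ℝ) < p := by exact_mod_cast (hsp p hp).pos
    congr 2
    unfold wr G
    rw [show (1 : ℝ) / 2 * u - 1 = u / 2 + (0 * u - 1) by ring, Real.rpow_add hp0]
    ring
  rw [Finset.sum_congr rfl e] at h4
  refine h4.trans ?_
  calc _ ≤ Real.exp ((1 + ε / 4) * 2 / (u * Real.log (1 / u))) *
        Real.exp (ε / 2 / (u * Real.log (1 / u))) :=
        mul_le_mul (Real.exp_le_exp.2 h5) hsm' (by positivity) (Real.exp_pos _).le
    _ = _ := by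
        rw [← Real.exp_add]
        congr 1
        ring

/-- a crude bound for the sum of the weights `wr` -/
theorem crude_rad : ∃ G₁ u₁ : ℝ, 0 < G₁ ∧ 0 < u₁ ∧ ∀ u : ℝ, 0 < u → u < u₁ → ∀ A : ℝ, 1 ≤ A →
    ∀ D : Finset ℕ, (∀ n ∈ D, 1 ≤ n ∧ (n : ℝ) ≤ A) → ∑ n ∈ D, ww (wr u) n ≤ G₁ * A ^ 2 := by
  obtain ⟨u₀, h1, h2, h3⟩ := gen_rad 1 one_pos
  obtain ⟨v, hv⟩ : ∃ v : ℝ, v = u₀ / 2 := ⟨_, rfl⟩
  have hv0 : 0 < v := by rw [hv]; positivity
  have hvv : v < u₀ := by rw [hv]; linarith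
  refine ⟨Real.exp ((2 + 1) / (v * Real.log (1 / v))), v, Real.exp_pos _, hv0,
    fun u hu huv A hA D hD => ?_⟩
  have h4 := h3 v hv0 hvv D (fun n hn => (hD n hn).1)
  refine le_trans ?_ (mul_le_mul_of_nonneg_right h4 (by positivity))
  rw [Finset.sum_mul]
  refine Finset.sum_le_sum fun n hn => ?_
  obtain ⟨q1, q2⟩ := hD n hn
  have hn0 : (0 : ℝ) < n := by exact_mod_cast q1
  have hrd : 0 < rd n := by
    unfold rd
    refine Finset.prod_pos fun p hp => ?_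
    exact (Nat.prime_of_mem_primeFactors (Finset.mem_filter.1 hp).1).pos
  have hr0 : (0 : ℝ) < rd n := by exact_mod_cast hrd
  have hrn : (rd n : ℝ) ≤ n := by exact_mod_cast Pool.Agent.N50.SZ.rd_le q1
  have hm : ww (wr u) n ≤ ww (wr v) n := by
    unfold ww
    refine Finset.prod_le_prod (fun p _ => ?_) (fun p hp => ?_)
    · have h0 := wr_nonneg u p 0
      have h1 := wr_nonneg u p 1
      have h2 := wr_nonneg u p 2
      split_ifs <;> linarith
    · rw [mem_filter] at hp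
      have hp1 : (1 : ℝ) ≤ p := by
        exact_mod_cast (Nat.prime_of_mem_primeFactors hp.1).one_lt.le
      have h : ∀ t, wr u p t ≤ wr v p t := fun t => by
        unfold wr
        exact Real.rpow_le_rpow_of_exponent_le hp1 (by linarith)
      have h0 := h 0
      have h1 := h 1
      have h2 := h 2
      split_ifs <;> linarith
  have hw0 := ww_nonneg (wr_nonneg u) n
  have k1 : (1 : ℝ) ≤ (n : ℝ) ^ (-v) / rd n * A ^ 2 := by
    rw [div_mul_eq_mul_div, le_div_iff₀ hr0, one_mul]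
    calc (rd n : ℝ) ≤ n := hrn
      _ = (n : ℝ) ^ (-v) * (n : ℝ) ^ (1 + v) := by
          rw [← Real.rpow_add hn0, show -v + (1 + v) = 1 by ring, Real.rpow_one]
      _ ≤ (n : ℝ) ^ (-v) * A ^ 2 := by
          apply mul_le_mul_of_nonneg_left _ (by positivity)
          calc (n : ℝ) ^ (1 + v) ≤ A ^ (1 + v) := Real.rpow_le_rpow hn0.le q2 (by linarith)
            _ ≤ A ^ (2 : ℝ) := Real.rpow_le_rpow_of_exponent_le hA (by linarith)
            _ = A ^ 2 := Real.rpow_two A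
  calc ww (wr u) n = ww (wr u) n * 1 := (mul_one _).symm
    _ ≤ ww (wr v) n * ((n : ℝ) ^ (-v) / rd n * A ^ 2) := mul_le_mul hm k1 zero_le_one (hw0.trans hm)
    _ = _ := by ring

end Pool.Agent.Run7.h585.AN
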