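import Pool.Agent.Run7.h585.AN.Gen
import Pool.Agent.Run7.h585.AN.Asm

/-!
# The weighted count of the curves with a large ratio (helper585)
-/

set_option autoImplicit false

namespace Pool.Agent.Run7.h585.AN

open Finset Filter Topology Pool.Agent.N906.SZ Pool.Agent.N906.FH
open Pool.Agent.N692.FH (upg_size upg_mx upg_box)

/-- `u = √(2μ / (κ x log x))` -/
noncomputable def uu (μ κ x : ℝ) : ℝ := √(2 * μ / (κ * x * Real.log x))

/-- the choice of `u` -/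
theorem numx {κ ε u₀ μ : ℝ} (hκ : 0 < κ) (hε : 0 < ε) (hu₀ : 0 < u₀) (hμ : 0 < μ) :
    ∀ᶠ x : ℝ in atTop, 0 < uu μ κ x ∧ uu μ κ x < u₀ ∧
      Real.log x / 2 ≤ Real.log (1 / uu μ κ x) ∧
      Real.log (1 / uu μ κ x) ≤ (1 / 2 + ε) * Real.log x ∧
      uu μ κ x * κ * x + (1 + ε) * μ / (uu μ κ x * Real.log (1 / uu μ κ x)) ≤
        (1 + ε / 2) * √(8 * μ * κ * x / Real.log x) := by
  have hlog2 : ∀ᶠ x : ℝ in atTop, κ / (2 * μ) * Real.log x ≤ x ^ (2 * ε) :=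
    ((isLittleO_log_rpow_atTop (show 0 < 2 * ε by positivity)).bound
      (show (0 : ℝ) < 1 / (κ / (2 * μ) + 1) by positivity)).mp (by
      filter_upwards [eventually_ge_atTop (1 : ℝ)] with x hx h
      have hl : 0 ≤ Real.log x := Real.log_nonneg hx
      rw [Real.norm_of_nonneg hl, Real.norm_of_nonneg (by positivity)] at h
      have h1 : κ / (2 * μ) * Real.log x ≤ (κ / (2 * μ) + 1) * Real.log x := by nlinarith
      refine h1.trans ?_
      have h2 := mul_le_mul_of_nonneg_left h (show 0 ≤ κ / (2 * μ) + 1 by positivity)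
      refine h2.trans (le_of_eq ?_)
      field_simp)
  filter_upwards [Real.tendsto_log_atTop.eventually_ge_atTop (2 * μ / κ), hlog2,
    eventually_gt_atTop (2 * μ / (κ * u₀ ^ 2)), Real.tendsto_log_atTop.eventually_ge_atTop 1,
    eventually_ge_atTop (1 : ℝ)] with x h1 hlg h2 h3 h4
  have hx0 : 0 < x := by linarith
  obtain ⟨l, hl⟩ : ∃ l : ℝ, l = Real.log x := ⟨_, rfl⟩
  obtain ⟨u, hu⟩ : ∃ u : ℝ, u = uu μ κ x := ⟨_, rfl⟩
  have hu' : u = √(2 * μ / (κ * x * l)) := by rw [hu, hl]; rfl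
  rw [← hu]
  rw [← hl] at h1 h3 hlg ⊢
  have hl0 : 0 < l := by linarith
  have hκl : 2 * μ ≤ κ * l := by
    rw [div_le_iff₀ hκ] at h1; linarith
  have hD : 0 < κ * x * l := by positivity
  have hu0 : 0 < u := by rw [hu']; exact Real.sqrt_pos.2 (by positivity)
  have hu2 : u ^ 2 = 2 * μ / (κ * x * l) := by rw [hu']; exact Real.sq_sqrt (by positivity)
  have hlog : l / 2 ≤ Real.log (1 / u) := by
    have h6 : x ≤ (1 / u) ^ 2 := by
      rw [div_pow, one_pow, le_div_iff₀ (by positivity), hu2, mul_div_assoc', div_le_one hD]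
      nlinarith
    have h7 := Real.log_le_log hx0 h6
    rw [Real.log_pow, ← hl] at h7
    push_cast at h7
    linarith
  refine ⟨hu0, ?_, hlog, ?_, ?_⟩
  · rw [hu', Real.sqrt_lt' hu₀, div_lt_iff₀ hD]
    rw [div_lt_iff₀ (by positivity)] at h2
    have h5 : x * (κ * u₀ ^ 2) * 1 ≤ x * (κ * u₀ ^ 2) * l :=
      mul_le_mul_of_nonneg_left h3 (by positivity)
    nlinarith
  · have h6 : (1 / u) ^ 2 ≤ x ^ (1 + 2 * ε) := by
      rw [div_pow, one_pow, hu2, one_div_div, Real.rpow_add hx0, Real.rpow_one]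
      calc κ * x * l / (2 * μ) = x * (κ / (2 * μ) * l) := by ring
        _ ≤ x * x ^ (2 * ε) := mul_le_mul_of_nonneg_left hlg hx0.le
    have h7 := Real.log_le_log (by positivity) h6
    rw [Real.log_pow, Real.log_rpow hx0, ← hl] at h7
    push_cast at h7
    linarith
  · obtain ⟨a, ha⟩ : ∃ a : ℝ, a = u * κ * x := ⟨_, rfl⟩
    have ha0 : 0 < a := by rw [ha]; positivity
    have hS : √(8 * μ * κ * x / l) = 2 * a := by
      rw [show 8 * μ * κ * x / l = (2 * a) ^ 2 by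
        rw [ha, mul_pow, mul_pow, mul_pow, hu2]; field_simp; ring]
      exact Real.sqrt_sq (by positivity)
    have hu2' : u ^ 2 * (κ * x * l) = 2 * μ := by rw [hu2]; field_simp
    have h8 : μ / (u * Real.log (1 / u)) ≤ a := by
      have h9 : 0 < Real.log (1 / u) := by linarith
      rw [div_le_iff₀ (by positivity)]
      calc μ = a * (u * (l / 2)) := by rw [ha]; linarith [show u * κ * x * (u * (l / 2)) =
              u ^ 2 * (κ * x * l) / 2 by ring]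
        _ ≤ a * (u * Real.log (1 / u)) := by
            apply mul_le_mul_of_nonneg_left _ ha0.le
            exact mul_le_mul_of_nonneg_left hlog hu0.le
    rw [hS, ← ha, mul_div_assoc]
    nlinarith

/-- the good curves -/
def Good (lam K X : ℝ) (x : ℤ × ℤ) : Prop :=
  Mn x.1 x.2 ∧ |(x.1 : ℝ)| ≤ X ^ 2 ∧ |(x.2 : ℝ)| ≤ X ^ 3 ∧ X ^ 3 < Mx x.1 x.2 ∧
  (Nc x.1 x.2 : ℝ) ≤ K * Mx x.1 x.2 ^ (1 - lam) ∧
  128 * K * Mx x.1 x.2 ^ (1 - lam) ≤ |((Dd x.1 x.2 : ℤ) : ℝ)| ∧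
  128 * K * Mx x.1 x.2 ^ (1 - (1 / 12 + lam / 2)) ≤ Nc x.1 x.2

/-- the weighted count, general form -/
theorem main_g (wf : ℝ → ℕ → Fin 3 → ℝ) (hwf : ∀ u p t, 0 ≤ wf u p t) (μ : ℝ) (hμ0 : 0 < μ)
    (hgenf : ∀ ε : ℝ, 0 < ε → ∃ u₀ : ℝ, 0 < u₀ ∧ u₀ < 1 / 2 ∧ ∀ u : ℝ, 0 < u → u < u₀ →
      ∀ F : Finset ℕ, (∀ n ∈ F, 1 ≤ n) →
      ∑ n ∈ F, ww (wf u) n * (n : ℝ) ^ (-u) / rd n ≤ Real.exp ((μ + ε) / (u * Real.log (1 / u))))
    (hcrudef : ∃ G₁ u₁ : ℝ, 0 < G₁ ∧ 0 < u₁ ∧ ∀ u : ℝ, 0 < u → u < u₁ → ∀ A : ℝ, 1 ≤ A →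
      ∀ D : Finset ℕ, (∀ n ∈ D, 1 ≤ n ∧ (n : ℝ) ≤ A) → ∑ n ∈ D, ww (wf u) n ≤ G₁ * A ^ 2)
    (lam lam₂ K K₂ ε : ℝ) (hl0 : 0 < lam) (hl1 : lam < 1 / 6) (hl2 : 0 < lam₂) (hK : 1 ≤ K)
    (hK₂ : 1 ≤ K₂) (hε : 0 < ε) :
    ∃ X₀ : ℝ, 31 ≤ X₀ ∧ ∀ (X : ℝ) (F : Finset (ℤ × ℤ)), X₀ ≤ X →
      (∀ x ∈ F, Good lam K X x ∧
        |((Dd x.1 x.2 : ℤ) : ℝ)| ≤ K₂ * X ^ (6 * lam₂) * Mx x.1 x.2 ^ (1 - lam)) →
      ∑ x ∈ F, Th (wf (uu μ (6 * lam₂) (Real.log X))) (nq x.1 x.2) x.1 x.2 ≤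
        Real.exp ((5 - 6 * lam) * Real.log X +
          (1 + ε) * √(48 * μ * lam₂ * Real.log X / Real.log (Real.log X))) := by
  classical
  obtain ⟨C, hC, hblock⟩ := block_w
  obtain ⟨G₁, u₁, hG₁, hu₁, hcrude⟩ := hcrudef
  obtain ⟨u₀', hu₀', hu₀2', hgen⟩ := hgenf (ε / 4 * μ) (by positivity)
  obtain ⟨u₀, hu₀d⟩ : ∃ u₀ : ℝ, u₀ = min u₀' u₁ := ⟨_, rfl⟩
  have hu₀ : 0 < u₀ := by rw [hu₀d]; exact lt_min hu₀' hu₁
  have hu₀2 : u₀ < 1 / 2 := by rw [hu₀d]; exact (min_le_left _ _).trans_lt hu₀2'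
  have hκ : 0 < 6 * lam₂ := by positivity
  have hK0 : 0 < K := by linarith
  have hK₂0 : 0 < K₂ := by linarith
  -- the constant
  obtain ⟨c₃, hc₃⟩ : ∃ c₃ : ℝ, c₃ = C * (64 * K * K₂ + 16 * G₁) := ⟨_, rfl⟩
  have hc₃0 : 0 < c₃ := by rw [hc₃]; positivity
  have hasym := Pool.Agent.N92.SZ.up_asym (144 * c₃) (48 * μ * lam₂) (ε / 8) (by positivity)
    (by positivity)
  have hnum := numx hκ (show 0 < ε / 4 by positivity) hu₀ hμ0
  have hnum' := Real.tendsto_log_atTop.eventually hnum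
  obtain ⟨X₁, hX₁⟩ := eventually_atTop.1 (hasym.and hnum')
  refine ⟨max X₁ 31, le_max_right _ _, fun X F hX hF => ?_⟩
  have hX31 : (31 : ℝ) ≤ X := (le_max_right _ _).trans hX
  obtain ⟨has, hu0, huu, hlu1, -, hsum⟩ := hX₁ X ((le_max_left _ _).trans hX)
  have hX0 : 0 < X := by linarith
  have hX1 : 1 ≤ X := by linarith
  obtain ⟨L, hL⟩ : ∃ L : ℝ, L = Real.log X := ⟨_, rfl⟩
  obtain ⟨u, hu⟩ : ∃ u : ℝ, u = uu μ (6 * lam₂) (Real.log X) := ⟨_, rfl⟩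
  rw [← hu] at hu0 huu hlu1 hsum ⊢
  rw [← hL] at hlu1 hsum has ⊢
  have hu1 : u ≤ 1 := by linarith
  have hS16 : 8 * μ * (6 * lam₂) * L = 48 * μ * lam₂ * L := by ring
  rw [hS16] at hsum
  obtain ⟨S, hS⟩ : ∃ S : ℝ, S = √(48 * μ * lam₂ * L / Real.log L) := ⟨_, rfl⟩
  rw [← hS] at hsum has ⊢
  have hS0 : 0 ≤ S := by rw [hS]; exact Real.sqrt_nonneg _
  have hlogX : 3 ≤ L := by
    rw [hL, Real.le_log_iff_exp_le hX0]
    have h1 := Real.exp_one_lt_d9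
    have h2 : Real.exp 3 = Real.exp 1 ^ 3 := by rw [← Real.exp_nat_mul]; norm_num
    rw [h2]
    have h3 : Real.exp 1 ^ 3 ≤ 2.72 ^ 3 := pow_le_pow_left₀ (Real.exp_pos _).le (by linarith) 3
    norm_num at h3
    linarith
  have hlogu : 0 < Real.log (1 / u) := Real.log_pos (by rw [lt_div_iff₀ hu0]; linarith)
  -- the generating function
  obtain ⟨G, hGd⟩ : ∃ G : ℝ, G = Real.exp ((1 + ε / 4) * μ / (u * Real.log (1 / u))) := ⟨_, rfl⟩
  have hG0 : 0 < G := by rw [hGd]; exact Real.exp_pos _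
  have hw : ∀ p t', 0 ≤ wf u p t' := fun p t' => hwf u p t'
  have huu' : u < u₀' := huu.trans_le (by rw [hu₀d]; exact min_le_left _ _)
  have huu1 : u < u₁ := huu.trans_le (by rw [hu₀d]; exact min_le_right _ _)
  have hGF : ∀ D : Finset ℕ, (∀ n ∈ D, 1 ≤ n) →
      ∑ n ∈ D, ww (wf u) n * (n : ℝ) ^ (-u) / rd n ≤ G := by
    intro D hD
    refine (hgen u hu0 huu' D hD).trans (le_of_eq ?_)
    rw [hGd]
    congr 1
    ring
  obtain ⟨P, hP⟩ : ∃ P : ℝ, P = Real.exp ((5 - 6 * lam) * L) := ⟨_, rfl⟩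
  have hP0 : 0 < P := by rw [hP]; exact Real.exp_pos _
  have hXP : X ^ (5 - 6 * lam) = P := by
    rw [Real.rpow_def_of_pos hX0, hP, hL]
    congr 1; ring
  have hX4 : X ^ 4 ≤ P := by
    rw [← hXP, ← Real.rpow_natCast X 4]
    apply Real.rpow_le_rpow_of_exponent_le hX1
    push_cast
    linarith
  obtain ⟨Q, hQ⟩ : ∃ Q : ℝ, Q = Real.exp (u * (6 * lam₂) * L) * G := ⟨_, rfl⟩
  have hQ0 : 0 < Q := by rw [hQ]; positivity
  have hBd : ∑ x ∈ F, Th (wf u) (nq x.1 x.2) x.1 x.2 ≤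
      (12 * Real.log X) ^ 2 * (C * (64 * K * K₂ * P * Q + 16 * G₁ * P)) := by
    refine assemble hX31 _ _ (by positivity) F
      (fun x hx => ⟨(hF x hx).1.1, (hF x hx).1.2.1, (hF x hx).1.2.2.1, (hF x hx).1.2.2.2.1⟩) ?_
    intro A Y F' hA1 hA2 hY1 hYA hF'F hF'
    have hsX1 : 1 ≤ √X := by rw [Real.one_le_sqrt]; exact hX1
    have hA1' : 1 ≤ A := hsX1.trans hA1
    have hA0 : 0 < A := by linarith
    have hY0 : 0 < Y := by linarith
    by_cases hne : F'.Nonempty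
    swap
    · rw [Finset.not_nonempty_iff_eq_empty] at hne
      rw [hne, Finset.sum_empty]
      positivity
    have eA : ∀ s : ℝ, (A ^ 6) ^ s = A ^ (6 * s) := by
      intro s
      rw [← Real.rpow_natCast A 6, ← Real.rpow_mul hA0.le]
      congr 1
    obtain ⟨T, hT⟩ : ∃ T : ℝ, T = Y / (2 * K * A ^ (6 * (1 - lam))) := ⟨_, rfl⟩
    have hQA : 0 < A ^ (6 * (1 - lam)) := by positivity
    have hT0 : 0 < T := by rw [hT]; positivity
    have hYT : Y = T * (2 * K * A ^ (6 * (1 - lam))) := by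
      rw [hT]; field_simp
    -- the upper bound for `T`
    have hTu : T ≤ K₂ * X ^ (6 * lam₂) := by
      obtain ⟨x, hx⟩ := hne
      obtain ⟨-, hxD⟩ := hF x (hF'F hx)
      obtain ⟨b1, b2, b3, b4⟩ := hF' x hx
      have hMp : (0 : ℝ) ≤ Mx x.1 x.2 := le_trans (abs_nonneg _) (le_max_right _ _)
      have h1 : Mx x.1 x.2 ^ (1 - lam) ≤ A ^ (6 * (1 - lam)) := by
        rw [← eA]
        exact Real.rpow_le_rpow hMp b2 (by linarith)
      have h2 : Y < 2 * (K₂ * X ^ (6 * lam₂) * A ^ (6 * (1 - lam))) := by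
        have := mul_le_mul_of_nonneg_left h1 (show 0 ≤ K₂ * X ^ (6 * lam₂) by positivity)
        linarith
      rw [hT, div_le_iff₀ (by positivity)]
      have h3 : 0 ≤ K₂ * X ^ (6 * lam₂) * A ^ (6 * (1 - lam)) := by positivity
      calc Y ≤ 2 * (K₂ * X ^ (6 * lam₂) * A ^ (6 * (1 - lam))) := h2.le
        _ ≤ 2 * (K₂ * X ^ (6 * lam₂) * A ^ (6 * (1 - lam))) * K :=
            le_mul_of_one_le_right (by positivity) hK
        _ = _ := by ring
    -- the block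
    have h64 : ∀ s : ℝ, 0 ≤ s → s ≤ 1 → (64 : ℝ) ^ s ≤ 64 := by
      intro s _ hs1
      calc (64 : ℝ) ^ s ≤ 64 ^ (1 : ℝ) := Real.rpow_le_rpow_of_exponent_le (by norm_num) hs1
        _ = 64 := Real.rpow_one 64
    have hmem : ∀ x ∈ F', Mn x.1 x.2 ∧ Rg A Y x.1 x.2 ∧ T ≤ nq x.1 x.2 ∧
        (nq x.1 x.2 : ℝ) ≤ A := by
      intro x hx
      obtain ⟨⟨g1, g2, g3, g4, g5, g6, g7⟩, -⟩ := hF x (hF'F hx)
      obtain ⟨b1, b2, b3, b4⟩ := hF' x hx
      have hMp : (0 : ℝ) ≤ Mx x.1 x.2 := le_trans (abs_nonneg _) (le_max_right _ _)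
      have hsz := upg_size hA0.le b2
      have hnq := nq_real g1.1
      have hNc : (0 : ℝ) < Nc x.1 x.2 := by exact_mod_cast Nc_pos x.1 x.2
      have hup : ∀ s : ℝ, 0 ≤ s → s ≤ 1 → A ^ (6 * s) ≤ 64 * Mx x.1 x.2 ^ s := by
        intro s hs0 hs1
        rw [← eA]
        calc (A ^ 6) ^ s ≤ (64 * Mx x.1 x.2) ^ s := Real.rpow_le_rpow (by positivity) b1 hs0
          _ = 64 ^ s * Mx x.1 x.2 ^ s := Real.mul_rpow (by norm_num) hMp
          _ ≤ 64 * Mx x.1 x.2 ^ s :=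
              mul_le_mul_of_nonneg_right (h64 s hs0 hs1) (Real.rpow_nonneg hMp s)
      refine ⟨g1, ⟨hsz.1, hsz.2, b1, b4⟩, ?_, ?_⟩
      · rw [hT, div_le_iff₀ (by positivity)]
        have h1 : Mx x.1 x.2 ^ (1 - lam) ≤ A ^ (6 * (1 - lam)) := by
          rw [← eA]
          exact Real.rpow_le_rpow hMp b2 (by linarith)
        have h2 : (nq x.1 x.2 : ℝ) * Nc x.1 x.2 ≤ nq x.1 x.2 * (K * A ^ (6 * (1 - lam))) := by
          apply mul_le_mul_of_nonneg_left _ (Nat.cast_nonneg _)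
          exact g5.trans (mul_le_mul_of_nonneg_left h1 hK0.le)
        rw [← hnq] at h2
        calc Y ≤ 2 * |((Dd x.1 x.2 : ℤ) : ℝ)| := by linarith
          _ ≤ 2 * (nq x.1 x.2 * (K * A ^ (6 * (1 - lam)))) := by linarith
          _ = _ := by ring
      · -- `n₀ = |D| / N₆ ≤ A⁶ / (2 K A^(6(1 - λ')))`
        have h1 := hup (1 - (1 / 12 + lam / 2)) (by linarith) (by linarith)
        have h2 : 2 * K * A ^ (6 * (1 - (1 / 12 + lam / 2))) ≤ Nc x.1 x.2 := by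
          refine le_trans ?_ g7
          calc 2 * K * A ^ (6 * (1 - (1 / 12 + lam / 2)))
              ≤ 2 * K * (64 * Mx x.1 x.2 ^ (1 - (1 / 12 + lam / 2))) :=
                mul_le_mul_of_nonneg_left h1 (by positivity)
            _ = _ := by ring
        have h3 : A ^ (6 : ℝ) = A ^ (6 * (1 - (1 / 12 + lam / 2))) * A ^ (1 / 2 + 3 * lam) := by
          rw [← Real.rpow_add hA0]
          congr 1; ring
        have h4 : A ^ (1 / 2 + 3 * lam) ≤ A := by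
          calc A ^ (1 / 2 + 3 * lam) ≤ A ^ (1 : ℝ) :=
                Real.rpow_le_rpow_of_exponent_le hA1' (by linarith)
            _ = A := Real.rpow_one A
        have h5 : |((Dd x.1 x.2 : ℤ) : ℝ)| ≤ A ^ (6 : ℝ) := by
          have e : A ^ (6 : ℝ) = A ^ 6 := by
            rw [← Real.rpow_natCast A 6]
            norm_num
          rw [e]
          exact b4.trans hYA
        rw [hnq, h3] at h5
        have h6 : 0 < A ^ (6 * (1 - (1 / 12 + lam / 2))) := by positivity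
        have h7 : A ^ (6 * (1 - (1 / 12 + lam / 2))) ≤ Nc x.1 x.2 := by
          refine le_trans ?_ h2
          have : (1 : ℝ) ≤ 2 * K := by linarith
          calc A ^ (6 * (1 - (1 / 12 + lam / 2))) = 1 * A ^ (6 * (1 - (1 / 12 + lam / 2))) :=
                (one_mul _).symm
            _ ≤ _ := mul_le_mul_of_nonneg_right this h6.le
        have h8 : (nq x.1 x.2 : ℝ) * Nc x.1 x.2 ≤ A * Nc x.1 x.2 := by
          calc (nq x.1 x.2 : ℝ) * Nc x.1 x.2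
              ≤ A ^ (6 * (1 - (1 / 12 + lam / 2))) * A ^ (1 / 2 + 3 * lam) := h5
            _ ≤ Nc x.1 x.2 * A := mul_le_mul h7 h4 (by positivity) hNc.le
            _ = _ := mul_comm _ _
        exact le_of_mul_le_mul_right h8 hNc
    have hb := hblock (wf u) hw A Y T u G (G₁ * A ^ 2) hA1' hY1 hT0 hu0 hu1 hGF
      (hcrude u hu0 huu1 A hA1') F' hmem
    refine hb.trans ?_
    apply mul_le_mul_of_nonneg_left _ hC.le
    have hA2' : A ^ 2 * (G₁ * A ^ 2) ≤ 16 * G₁ * P := by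
      calc A ^ 2 * (G₁ * A ^ 2) = G₁ * A ^ 4 := by ring
        _ ≤ G₁ * (2 * X) ^ 4 := by
            apply mul_le_mul_of_nonneg_left _ hG₁.le
            exact pow_le_pow_left₀ hA0.le hA2 4
        _ = 16 * G₁ * X ^ 4 := by ring
        _ ≤ 16 * G₁ * P := mul_le_mul_of_nonneg_left hX4 (by positivity)
    have hA3 : A ^ (6 * (1 - lam)) / A ≤ 32 * P := by
      have e1 : A ^ (6 * (1 - lam)) / A = A ^ (5 - 6 * lam) := by
        rw [show 6 * (1 - lam) = (5 - 6 * lam) + 1 by ring, Real.rpow_add hA0, Real.rpow_one]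
        field_simp
      rw [e1]
      calc A ^ (5 - 6 * lam) ≤ (2 * X) ^ (5 - 6 * lam) :=
            Real.rpow_le_rpow hA0.le hA2 (by linarith)
        _ = 2 ^ (5 - 6 * lam) * X ^ (5 - 6 * lam) := Real.mul_rpow (by norm_num) hX0.le
        _ ≤ 32 * P := by
            rw [hXP]
            apply mul_le_mul_of_nonneg_right _ hP0.le
            calc (2 : ℝ) ^ (5 - 6 * lam) ≤ 2 ^ (5 : ℝ) :=
                  Real.rpow_le_rpow_of_exponent_le (by norm_num) (by linarith)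
              _ = 32 := by
                  have : (2 : ℝ) ^ (5 : ℝ) = 2 ^ (5 : ℕ) := by
                    rw [← Real.rpow_natCast]; norm_num
                  rw [this]; norm_num
    have hTpow : T ^ u ≤ K₂ * Real.exp (u * (6 * lam₂) * L) := by
      calc T ^ u ≤ (K₂ * X ^ (6 * lam₂)) ^ u := Real.rpow_le_rpow hT0.le hTu hu0.le
        _ = K₂ ^ u * (X ^ (6 * lam₂)) ^ u := Real.mul_rpow hK₂0.le (by positivity)
        _ = K₂ ^ u * Real.exp (u * (6 * lam₂) * L) := by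
            congr 1
            rw [← Real.rpow_mul hX0.le, Real.rpow_def_of_pos hX0, ← hL]
            congr 1; ring
        _ ≤ K₂ * Real.exp (u * (6 * lam₂) * L) := by
            apply mul_le_mul_of_nonneg_right _ (Real.exp_pos _).le
            calc K₂ ^ u ≤ K₂ ^ (1 : ℝ) := Real.rpow_le_rpow_of_exponent_le hK₂ hu1
              _ = K₂ := Real.rpow_one K₂
    have hTT : T * T ^ (u - 1) = T ^ u := by
      rw [Real.rpow_sub_one hT0.ne']; field_simp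
    have hmain : Y / A * T ^ (u - 1) * G ≤ 64 * K * K₂ * P * Q := by
      calc Y / A * T ^ (u - 1) * G
          = 2 * K * (A ^ (6 * (1 - lam)) / A) * (T * T ^ (u - 1)) * G := by
            rw [hYT]
            ring
        _ = 2 * K * (A ^ (6 * (1 - lam)) / A) * T ^ u * G := by rw [hTT]
        _ ≤ 2 * K * (32 * P) * (K₂ * Real.exp (u * (6 * lam₂) * L)) * G := by
            gcongr
        _ = _ := by rw [hQ]; ring
    linarith
  refine hBd.trans ?_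
  -- the end
  have hQ1 : 1 ≤ Q := by
    rw [hQ, hGd, ← Real.exp_add]
    apply Real.one_le_exp
    positivity
  have e2 : Q ≤ Real.exp ((1 + ε / 4) * S) := by
    rw [hQ, hGd, ← Real.exp_add]
    apply Real.exp_le_exp.2
    have h1 : (1 + ε / 4 / 2) * S ≤ (1 + ε / 4) * S := by
      apply mul_le_mul_of_nonneg_right _ hS0
      linarith
    linarith
  rw [← hL]
  have e3 : (12 * L) ^ 2 * (C * (64 * K * K₂ * P * Q + 16 * G₁ * P)) ≤
      (144 * c₃ * L ^ 2) * (P * Q) := by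
    have h1 : 16 * G₁ * P ≤ 16 * G₁ * (P * Q) := by
      apply mul_le_mul_of_nonneg_left _ (by positivity)
      exact le_mul_of_one_le_right hP0.le hQ1
    calc (12 * L) ^ 2 * (C * (64 * K * K₂ * P * Q + 16 * G₁ * P))
        ≤ (12 * L) ^ 2 * (C * (64 * K * K₂ * P * Q + 16 * G₁ * (P * Q))) := by gcongr
      _ = (144 * c₃ * L ^ 2) * (P * Q) := by rw [hc₃]; ring
  refine e3.trans ?_
  have hbig : 144 * c₃ * L ^ 2 ≤ Real.exp (3 * ε / 8 * S) := by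
    have hc144 : 0 < 144 * c₃ := by positivity
    have h1 : (144 * c₃ + 60 * L) ^ 3 ≤ Real.exp (ε / 8 * S) ^ 3 :=
      pow_le_pow_left₀ (by positivity) has 3
    have h2 : Real.exp (ε / 8 * S) ^ 3 = Real.exp (3 * ε / 8 * S) := by
      rw [← Real.exp_nat_mul]; congr 1; push_cast; ring
    rw [h2] at h1
    refine le_trans ?_ h1
    have h4 : 144 * c₃ * L ^ 2 ≤ (144 * c₃ + 60 * L) * (144 * c₃ + 60 * L) ^ 2 := by
      apply mul_le_mul (by linarith) _ (by positivity) (by positivity)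
      exact pow_le_pow_left₀ (by linarith) (by linarith) 2
    calc 144 * c₃ * L ^ 2 ≤ _ := h4
      _ = (144 * c₃ + 60 * L) ^ 3 := by ring
  calc (144 * c₃ * L ^ 2) * (P * Q) ≤ Real.exp (3 * ε / 8 * S) *
        (P * Real.exp ((1 + ε / 4) * S)) :=
        mul_le_mul hbig (mul_le_mul_of_nonneg_left e2 hP0.le) (by positivity) (Real.exp_pos _).le
    _ = Real.exp ((5 - 6 * lam) * L + (1 + 5 * ε / 8) * S) := by
        rw [hP, ← Real.exp_add, ← Real.exp_add]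
        congr 1; ring
    _ ≤ _ := by
        apply Real.exp_le_exp.2
        have h1 : (1 + 5 * ε / 8) * S ≤ (1 + ε) * S := by
          apply mul_le_mul_of_nonneg_right _ hS0
          linarith
        linarith

/-- the weighted count -/
theorem main_w (h g : Fin 3 → ℝ) (hh : ∀ i, 0 ≤ h i) (hg : ∀ i, 0 ≤ g i) (t : ℝ) (ht : 1 ≤ t)
    (μ : ℝ) (hμ0 : 0 < μ) (hμ : (h 0 + h 1) * (1 - 1 / t) + (g 0 + g 1) / t ≤ μ)
    (lam lam₂ K K₂ ε : ℝ) (hl0 : 0 < lam) (hl1 : lam < 1 / 6) (hl2 : 0 < lam₂) (hK : 1 ≤ K)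
    (hK₂ : 1 ≤ K₂) (hε : 0 < ε) :
    ∃ X₀ : ℝ, 31 ≤ X₀ ∧ ∀ (X : ℝ) (F : Finset (ℤ × ℤ)), X₀ ≤ X →
      (∀ x ∈ F, Good lam K X x ∧
        |((Dd x.1 x.2 : ℤ) : ℝ)| ≤ K₂ * X ^ (6 * lam₂) * Mx x.1 x.2 ^ (1 - lam)) →
      ∑ x ∈ F, Th (wtc (uu μ (6 * lam₂) (Real.log X) ^ (-t)) h g) (nq x.1 x.2) x.1 x.2 ≤
        Real.exp ((5 - 6 * lam) * Real.log X +
          (1 + ε) * √(48 * μ * lam₂ * Real.log X / Real.log (Real.log X))) := by
  obtain ⟨B, hB⟩ : ∃ B : ℝ, B = h 0 + h 1 + h 2 + g 0 + g 1 + g 2 := ⟨_, rfl⟩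
  have hh0 := hh 0
  have hh1 := hh 1
  have hh2 := hh 2
  have hg0 := hg 0
  have hg1 := hg 1
  have hg2 := hg 2
  have hBh : ∀ i, h i ≤ B := by
    intro i
    have : i = 0 ∨ i = 1 ∨ i = 2 := by fin_cases i <;> simp
    rcases this with rfl | rfl | rfl <;> rw [hB] <;> linarith
  have hBg : ∀ i, g i ≤ B := by
    intro i
    have : i = 0 ∨ i = 1 ∨ i = 2 := by fin_cases i <;> simp
    rcases this with rfl | rfl | rfl <;> rw [hB] <;> linarith
  obtain ⟨G₁, hG₁, hcrude⟩ := crude B (by rw [hB]; linarith)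
  refine main_g (fun u => wtc (u ^ (-t)) h g) (fun u p t' => wtc_nonneg hh hg p t') μ hμ0 ?_ ?_
    lam lam₂ K K₂ ε hl0 hl1 hl2 hK hK₂ hε
  · intro ε' hε'
    obtain ⟨u₀, hu₀, hu₀2, hgen⟩ := gen_cut h g hh hg t ε' ht hε'
    refine ⟨u₀, hu₀, hu₀2, fun u hu huu F hF => (hgen u hu huu F hF).trans ?_⟩
    have hlogu : 0 < Real.log (1 / u) := Real.log_pos (by rw [lt_div_iff₀ hu]; linarith)
    apply Real.exp_le_exp.2
    apply div_le_div_of_nonneg_right _ (by positivity)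
    linarith
  · exact ⟨G₁, 1, hG₁, one_pos, fun u _ _ A hA D hD =>
      hcrude (u ^ (-t)) h g hh hg hBh hBg A hA D hD⟩

/-- the weighted count for the radical -/
theorem main_r (lam lam₂ K K₂ ε : ℝ) (hl0 : 0 < lam) (hl1 : lam < 1 / 6) (hl2 : 0 < lam₂)
    (hK : 1 ≤ K) (hK₂ : 1 ≤ K₂) (hε : 0 < ε) :
    ∃ X₀ : ℝ, 31 ≤ X₀ ∧ ∀ (X : ℝ) (F : Finset (ℤ × ℤ)), X₀ ≤ X →
      (∀ x ∈ F, Good lam K X x ∧
        |((Dd x.1 x.2 : ℤ) : ℝ)| ≤ K₂ * X ^ (6 * lam₂) * Mx x.1 x.2 ^ (1 - lam)) →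
      ∑ x ∈ F, Th (wr (uu 2 (6 * lam₂) (Real.log X))) (nq x.1 x.2) x.1 x.2 ≤
        Real.exp ((5 - 6 * lam) * Real.log X +
          (1 + ε) * √(48 * 2 * lam₂ * Real.log X / Real.log (Real.log X))) :=
  main_g wr wr_nonneg 2 two_pos gen_rad crude_rad lam lam₂ K K₂ ε hl0 hl1 hl2 hK hK₂ hε

end Pool.Agent.Run7.h585.AN
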