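import Pool.Agent.Run7.h585.AN.Typ

/-!
# Semistable curves: the Chernoff bounds (helper585)

As `Cher.lean`, for the curves all of whose relevant primes are nodes; the scale is `s1 = √(12 λ log X / log log X)`.
-/

set_option autoImplicit false

namespace Pool.Agent.Run7.h585.AN.Semi

open Finset Filter Topology Pool.Agent.N906.SZ Pool.Agent.N906.FH
open Pool.Agent.N692.FH (upg_size upg_mx upg_box)
open Pool.Agent.N163.RS (G G_nonneg)

/-- `√(12 λ log X / log log X)` -/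
noncomputable def s1 (lam X : ℝ) : ℝ := √(12 * lam * Real.log X / Real.log (Real.log X))

theorem s1_nonneg (lam X : ℝ) : 0 ≤ s1 lam X := Real.sqrt_nonneg _

/-- all primes `p ≥ 5` dividing `|D| / N₆` are nodes -/
def Nd (x : ℤ × ℤ) : Prop := ∀ p ∈ (nq x.1 x.2).primeFactors, 5 ≤ p → ty p x.1 x.2 = 0

/-- `r` at `0` and `0` elsewhere -/
def w0 (r : ℝ) (j : Fin 3) : ℝ := if j = 0 then r else 0

theorem w0_nonneg {r : ℝ} (hr : 0 ≤ r) (j : Fin 3) : 0 ≤ w0 r j := by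
  unfold w0
  split_ifs
  · exact hr
  · exact le_rfl

theorem Th_cut (z r : ℝ) {x : ℤ × ℤ} (hx : Nd x) :
    Th (wtc z (w0 r) (w0 1)) (nq x.1 x.2) x.1 x.2 = r ^ cntT 0 z x := by
  classical
  unfold Th cntT
  have e : ∀ p ∈ (nq x.1 x.2).primeFactors.filter (fun p => 5 ≤ p),
      wtc z (w0 r) (w0 1) p (ty p x.1 x.2) =
      if (ty p x.1 x.2 = 0 ∧ (p : ℝ) ≤ z) then r else 1 := by
    intro p hp
    rw [mem_filter] at hp
    have h0 := hx p hp.1 hp.2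
    unfold wtc w0
    rw [h0, if_pos rfl, if_pos rfl]
    by_cases h1 : (p : ℝ) ≤ z
    · rw [if_pos h1, if_pos ⟨rfl, h1⟩]
    · rw [if_neg h1, if_neg (fun h => h1 h.2)]
  rw [Finset.prod_congr rfl e, Finset.prod_ite, Finset.prod_const, Finset.prod_const_one, mul_one,
    Finset.filter_filter]

theorem Th_all (z r : ℝ) {x : ℤ × ℤ} (hx : Nd x) :
    Th (wtc z (w0 r) (w0 r)) (nq x.1 x.2) x.1 x.2 = r ^ cntA 0 x := by
  classical
  unfold Th cntA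
  have e : ∀ p ∈ (nq x.1 x.2).primeFactors.filter (fun p => 5 ≤ p),
      wtc z (w0 r) (w0 r) p (ty p x.1 x.2) =
      if (ty p x.1 x.2 = 0) then r else 1 := by
    intro p hp
    rw [mem_filter] at hp
    have h0 := hx p hp.1 hp.2
    unfold wtc w0
    rw [h0, if_pos rfl, if_pos rfl, ite_self]
  rw [Finset.prod_congr rfl e, Finset.prod_ite, Finset.prod_const, Finset.prod_const_one, mul_one,
    Finset.filter_filter]

/-- the general Chernoff bound -/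
theorem cher0 (h g : Fin 3 → ℝ) (hh : ∀ i, 0 ≤ h i) (hg : ∀ i, 0 ≤ g i) (t : ℝ) (ht : 1 ≤ t)
    (μ : ℝ) (hμ0 : 0 < μ) (hμ : (h 0 + h 1) * (1 - 1 / t) + (g 0 + g 1) / t ≤ μ)
    (lam lam₂ K K₂ c : ℝ) (hl0 : 0 < lam) (hl1 : lam < 1 / 6) (hl2 : 0 < lam₂) (hK : 1 ≤ K)
    (hK₂ : 1 ≤ K₂) (hc : √(4 * μ * lam₂ / lam) - c < 2) :
    ∃ δ X₀ : ℝ, 0 < δ ∧ 31 ≤ X₀ ∧ ∀ (X : ℝ) (F : Finset (ℤ × ℤ)), X₀ ≤ X →
      (∀ x ∈ F, Good lam K X x ∧
        |((Dd x.1 x.2 : ℤ) : ℝ)| ≤ K₂ * X ^ (6 * lam₂) * Mx x.1 x.2 ^ (1 - lam) ∧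
        Real.exp (c * s1 lam X) ≤
          Th (wtc (uu μ (6 * lam₂) (Real.log X) ^ (-t)) h g) (nq x.1 x.2) x.1 x.2) →
      (F.card : ℝ) ≤ Real.exp ((5 - 6 * lam) * Real.log X + (2 - δ) * s1 lam X) := by
  obtain ⟨ρ, hρ⟩ : ∃ ρ : ℝ, ρ = √(4 * μ * lam₂ / lam) := ⟨_, rfl⟩
  have hρ0 : 0 ≤ ρ := by rw [hρ]; exact Real.sqrt_nonneg _
  rw [← hρ] at hc
  obtain ⟨ε, hε⟩ : ∃ ε : ℝ, ε = (2 - ρ + c) / (2 * (ρ + 1)) := ⟨_, rfl⟩
  have hε0 : 0 < ε := by rw [hε]; apply div_pos <;> linarith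
  have hερ : ε * ρ ≤ (2 - ρ + c) / 2 := by
    rw [hε, div_mul_eq_mul_div, div_le_div_iff₀ (by positivity) (by norm_num)]
    nlinarith
  obtain ⟨X₀, hX₀, hm⟩ := main_w h g hh hg t ht μ hμ0 hμ lam lam₂ K K₂ ε hl0 hl1 hl2 hK hK₂ hε0
  refine ⟨(2 - ρ + c) / 2, X₀, by linarith, hX₀, fun X F hX hF => ?_⟩
  have h1 := hm X F hX (fun x hx => ⟨(hF x hx).1, (hF x hx).2.1⟩)
  have h2 : (F.card : ℝ) * Real.exp (c * s1 lam X) ≤
      ∑ x ∈ F, Th (wtc (uu μ (6 * lam₂) (Real.log X) ^ (-t)) h g) (nq x.1 x.2) x.1 x.2 := by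
    rw [← nsmul_eq_mul]
    exact Finset.card_nsmul_le_sum _ _ _ (fun x hx => (hF x hx).2.2)
  have hX31 : (31 : ℝ) ≤ X := hX₀.trans hX
  have hX0 : 0 < X := by linarith
  have hlogX : 3 ≤ Real.log X := by
    rw [Real.le_log_iff_exp_le hX0]
    have h1 := Real.exp_one_lt_d9
    have h2 : Real.exp 3 = Real.exp 1 ^ 3 := by rw [← Real.exp_nat_mul]; norm_num
    rw [h2]
    have h3 : Real.exp 1 ^ 3 ≤ 2.72 ^ 3 := pow_le_pow_left₀ (Real.exp_pos _).le (by linarith) 3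
    norm_num at h3
    linarith
  have hllX : 0 < Real.log (Real.log X) := Real.log_pos (by linarith)
  have h3 : √(48 * μ * lam₂ * Real.log X / Real.log (Real.log X)) = ρ * s1 lam X := by
    rw [hρ, s1, ← Real.sqrt_mul (by positivity)]
    congr 1
    field_simp
    ring
  rw [h3] at h1
  have h4 := h2.trans h1
  have h5 : (F.card : ℝ) ≤ Real.exp ((5 - 6 * lam) * Real.log X + (1 + ε) * (ρ * s1 lam X)) *
      Real.exp (-(c * s1 lam X)) := by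
    have h6 : (F.card : ℝ) = (F.card : ℝ) * Real.exp (c * s1 lam X) *
        Real.exp (-(c * s1 lam X)) := by
      rw [mul_assoc, ← Real.exp_add, add_neg_cancel, Real.exp_zero, mul_one]
    rw [h6]
    exact mul_le_mul_of_nonneg_right h4 (Real.exp_pos _).le
  refine h5.trans ?_
  rw [← Real.exp_add]
  apply Real.exp_le_exp.2
  have h7 := s1_nonneg lam X
  have h8 : ε * ρ * s1 lam X ≤ (2 - ρ + c) / 2 * s1 lam X := mul_le_mul_of_nonneg_right hερ h7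
  linarith [show (1 + ε) * (ρ * s1 lam X) = ρ * s1 lam X + ε * ρ * s1 lam X by ring,
    show (2 - (2 - ρ + c) / 2) * s1 lam X = ρ * s1 lam X - c * s1 lam X +
      (2 - ρ + c) / 2 * s1 lam X by ring]

/-- `√(4 (1 + y)) ≤ 2 + y` -/
theorem sqrt_tan {y : ℝ} (hy : -1 ≤ y) : √(4 * (1 + y)) ≤ 2 + y := by
  rw [Real.sqrt_le_left (by linarith)]
  nlinarith [sq_nonneg y]

theorem w0_sum (r : ℝ) : w0 r 0 + w0 r 1 = r := by
  unfold w0
  rw [if_pos rfl, if_neg (by decide), add_zero]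

/-- upper tail -/
theorem cher_up (t lam K ε : ℝ) (ht : 1 ≤ t) (hl0 : 0 < lam)
    (hl1 : lam < 1 / 6) (hK : 1 ≤ K) (hε : 0 < ε) (hε1 : ε ≤ 1) :
    ∃ δ X₀ : ℝ, 0 < δ ∧ 31 ≤ X₀ ∧ ∀ (X : ℝ) (F : Finset (ℤ × ℤ)), X₀ ≤ X →
      (∀ x ∈ F, Good lam K X x ∧ Nd x ∧
        (1 - 1 / t + ε) * s1 lam X ≤ cntT 0 (Real.log X ^ (t / 2)) x) →
      (F.card : ℝ) ≤ Real.exp ((5 - 6 * lam) * Real.log X + (2 - δ) * s1 lam X) := by
  obtain ⟨ν, hν⟩ : ∃ ν : ℝ, ν = ε / 2 := ⟨_, rfl⟩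
  have hν0 : 0 < ν := by rw [hν]; positivity
  have hν1 : ν ≤ 1 := by rw [hν]; linarith
  have ht0 : 0 < t := by linarith
  obtain ⟨θ, hθ⟩ : ∃ θ : ℝ, θ = 1 - 1 / t := ⟨_, rfl⟩
  have hθ1 : θ ≤ 1 := by
    rw [hθ]
    have : 0 < 1 / t := by positivity
    linarith
  have hθ0 : 0 ≤ θ := by
    rw [hθ]
    have : 1 / t ≤ 1 := by rw [div_le_one ht0]; exact ht
    linarith
  have he := exp_le_quad hν0.le hν1
  have he1 : 1 ≤ Real.exp ν := Real.one_le_exp hν0.le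
  obtain ⟨y, hy⟩ : ∃ y : ℝ, y = (Real.exp ν - 1) * θ := ⟨_, rfl⟩
  have hy0 : 0 ≤ y := by rw [hy]; exact mul_nonneg (by linarith) hθ0
  have hyu : y ≤ ν * θ + ν ^ 2 := by
    rw [hy]
    have h1 : (Real.exp ν - 1) * θ ≤ (ν + ν ^ 2) * θ := mul_le_mul_of_nonneg_right (by linarith) hθ0
    have h2 : ν ^ 2 * θ ≤ ν ^ 2 * 1 := mul_le_mul_of_nonneg_left hθ1 (by positivity)
    linarith
  have hμ : (w0 (Real.exp ν) 0 + w0 (Real.exp ν) 1) * (1 - 1 / t) +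
      (w0 1 0 + w0 1 1) / t ≤ 1 + y := by
    rw [w0_sum, w0_sum, hy, ← hθ, show (1 : ℝ) / t = 1 - θ by rw [hθ]; ring]
    apply le_of_eq
    ring
  have hcc : √(4 * (1 + y) * lam / lam) - ν * (θ + ε) < 2 := by
    rw [mul_div_cancel_right₀ _ hl0.ne']
    have h1 := sqrt_tan (y := y) (by linarith)
    have h2 : ν ^ 2 < ν * ε := by
      rw [hν]
      nlinarith
    linarith [show ν * (θ + ε) = ν * θ + ν * ε by ring]
  obtain ⟨δ, X₁, hδ, hX₁, hch⟩ := cher0 (w0 (Real.exp ν)) (w0 1)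
    (w0_nonneg (Real.exp_pos _).le) (w0_nonneg zero_le_one) t ht (1 + y) (by linarith) hμ
    lam lam K 64 (ν * (θ + ε)) hl0 hl1 hl0 hK (by norm_num) hcc
  have hnum := Real.tendsto_log_atTop.eventually
    (numx (κ := 6 * lam) (ε := 1) (u₀ := 1) (μ := 1 + y) (by positivity) one_pos one_pos
      (by linarith))
  obtain ⟨X₂, hX₂⟩ := eventually_atTop.1 hnum
  refine ⟨δ, max X₁ X₂, hδ, hX₁.trans (le_max_left _ _), fun X F hX hF => ?_⟩
  have hX31 : (31 : ℝ) ≤ X := (hX₁.trans (le_max_left _ _)).trans hX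
  have hX0 : 0 < X := by linarith
  obtain ⟨hu0, hu1, hlu, -, -⟩ := hX₂ X ((le_max_right _ _).trans hX)
  refine hch X F ((le_max_left _ _).trans hX) (fun x hx => ?_)
  obtain ⟨hg, hnd, hcnt⟩ := hF x hx
  refine ⟨hg, D_box hl0 hl1 (by linarith) hg.2.1 hg.2.2.1, ?_⟩
  rw [Th_cut _ _ hnd, ← Real.exp_nat_mul]
  apply Real.exp_le_exp.2
  have hz : Real.log X ^ (t / 2) ≤ uu (1 + y) (6 * lam) (Real.log X) ^ (-t) := by
    have hlogX : 1 ≤ Real.log X := by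
      rw [Real.le_log_iff_exp_le hX0]
      have h1 := Real.exp_one_lt_d9
      linarith
    have hlX0 : 0 < Real.log X := by linarith
    rw [Real.rpow_def_of_pos hlX0, Real.rpow_def_of_pos hu0]
    apply Real.exp_le_exp.2
    rw [one_div, Real.log_inv] at hlu
    nlinarith
  have h1 : (cntT 0 (Real.log X ^ (t / 2)) x : ℝ) ≤
      cntT 0 (uu (1 + y) (6 * lam) (Real.log X) ^ (-t)) x := by
    exact_mod_cast cntT_mono 0 hz x
  rw [← hθ] at hcnt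
  calc ν * (θ + ε) * s1 lam X = ν * ((θ + ε) * s1 lam X) := by ring
    _ ≤ ν * cntT 0 (uu (1 + y) (6 * lam) (Real.log X) ^ (-t)) x :=
        mul_le_mul_of_nonneg_left (hcnt.trans h1) hν0.le
    _ = _ := by ring

/-- upper tail for all primes -/
theorem cher_all (lam K ε : ℝ) (hl0 : 0 < lam)
    (hl1 : lam < 1 / 6) (hK : 1 ≤ K) (hε : 0 < ε) (hε1 : ε ≤ 1) :
    ∃ δ X₀ : ℝ, 0 < δ ∧ 31 ≤ X₀ ∧ ∀ (X : ℝ) (F : Finset (ℤ × ℤ)), X₀ ≤ X →
      (∀ x ∈ F, Good lam K X x ∧ Nd x ∧ (1 + ε) * s1 lam X ≤ cntA 0 x) →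
      (F.card : ℝ) ≤ Real.exp ((5 - 6 * lam) * Real.log X + (2 - δ) * s1 lam X) := by
  obtain ⟨ν, hν⟩ : ∃ ν : ℝ, ν = ε / 2 := ⟨_, rfl⟩
  have hν0 : 0 < ν := by rw [hν]; positivity
  have hν1 : ν ≤ 1 := by rw [hν]; linarith
  have he := exp_le_quad hν0.le hν1
  have he1 : 1 ≤ Real.exp ν := Real.one_le_exp hν0.le
  obtain ⟨y, hy⟩ : ∃ y : ℝ, y = Real.exp ν - 1 := ⟨_, rfl⟩
  have hμ : (w0 (Real.exp ν) 0 + w0 (Real.exp ν) 1) * (1 - 1 / 1) +
      (w0 (Real.exp ν) 0 + w0 (Real.exp ν) 1) / 1 ≤ 1 + y := by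
    rw [w0_sum, hy]
    apply le_of_eq
    ring
  have hcc : √(4 * (1 + y) * lam / lam) - ν * (1 + ε) < 2 := by
    rw [mul_div_cancel_right₀ _ hl0.ne']
    have h1 := sqrt_tan (y := y) (by linarith)
    have h2 : ν ^ 2 < ν * ε := by
      rw [hν]
      nlinarith
    linarith [show ν * (1 + ε) = ν + ν * ε by ring]
  obtain ⟨δ, X₁, hδ, hX₁, hch⟩ := cher0 (w0 (Real.exp ν)) (w0 (Real.exp ν))
    (w0_nonneg (Real.exp_pos _).le) (w0_nonneg (Real.exp_pos _).le) 1 le_rfl (1 + y)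
    (by linarith) hμ lam lam K 64 (ν * (1 + ε)) hl0 hl1 hl0 hK (by norm_num) hcc
  refine ⟨δ, X₁, hδ, hX₁, fun X F hX hF => ?_⟩
  have hX31 : (31 : ℝ) ≤ X := hX₁.trans hX
  refine hch X F hX (fun x hx => ?_)
  obtain ⟨hg, hnd, hcnt⟩ := hF x hx
  refine ⟨hg, D_box hl0 hl1 (by linarith) hg.2.1 hg.2.2.1, ?_⟩
  rw [Th_all _ _ hnd, ← Real.exp_nat_mul]
  apply Real.exp_le_exp.2
  calc ν * (1 + ε) * s1 lam X = ν * ((1 + ε) * s1 lam X) := by ring
    _ ≤ ν * cntA 0 x := mul_le_mul_of_nonneg_left hcnt hν0.le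
    _ = _ := by ring

/-- lower tail -/
theorem cher_lo (t lam K ε : ℝ) (ht : 1 < t) (hl0 : 0 < lam)
    (hl1 : lam < 1 / 6) (hK : 1 ≤ K) (hε : 0 < ε) (hε1 : ε ≤ 1) :
    ∃ δ X₀ : ℝ, 0 < δ ∧ 31 ≤ X₀ ∧ ∀ (X : ℝ) (F : Finset (ℤ × ℤ)), X₀ ≤ X →
      (∀ x ∈ F, Good lam K X x ∧ Nd x ∧
        (cntT 0 (Real.log X ^ (t / 2)) x : ℝ) ≤ (1 - 1 / t - ε) * s1 lam X) →
      (F.card : ℝ) ≤ Real.exp ((5 - 6 * lam) * Real.log X + (2 - δ) * s1 lam X) := by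
  obtain ⟨ν, hν⟩ : ∃ ν : ℝ, ν = ε / 4 := ⟨_, rfl⟩
  have hν0 : 0 < ν := by rw [hν]; positivity
  have hν1 : ν ≤ 1 := by rw [hν]; linarith
  have ht0 : 0 < t := by linarith
  -- the smaller `t'`
  obtain ⟨t', ht'⟩ : ∃ t' : ℝ, t' = max 1 (t / (1 + ε / 2)) := ⟨_, rfl⟩
  have ht'1 : 1 ≤ t' := by rw [ht']; exact le_max_left _ _
  have ht'0 : 0 < t' := by linarith
  have ht't : t' < t := by
    rw [ht']
    refine max_lt ht ?_
    rw [div_lt_iff₀ (by positivity)]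
    nlinarith
  have hinv : 1 / t' ≤ 1 / t + ε / 2 := by
    have h1 : t / (1 + ε / 2) ≤ t' := by rw [ht']; exact le_max_right _ _
    have h2 : 1 / t' ≤ 1 / (t / (1 + ε / 2)) := one_div_le_one_div_of_le (by positivity) h1
    refine h2.trans ?_
    rw [one_div_div]
    have h3 : (1 + ε / 2) / t = 1 / t + ε / 2 / t := by ring
    have h4 : ε / 2 / t ≤ ε / 2 := div_le_self (by positivity) ht.le
    linarith
  obtain ⟨θ, hθ⟩ : ∃ θ : ℝ, θ = 1 - 1 / t' := ⟨_, rfl⟩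
  have hθ1 : θ ≤ 1 := by
    rw [hθ]
    have : 0 < 1 / t' := by positivity
    linarith
  have hθ0 : 0 ≤ θ := by
    rw [hθ]
    have : 1 / t' ≤ 1 := by rw [div_le_one ht'0]; exact ht'1
    linarith
  have he := exp_neg_le_quad hν0.le hν1
  have he0 : 0 < Real.exp (-ν) := Real.exp_pos _
  obtain ⟨y, hy⟩ : ∃ y : ℝ, y = (Real.exp (-ν) - 1) * θ := ⟨_, rfl⟩
  have hE1 : Real.exp (-ν) ≤ 1 := Real.exp_le_one_iff.2 (by linarith)
  have hy1 : -1 < y := by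
    rw [hy]
    nlinarith [mul_nonneg (sub_nonneg.2 hE1) (sub_nonneg.2 hθ1)]
  have hyu : y ≤ -(ν * θ) + ν ^ 2 := by
    rw [hy]
    have h1 : (Real.exp (-ν) - 1) * θ ≤ (-ν + ν ^ 2) * θ :=
      mul_le_mul_of_nonneg_right (by linarith) hθ0
    have h2 : ν ^ 2 * θ ≤ ν ^ 2 * 1 := mul_le_mul_of_nonneg_left hθ1 (by positivity)
    linarith
  have hμ : (w0 (Real.exp (-ν)) 0 + w0 (Real.exp (-ν)) 1) * (1 - 1 / t') +
      (w0 1 0 + w0 1 1) / t' ≤ 1 + y := by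
    rw [w0_sum, w0_sum, hy, ← hθ, show (1 : ℝ) / t' = 1 - θ by rw [hθ]; ring]
    apply le_of_eq
    ring
  have hcc : √(4 * (1 + y) * lam / lam) - (-(ν * (1 - 1 / t - ε))) < 2 := by
    rw [mul_div_cancel_right₀ _ hl0.ne']
    have h1 := sqrt_tan (y := y) (by linarith)
    have h2 : ν ^ 2 < ν * (ε / 2) := by
      rw [hν]
      nlinarith
    have h3 : ν * (1 - 1 / t) ≤ ν * (θ + ε / 2) := by
      apply mul_le_mul_of_nonneg_left _ hν0.le
      rw [hθ]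
      linarith
    linarith [show ν * (1 - 1 / t - ε) = ν * (1 - 1 / t) - ν * ε by ring,
      show ν * (θ + ε / 2) = ν * θ + ν * (ε / 2) by ring,
      show ν * ε = ν * (ε / 2) + ν * (ε / 2) by ring]
  obtain ⟨δ, X₁, hδ, hX₁, hch⟩ := cher0 (w0 (Real.exp (-ν))) (w0 1)
    (w0_nonneg (Real.exp_pos _).le) (w0_nonneg zero_le_one) t' ht'1 (1 + y) (by linarith) hμ
    lam lam K 64 (-(ν * (1 - 1 / t - ε))) hl0 hl1 hl0 hK (by norm_num) hcc
  obtain ⟨η, hη⟩ : ∃ η : ℝ, η = (t / t' - 1) / 2 := ⟨_, rfl⟩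
  have hη0 : 0 < η := by
    rw [hη]
    have : 1 < t / t' := by rw [one_lt_div ht'0]; exact ht't
    linarith
  have hηt : t' * (1 / 2 + η) = t / 2 := by
    rw [hη]
    field_simp
    ring
  have hnum := Real.tendsto_log_atTop.eventually
    (numx (κ := 6 * lam) (ε := η) (u₀ := 1) (μ := 1 + y) (by positivity) hη0 one_pos
      (by linarith))
  obtain ⟨X₂, hX₂⟩ := eventually_atTop.1 hnum
  refine ⟨δ, max X₁ X₂, hδ, hX₁.trans (le_max_left _ _), fun X F hX hF => ?_⟩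
  have hX31 : (31 : ℝ) ≤ X := (hX₁.trans (le_max_left _ _)).trans hX
  have hX0 : 0 < X := by linarith
  obtain ⟨hu0, hu1, -, hlu, -⟩ := hX₂ X ((le_max_right _ _).trans hX)
  refine hch X F ((le_max_left _ _).trans hX) (fun x hx => ?_)
  obtain ⟨hg, hnd, hcnt⟩ := hF x hx
  refine ⟨hg, D_box hl0 hl1 (by linarith) hg.2.1 hg.2.2.1, ?_⟩
  rw [Th_cut _ _ hnd, ← Real.exp_nat_mul]
  apply Real.exp_le_exp.2
  have hz : uu (1 + y) (6 * lam) (Real.log X) ^ (-t') ≤ Real.log X ^ (t / 2) := by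
    have hlogX : 1 ≤ Real.log X := by
      rw [Real.le_log_iff_exp_le hX0]
      have h1 := Real.exp_one_lt_d9
      linarith
    have hlX0 : 0 < Real.log X := by linarith
    rw [Real.rpow_def_of_pos hlX0, Real.rpow_def_of_pos hu0]
    apply Real.exp_le_exp.2
    rw [one_div, Real.log_inv] at hlu
    have h1 := mul_le_mul_of_nonneg_left hlu ht'0.le
    calc Real.log (uu (1 + y) (6 * lam) (Real.log X)) * -t' =
        t' * -Real.log (uu (1 + y) (6 * lam) (Real.log X)) := by ring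
      _ ≤ t' * ((1 / 2 + η) * Real.log (Real.log X)) := h1
      _ = Real.log (Real.log X) * (t' * (1 / 2 + η)) := by ring
      _ = _ := by rw [hηt]
  have h1 : (cntT 0 (uu (1 + y) (6 * lam) (Real.log X) ^ (-t')) x : ℝ) ≤
      cntT 0 (Real.log X ^ (t / 2)) x := by
    exact_mod_cast cntT_mono 0 hz x
  have h2 := mul_le_mul_of_nonneg_left (h1.trans hcnt) hν0.le
  linarith [show (cntT 0 (uu (1 + y) (6 * lam) (Real.log X) ^ (-t')) x : ℝ) * -ν =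
    -(ν * cntT 0 (uu (1 + y) (6 * lam) (Real.log X) ^ (-t')) x) by ring,
    show ν * ((1 - 1 / t - ε) * s1 lam X) = ν * (1 - 1 / t - ε) * s1 lam X by ring]

/-- the weights `p ^ (u/2)` at the nodes -/
noncomputable def wr0 (u : ℝ) (p : ℕ) (t : Fin 3) : ℝ := if t = 0 then (p : ℝ) ^ (u / 2) else 0

theorem wr0_nonneg (u : ℝ) (p : ℕ) (t : Fin 3) : 0 ≤ wr0 u p t := by
  unfold wr0
  split_ifs
  · positivity
  · exact le_rfl

theorem wr0_le (u : ℝ) (p : ℕ) (t : Fin 3) : wr0 u p t ≤ wr u p t := by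
  unfold wr0 wr
  split_ifs
  · exact le_rfl
  · positivity

/-- the generating function with the radical -/
theorem gen_rad (ε : ℝ) (hε : 0 < ε) : ∃ u₀ : ℝ, 0 < u₀ ∧ u₀ < 1 / 2 ∧ ∀ u : ℝ, 0 < u → u < u₀ →
      ∀ F : Finset ℕ, (∀ n ∈ F, 1 ≤ n) →
      ∑ n ∈ F, ww (wr0 u) n * (n : ℝ) ^ (-u) / rd n ≤
        Real.exp ((1 + ε) / (u * Real.log (1 / u))) := by
  classical
  obtain ⟨u₀, h1, h2, h3⟩ := Pool.Agent.N72.SZ.eupq 1 (1 / 2) (ε / 4) one_pos (by norm_num) le_rfl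
    (by positivity)
  have hsm := small_pow (8 * 0 + 5) (ε / 2) (by positivity)
  obtain ⟨u₁, hu₁, hu₁'⟩ := mem_nhdsGT_iff_exists_Ioo_subset.1 hsm
  have hu₁0 : (0 : ℝ) < u₁ := hu₁
  refine ⟨min u₀ u₁, lt_min h1 hu₁0, (min_le_left _ _).trans_lt h2, fun u hu huu F hF => ?_⟩
  have huu0 : u < u₀ := huu.trans_le (min_le_left _ _)
  have huu1 : u < u₁ := huu.trans_le (min_le_right _ _)
  have hsm' : (1 + 2 / u) ^ (8 * 0 + 5) ≤ Real.exp (ε / 2 / (u * Real.log (1 / u))) :=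
    hu₁' ⟨hu, huu1⟩
  have h4 := gen_fin (wr0_nonneg u) 0 hu (fun p hp => by
    unfold wr0
    rw [if_neg (by decide), zero_mul, Nat.cast_zero, zero_mul]) F hF
  have hsp : ∀ p ∈ F.biUnion Nat.primeFactors, p.Prime := by
    intro p hp
    obtain ⟨n, _, h⟩ := Finset.mem_biUnion.1 hp
    exact Nat.prime_of_mem_primeFactors h
  have h5 := h3 u hu huu0 _ hsp
  have e : ∀ p ∈ F.biUnion Nat.primeFactors,
      Real.log (1 + (wr0 u p 0 + wr0 u p 1) * G 0 u (p : ℝ)) =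
      Real.log (1 + 1 * (p : ℝ) ^ (1 / 2 * u - 1) / ((p : ℝ) ^ u - 1)) := by
    intro p hp
    have hp0 : (0 : ℝ) < p := by exact_mod_cast (hsp p hp).pos
    congr 2
    unfold wr0 G
    rw [if_pos rfl, if_neg (by decide), add_zero,
      show (1 : ℝ) / 2 * u - 1 = u / 2 + (0 * u - 1) by ring, Real.rpow_add hp0]
    ring
  rw [Finset.sum_congr rfl e] at h4
  refine h4.trans ?_
  calc _ ≤ Real.exp ((1 + ε / 4) * 1 / (u * Real.log (1 / u))) *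
        Real.exp (ε / 2 / (u * Real.log (1 / u))) :=
        mul_le_mul (Real.exp_le_exp.2 h5) hsm' (by positivity) (Real.exp_pos _).le
    _ ≤ _ := by
        rw [← Real.exp_add]
        apply Real.exp_le_exp.2
        rw [← add_div]
        apply div_le_div_of_nonneg_right _ (mul_nonneg hu.le (Real.log_nonneg (by
          rw [le_div_iff₀ hu]; linarith)))
        linarith

/-- a crude bound for the sum of the weights `wr0` -/
theorem crude_rad : ∃ G₁ u₁ : ℝ, 0 < G₁ ∧ 0 < u₁ ∧ ∀ u : ℝ, 0 < u → u < u₁ → ∀ A : ℝ, 1 ≤ A →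
    ∀ D : Finset ℕ, (∀ n ∈ D, 1 ≤ n ∧ (n : ℝ) ≤ A) → ∑ n ∈ D, ww (wr0 u) n ≤ G₁ * A ^ 2 := by
  obtain ⟨G₁, u₁, h1, h2, h3⟩ := AN.crude_rad
  refine ⟨G₁, u₁, h1, h2, fun u hu huu A hA D hD => ?_⟩
  refine le_trans (Finset.sum_le_sum fun n _ => ?_) (h3 u hu huu A hA D hD)
  exact ww_mono (wr0_nonneg u) (wr0_le u) n

/-- the weight of the radical -/
theorem Th_rad (u : ℝ) {x : ℤ × ℤ} (hx : Nd x) :
    Th (wr0 u) (nq x.1 x.2) x.1 x.2 = (rd (nq x.1 x.2) : ℝ) ^ (u / 2) := by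
  unfold Th rd
  push_cast
  rw [← Real.finsetProd_rpow _ _ (fun p _ => Nat.cast_nonneg p) _]
  refine Finset.prod_congr rfl fun p hp => ?_
  rw [mem_filter] at hp
  unfold wr0
  rw [hx p hp.1 hp.2, if_pos rfl]

/-- the curves with a large radical of `|D| / N₆` -/
theorem cher_rad (lam K ε : ℝ) (hl0 : 0 < lam) (hl1 : lam < 1 / 6) (hK : 1 ≤ K) (hε : 0 < ε) :
    ∃ δ X₀ : ℝ, 0 < δ ∧ 31 ≤ X₀ ∧ ∀ (X : ℝ) (F : Finset (ℤ × ℤ)), X₀ ≤ X →
      (∀ x ∈ F, Good lam K X x ∧ Nd x ∧ X ^ ε ≤ (rd (nq x.1 x.2) : ℝ)) →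
      (F.card : ℝ) ≤ Real.exp ((5 - 6 * lam) * Real.log X + (2 - δ) * s1 lam X) := by
  obtain ⟨c, hc⟩ : ∃ c : ℝ, c = ε / (12 * lam) := ⟨_, rfl⟩
  have hc0 : 0 < c := by rw [hc]; positivity
  obtain ⟨X₁, hX₁, hm⟩ := main_g wr0 wr0_nonneg 1 one_pos gen_rad crude_rad lam lam K 64 (c / 8) hl0
    hl1 hl0 hK (by norm_num) (by positivity)
  have hnum := Real.tendsto_log_atTop.eventually
    (numx (κ := 6 * lam) (ε := 1) (u₀ := 1) (μ := 1) (by positivity) one_pos one_pos one_pos)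
  obtain ⟨X₂, hX₂⟩ := eventually_atTop.1 hnum
  refine ⟨3 * c / 4, max X₁ X₂, by positivity, hX₁.trans (le_max_left _ _), fun X F hX hF => ?_⟩
  have hX31 : (31 : ℝ) ≤ X := (hX₁.trans (le_max_left _ _)).trans hX
  have hX0 : 0 < X := by linarith
  obtain ⟨hu0, -, -, -, -⟩ := hX₂ X ((le_max_right _ _).trans hX)
  have h1 := hm X F ((le_max_left _ _).trans hX)
    (fun x hx => ⟨(hF x hx).1, D_box hl0 hl1 (by linarith) (hF x hx).1.2.1 (hF x hx).1.2.2.1⟩)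
  have hlogX : 3 ≤ Real.log X := by
    rw [Real.le_log_iff_exp_le hX0]
    have h1 := Real.exp_one_lt_d9
    have h2 : Real.exp 3 = Real.exp 1 ^ 3 := by rw [← Real.exp_nat_mul]; norm_num
    rw [h2]
    have h3 : Real.exp 1 ^ 3 ≤ 2.72 ^ 3 := pow_le_pow_left₀ (Real.exp_pos _).le (by linarith) 3
    norm_num at h3
    linarith
  have hllX : 0 < Real.log (Real.log X) := Real.log_pos (by linarith)
  obtain ⟨u, hu⟩ : ∃ u : ℝ, u = uu 1 (6 * lam) (Real.log X) := ⟨_, rfl⟩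
  rw [← hu] at h1 hu0
  -- `u L = s₁ / (6 λ)`
  have huL : u / 2 * ε * Real.log X = c * s1 lam X := by
    have e1 : u * Real.log X = 1 / (6 * lam) * s1 lam X := by
      have e2 : 0 ≤ u * Real.log X := by positivity
      have e3 : 0 ≤ 1 / (6 * lam) * s1 lam X := mul_nonneg (by positivity) (s1_nonneg _ _)
      rw [← sq_eq_sq₀ e2 e3, mul_pow, mul_pow, hu, uu, s1, Real.sq_sqrt (by positivity),
        Real.sq_sqrt (by positivity)]
      field_simp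
      norm_num
    calc u / 2 * ε * Real.log X = ε / 2 * (u * Real.log X) := by ring
      _ = ε / 2 * (1 / (6 * lam) * s1 lam X) := by rw [e1]
      _ = _ := by rw [hc]; ring
  have h2 : (F.card : ℝ) * Real.exp (c * s1 lam X) ≤
      ∑ x ∈ F, Th (wr0 u) (nq x.1 x.2) x.1 x.2 := by
    rw [← nsmul_eq_mul]
    refine Finset.card_nsmul_le_sum _ _ _ (fun x hx => ?_)
    rw [Th_rad _ (hF x hx).2.1, ← huL]
    calc Real.exp (u / 2 * ε * Real.log X) = (X ^ ε) ^ (u / 2) := by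
          rw [← Real.rpow_mul hX0.le, Real.rpow_def_of_pos hX0]
          congr 1
          ring
      _ ≤ _ := Real.rpow_le_rpow (by positivity) (hF x hx).2.2 (by positivity)
  have h3 : √(48 * 1 * lam * Real.log X / Real.log (Real.log X)) = 2 * s1 lam X := by
    rw [s1, show (2 : ℝ) = √4 by
      rw [show (4 : ℝ) = 2 ^ 2 by norm_num]; exact (Real.sqrt_sq (by norm_num)).symm,
      ← Real.sqrt_mul (by norm_num)]
    congr 1
    ring
  rw [h3] at h1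
  have h4 := h2.trans h1
  have h5 : (F.card : ℝ) ≤ Real.exp ((5 - 6 * lam) * Real.log X + (1 + c / 8) * (2 * s1 lam X)) *
      Real.exp (-(c * s1 lam X)) := by
    have h6 : (F.card : ℝ) = (F.card : ℝ) * Real.exp (c * s1 lam X) *
        Real.exp (-(c * s1 lam X)) := by
      rw [mul_assoc, ← Real.exp_add, add_neg_cancel, Real.exp_zero, mul_one]
    rw [h6]
    exact mul_le_mul_of_nonneg_right h4 (Real.exp_pos _).le
  refine h5.trans (le_of_eq ?_)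
  rw [← Real.exp_add]
  congr 1
  ring

end Pool.Agent.Run7.h585.AN.Semi
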