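import Pool.Agent.Run7.h585.AN.STyp
import Pool.Agent.Run7.h585.AN.Fin
import Pool.Agent.N906.SS.All

/-!
# Semistable curves: the final statement (helper585)
-/

set_option autoImplicit false

namespace Pool.Agent.Run7.h585.AN.Semi

open Finset Filter Topology Pool.Agent.N906.SZ Pool.Agent.N906.FH Pool.Agent.N906.SS

/-- the product of the primes whose squares divide `D` -/
def sqp (D : ℤ) : ℕ := ∏ p ∈ D.natAbs.primeFactors with p ^ 2 ∣ D.natAbs, p

/-- the number of the primes `p ≤ y` with `p² ∣ D` -/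
noncomputable def sqn (D : ℤ) (y : ℝ) : ℕ := {p : ℕ | p.Prime ∧ (p : ℝ) ≤ y ∧ (p : ℤ) ^ 2 ∣ D}.ncard

/-- the typical discriminants -/
def TypD (σ ε X : ℝ) (D : ℤ) : Prop :=
  X ^ (6 - ε) ≤ |(D : ℝ)| ∧ X ^ (6 / σ - ε) ≤ (∏ p ∈ D.natAbs.primeFactors, p : ℕ) ∧
  (sqp D : ℝ) ≤ X ^ ε ∧
  ∀ y : ℝ, 2 ≤ y → |(sqn D y : ℝ) -
    max 0 (1 - Real.log (Real.log X) / (2 * Real.log y)) * (√(12 * (1 - 1 / σ)) * sc X)| ≤ ε * sc X

section curve

open Pool.Agent.N265.SS (rel prime_five dvd_smooth five_dvd five_dvd_a nc_le)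

variable {W : WeierstrassCurve ℤ} {a b u : ℤ}

theorem pow_dvd (hu : u = 1 ∨ u = 3) (ha : a * u ^ 4 = 27 * W.c₄) (hb : b * u ^ 6 = 54 * W.c₆)
    {p : ℕ} (hp : p.Prime) (h5 : 5 ≤ p) (k : ℕ) : (p : ℤ) ^ k ∣ Dd a b ↔ (p : ℤ) ^ k ∣ W.Δ := by
  obtain ⟨h1, h2, h3⟩ := prime_five hp h5
  have hr := rel ha hb
  have c2 : IsCoprime ((p : ℤ) ^ k) (2 ^ 8) :=
    ((Int.isCoprime_iff_gcd_eq_one.2 (by
      have := (Nat.Prime.coprime_iff_not_dvd hp (n := 2)).2 (fun h => h2 (by exact_mod_cast h))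
      exact_mod_cast this)) : IsCoprime (p : ℤ) 2).pow
  have c3 : IsCoprime (p : ℤ) 3 :=
    (Int.isCoprime_iff_gcd_eq_one.2 (by
      have := (Nat.Prime.coprime_iff_not_dvd hp (n := 3)).2 (fun h => h3 (by exact_mod_cast h))
      exact_mod_cast this))
  have c23 : IsCoprime ((p : ℤ) ^ k) (2 ^ 8 * 3 ^ 12) := c2.mul_right c3.pow
  have cu : IsCoprime ((p : ℤ) ^ k) (u ^ 12) := by
    rcases hu with rfl | rfl
    · rw [one_pow]; exact isCoprime_one_right
    · exact c3.pow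
  constructor
  · intro h
    refine c23.dvd_of_dvd_mul_left ?_
    rw [← hr]
    exact h.mul_right _
  · intro h
    refine cu.dvd_of_dvd_mul_right ?_
    rw [hr]
    exact h.mul_left _

theorem dd_ne (h0 : W.Δ ≠ 0) (ha : a * u ^ 4 = 27 * W.c₄) (hb : b * u ^ 6 = 54 * W.c₆) :
    Dd a b ≠ 0 := by
  intro h
  have hr := rel ha hb
  rw [h, zero_mul] at hr
  have : W.Δ = 0 := by omega
  exact h0 this

/-- the primes `p ≥ 5` dividing `|D| / N₆` -/
theorem mem_five (h0 : W.Δ ≠ 0) (hco : IsCoprime W.c₄ W.Δ) (hu : u = 1 ∨ u = 3)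
    (ha : a * u ^ 4 = 27 * W.c₄) (hb : b * u ^ 6 = 54 * W.c₆) {p : ℕ} (hp : p.Prime) (h5 : 5 ≤ p) :
    (p ∈ (nq a b).primeFactors ↔ (p : ℤ) ^ 2 ∣ W.Δ) ∧ ((p : ℤ) ^ 2 ∣ W.Δ → ty p a b = 0) ∧
      (p ∈ (nq a b).primeFactors → ty p a b = 0) := by
  have hD := dd_ne h0 ha hb
  have hna : (p : ℤ) ∣ Dd a b → ¬ (p : ℤ) ∣ a := fun h =>
    five_dvd_a hco ha hp h5 ((five_dvd hu ha hb hp h5).1 h)
  have h1 : p ∈ (nq a b).primeFactors → ¬ (p : ℤ) ∣ a := fun h =>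
    hna ((dvd_pow_self _ (by omega)).trans ((mem_nq hD hp).1 h))
  have h2 : (p : ℤ) ^ 2 ∣ W.Δ → ¬ (p : ℤ) ∣ a := fun h =>
    hna ((dvd_pow_self _ two_ne_zero).trans ((pow_dvd hu ha hb hp h5 2).2 h))
  refine ⟨⟨fun h => ?_, fun h => ?_⟩, fun h => ty_zero.2 (h2 h), fun h => ty_zero.2 (h1 h)⟩
  · have h3 := (mem_nq hD hp).1 h
    rw [fe, if_neg (by omega), if_neg (h1 h)] at h3
    exact (pow_dvd hu ha hb hp h5 2).1 h3
  · rw [mem_nq hD hp, fe, if_neg (by omega), if_neg (h2 h)]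
    exact (pow_dvd hu ha hb hp h5 2).2 h

theorem nd (h0 : W.Δ ≠ 0) (hco : IsCoprime W.c₄ W.Δ) (hu : u = 1 ∨ u = 3)
    (ha : a * u ^ 4 = 27 * W.c₄) (hb : b * u ^ 6 = 54 * W.c₆) : Nd (a, b) := by
  intro p hp h5
  exact (mem_five h0 hco hu ha hb (Nat.prime_of_mem_primeFactors hp) h5).2.2 hp

/-- the number of the primes -/
theorem sqn_cnt (h0 : W.Δ ≠ 0) (hco : IsCoprime W.c₄ W.Δ) (hu : u = 1 ∨ u = 3)
    (ha : a * u ^ 4 = 27 * W.c₄) (hb : b * u ^ 6 = 54 * W.c₆) (y : ℝ) :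
    cntT 0 y (a, b) ≤ sqn W.Δ y ∧ sqn W.Δ y ≤ cntT 0 y (a, b) + 2 := by
  classical
  have hN : W.Δ.natAbs ≠ 0 := Int.natAbs_ne_zero.2 h0
  have hS : {p : ℕ | p.Prime ∧ (p : ℝ) ≤ y ∧ (p : ℤ) ^ 2 ∣ W.Δ} =
      ((W.Δ.natAbs.primeFactors.filter (fun p : ℕ => (p : ℝ) ≤ y ∧ (p : ℤ) ^ 2 ∣ W.Δ) : Finset ℕ) :
        Set ℕ) := by
    ext p
    simp only [Set.mem_ofPred_eq, Finset.coe_filter, Nat.mem_primeFactors]
    constructor
    · rintro ⟨h1, h2, h3⟩
      exact ⟨⟨h1, Int.natCast_dvd.1 ((dvd_pow_self _ two_ne_zero).trans h3), hN⟩, h2, h3⟩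
    · rintro ⟨⟨h1, -, -⟩, h2, h3⟩
      exact ⟨h1, h2, h3⟩
  unfold sqn
  rw [hS, Set.ncard_coe_finset]
  unfold cntT
  constructor
  · refine Finset.card_le_card fun p hp => ?_
    rw [mem_filter] at hp ⊢
    obtain ⟨h1, h2, h3, h4⟩ := hp
    have hpp := Nat.prime_of_mem_primeFactors h1
    have h5 := (mem_five h0 hco hu ha hb hpp h2).1.1 h1
    exact ⟨Nat.mem_primeFactors.2 ⟨hpp, Int.natCast_dvd.1
      ((dvd_pow_self _ two_ne_zero).trans h5), hN⟩, h4, h5⟩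
  · have h1 : W.Δ.natAbs.primeFactors.filter (fun p : ℕ => (p : ℝ) ≤ y ∧ (p : ℤ) ^ 2 ∣ W.Δ) ⊆
        (nq a b).primeFactors.filter (fun p => 5 ≤ p ∧ ty p a b = 0 ∧ (p : ℝ) ≤ y) ∪ {2, 3} := by
      intro p hp
      rw [mem_filter] at hp
      obtain ⟨h1, h2, h3⟩ := hp
      have hpp := Nat.prime_of_mem_primeFactors h1
      rw [mem_union]
      rcases lt_or_ge p 5 with h5 | h5
      · right
        have := hpp.two_le
        interval_cases p
        · simp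
        · simp
        · exact absurd hpp (by norm_num)
      · left
        have h6 := mem_five h0 hco hu ha hb hpp h5
        rw [mem_filter]
        exact ⟨h6.1.2 h3, h5, h6.2.1 h3, h2⟩
    refine (Finset.card_le_card h1).trans ((Finset.card_union_le _ _).trans ?_)
    have : ({2, 3} : Finset ℕ).card ≤ 2 := Finset.card_le_two
    simp only
    omega

/-- the product of the primes -/
theorem sqp_le (h0 : W.Δ ≠ 0) (hco : IsCoprime W.c₄ W.Δ) (hu : u = 1 ∨ u = 3)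
    (ha : a * u ^ 4 = 27 * W.c₄) (hb : b * u ^ 6 = 54 * W.c₆) :
    sqp W.Δ ≤ 6 * rd (nq a b) := by
  classical
  unfold sqp rd
  have h1 : W.Δ.natAbs.primeFactors.filter (fun p : ℕ => p ^ 2 ∣ W.Δ.natAbs) ⊆
      {2, 3} ∪ (nq a b).primeFactors.filter (fun p => 5 ≤ p) := by
    intro p hp
    rw [mem_filter] at hp
    obtain ⟨h1, h3⟩ := hp
    have h3' : (p : ℤ) ^ 2 ∣ W.Δ := by
      have : ((p ^ 2 : ℕ) : ℤ) ∣ W.Δ := Int.natCast_dvd.2 h3
      exact_mod_cast this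
    have hpp := Nat.prime_of_mem_primeFactors h1
    rw [mem_union]
    rcases lt_or_ge p 5 with h5 | h5
    · left
      have := hpp.two_le
      interval_cases p
      · simp
      · simp
      · exact absurd hpp (by norm_num)
    · right
      have h6 := mem_five h0 hco hu ha hb hpp h5
      rw [mem_filter]
      exact ⟨h6.1.2 h3', h5⟩
  have h2 : ∏ p ∈ W.Δ.natAbs.primeFactors.filter (fun p : ℕ => p ^ 2 ∣ W.Δ.natAbs), p ≤
      ∏ p ∈ ({2, 3} ∪ (nq a b).primeFactors.filter (fun p => 5 ≤ p) : Finset ℕ), p := by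
    refine Finset.prod_le_prod_of_subset_of_one_le' h1 fun p hp _ => ?_
    rw [mem_union] at hp
    rcases hp with hp | hp
    · rw [mem_insert, mem_singleton] at hp
      omega
    · rw [mem_filter] at hp
      omega
  refine h2.trans ?_
  have hdis : Disjoint ({2, 3} : Finset ℕ) ((nq a b).primeFactors.filter (fun p => 5 ≤ p)) := by
    rw [Finset.disjoint_left]
    intro p hp hp'
    rw [mem_insert, mem_singleton] at hp
    rw [mem_filter] at hp'
    omega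
  rw [Finset.prod_union hdis]
  apply le_of_eq
  congr 1

theorem disc_ge (hu : u = 1 ∨ u = 3) (ha : a * u ^ 4 = 27 * W.c₄) (hb : b * u ^ 6 = 54 * W.c₆) :
    |((Dd a b : ℤ) : ℝ)| ≤ 136048896 * |((W.Δ : ℤ) : ℝ)| := by
  have hr := rel ha hb
  have h : |Dd a b| ≤ 136048896 * |W.Δ| := by
    rcases hu with rfl | rfl
    · norm_num at hr
      rw [hr, abs_mul]
      rw [show |(136048896 : ℤ)| = 136048896 by norm_num]
    · have hr' : Dd a b = 256 * W.Δ := by norm_num at hr; omega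
      rw [hr', abs_mul]
      have := abs_nonneg W.Δ
      rw [show |(256 : ℤ)| = 256 by norm_num]
      nlinarith
  exact_mod_cast h

end curve

/-- the comparison of the scales -/
theorem sc_ratio : Tendsto (fun X : ℝ => sc (6 * X) / sc X) atTop (𝓝 1) := by
  have h1 : Tendsto (fun b : ℝ => √(24 * (1 / 24) * (1 * b - -Real.log 6) /
      Real.log (1 * b - -Real.log 6)) / √(b / Real.log b)) atTop (𝓝 (√(24 * (1 / 24) * 1))) :=
    Pool.Agent.N906.RS.ratio _ one_pos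
  rw [show (24 : ℝ) * (1 / 24) * 1 = 1 by norm_num, Real.sqrt_one] at h1
  refine (h1.comp Real.tendsto_log_atTop).congr' ?_
  filter_upwards [eventually_gt_atTop (0 : ℝ)] with X hX
  have e : Real.log (6 * X) = 1 * Real.log X - -Real.log 6 := by
    rw [Real.log_mul (by norm_num) hX.ne']
    ring
  simp only [Function.comp, sc, e]
  rw [show (24 : ℝ) * (1 / 24) = 1 by norm_num, one_mul (1 * Real.log X - -Real.log 6)]

/-- the comparison of the iterated logarithms -/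
theorem ll_diff : Tendsto (fun X : ℝ => Real.log (Real.log (6 * X)) - Real.log (Real.log X)) atTop
    (𝓝 0) := by
  have h1 : Tendsto (fun X : ℝ => Real.log 6 / Real.log X) atTop (𝓝 0) :=
    tendsto_const_nhds.div_atTop Real.tendsto_log_atTop
  refine squeeze_zero' ?_ ?_ h1
  · filter_upwards [eventually_gt_atTop (1 : ℝ)] with X hX
    have h2 : 0 < Real.log X := Real.log_pos hX
    have h3 : Real.log X ≤ Real.log (6 * X) := Real.log_le_log (by linarith) (by linarith)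
    linarith [Real.log_le_log h2 h3]
  · filter_upwards [eventually_gt_atTop (1 : ℝ)] with X hX
    have h2 : 0 < Real.log X := Real.log_pos hX
    have h6 : 0 < Real.log 6 := Real.log_pos (by norm_num)
    have e : Real.log (6 * X) = Real.log X * (1 + Real.log 6 / Real.log X) := by
      rw [Real.log_mul (by norm_num) (by linarith)]
      field_simp
      ring
    have h3 : 0 < Real.log 6 / Real.log X := by positivity
    rw [e, Real.log_mul h2.ne' (by linarith)]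
    have := Real.log_le_sub_one_of_pos (show 0 < 1 + Real.log 6 / Real.log X by linarith)
    linarith

theorem s1_eq {lam X : ℝ} (hl0 : 0 < lam) : s1 lam X = √(12 * lam) * sc X := by
  rw [s1, sc, ← Real.sqrt_mul (by positivity)]
  congr 1
  ring

theorem sc_large (c : ℝ) : ∀ᶠ X : ℝ in atTop, c ≤ sc X := by
  filter_upwards [s0_large (1 / 6) c (by norm_num)] with X hX
  rw [s0_eq (by norm_num), show (6 : ℝ) * (1 / 6) = 1 by norm_num, Real.sqrt_one, one_mul] at hX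
  exact hX

/-- the transfer of the properties from `(a, b)` to the curve -/
theorem typ_of {σ : ℝ} (hσ1 : 1 < σ) (hσ2 : σ < 6 / 5) {ε : ℝ} (hε : 0 < ε) :
    ∃ ε' : ℝ, 0 < ε' ∧ ∀ᶠ X : ℝ in atTop, ∀ (W : WeierstrassCurve ℤ) (a b u : ℤ), W.Δ ≠ 0 →
      IsCoprime W.c₄ W.Δ → (u = 1 ∨ u = 3) → a * u ^ 4 = 27 * W.c₄ → b * u ^ 6 = 54 * W.c₆ →
      TypT (1 - 1 / σ) ε' (6 * X) (a, b) → TypD σ ε X W.Δ := by
  have hσ0 : 0 < σ := by linarith
  have hs6 : 5 < 6 / σ := by rw [lt_div_iff₀ hσ0]; linarith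
  have es : 6 * (1 - (1 - 1 / σ)) = 6 / σ := by ring
  obtain ⟨lam, hlam⟩ : ∃ lam : ℝ, lam = 1 - 1 / σ := ⟨_, rfl⟩
  have hl0 : 0 < lam := by
    rw [hlam, sub_pos, div_lt_one hσ0]
    exact hσ1
  rw [← hlam] at es ⊢
  obtain ⟨w, hw⟩ : ∃ w : ℝ, w = √(12 * lam) := ⟨_, rfl⟩
  have hw0 : 0 < w := by rw [hw]; exact Real.sqrt_pos.2 (by positivity)
  obtain ⟨ε', hε'⟩ : ∃ ε' : ℝ, ε' = min (min 1 (ε / 4)) (ε / (8 * w)) := ⟨_, rfl⟩
  have hε'0 : 0 < ε' := by
    rw [hε']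
    exact lt_min (lt_min one_pos (by positivity)) (by positivity)
  have hε'1 : ε' ≤ 1 := by rw [hε']; exact (min_le_left _ _).trans (min_le_left _ _)
  have hε'2 : ε' ≤ ε / 4 := by rw [hε']; exact (min_le_left _ _).trans (min_le_right _ _)
  have hε'3 : ε' * w ≤ ε / 8 := by
    have h : ε' ≤ ε / (8 * w) := by rw [hε']; exact min_le_right _ _
    have h2 := mul_le_mul_of_nonneg_right h hw0.le
    have e : ε / (8 * w) * w = ε / 8 := by field_simp
    linarith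
  refine ⟨ε', hε'0, ?_⟩
  have hη : 0 < ε / (8 * w) := by positivity
  have r1 : ∀ᶠ X : ℝ in atTop, |sc (6 * X) / sc X - 1| < min 1 (ε / (8 * w)) := by
    have h := sc_ratio.eventually (Metric.ball_mem_nhds 1 (lt_min one_pos hη))
    filter_upwards [h] with X hX
    rwa [Real.dist_eq] at hX
  have r2 : ∀ᶠ X : ℝ in atTop,
      |Real.log (Real.log (6 * X)) - Real.log (Real.log X)| < ε / (8 * w) := by
    have h := ll_diff.eventually (Metric.ball_mem_nhds 0 hη)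
    filter_upwards [h] with X hX
    rwa [Real.dist_eq, sub_zero] at hX
  have r3 : ∀ᶠ X : ℝ in atTop, (136048896 : ℝ) ≤ X ^ (ε / 2) :=
    (tendsto_rpow_atTop (by positivity)).eventually_ge_atTop _
  filter_upwards [r1, r2, r3, sc_large (8 / ε), sc_large 1, eventually_ge_atTop (31 : ℝ)] with
    X r1 r2 r3 r4 r5 hX31 W a b u h0 hco hu ha hb ht
  obtain ⟨t1, t2, t3, t4⟩ := ht
  simp only at t1 t2 t3
  have hX0 : 0 < X := by linarith
  have hX1 : 1 ≤ X := by linarith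
  have hscp : 0 < sc X := by linarith
  refine ⟨?_, ?_, ?_, ?_⟩
  · have k1 := disc_ge hu ha hb
    have k2 : X ^ (6 - ε) * X ^ (ε / 2) ≤ (6 * X) ^ (6 - ε') := by
      rw [← Real.rpow_add hX0]
      calc X ^ (6 - ε + ε / 2) ≤ X ^ (6 - ε') :=
            Real.rpow_le_rpow_of_exponent_le hX1 (by linarith)
        _ ≤ (6 * X) ^ (6 - ε') := Real.rpow_le_rpow hX0.le (by linarith) (by linarith)
    have k3 : X ^ (6 - ε) * 136048896 ≤ X ^ (6 - ε) * X ^ (ε / 2) :=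
      mul_le_mul_of_nonneg_left r3 (by positivity)
    have k4 : X ^ (6 - ε) * 136048896 ≤ 136048896 * |((W.Δ : ℤ) : ℝ)| :=
      (k3.trans k2).trans (t1.trans k1)
    linarith
  · have k1 : (Nc a b : ℝ) ≤ (∏ p ∈ W.Δ.natAbs.primeFactors, p : ℕ) := by
      exact_mod_cast Pool.Agent.N265.SS.nc_le h0 hco hu ha hb
    rw [es] at t2
    calc X ^ (6 / σ - ε) ≤ X ^ (6 / σ - ε') :=
          Real.rpow_le_rpow_of_exponent_le hX1 (by linarith)
      _ ≤ (6 * X) ^ (6 / σ - ε') := Real.rpow_le_rpow hX0.le (by linarith) (by linarith)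
      _ ≤ _ := t2.trans k1
  · have k1 : (sqp W.Δ : ℝ) ≤ 6 * rd (nq a b) := by exact_mod_cast sqp_le h0 hco hu ha hb
    have k2 : (6 * X) ^ ε' ≤ 6 * X ^ ε' := by
      rw [Real.mul_rpow (by norm_num) hX0.le]
      apply mul_le_mul_of_nonneg_right _ (by positivity)
      calc (6 : ℝ) ^ ε' ≤ 6 ^ (1 : ℝ) := Real.rpow_le_rpow_of_exponent_le (by norm_num) hε'1
        _ = 6 := Real.rpow_one 6
    have k3 : X ^ ε' * X ^ (ε / 2) ≤ X ^ ε := by
      rw [← Real.rpow_add hX0]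
      exact Real.rpow_le_rpow_of_exponent_le hX1 (by linarith)
    have k4 : X ^ ε' * 136048896 ≤ X ^ ε' * X ^ (ε / 2) :=
      mul_le_mul_of_nonneg_left r3 (by positivity)
    have k5 : 0 < X ^ ε' := by positivity
    linarith
  · intro y hy
    have k1 := t4 y hy
    obtain ⟨c1, c2⟩ := sqn_cnt h0 hco hu ha hb y
    rw [s1_eq hl0, ← hw] at k1
    rw [← hlam, ← hw]
    obtain ⟨r, hr⟩ : ∃ r : ℝ, r = sc (6 * X) / sc X := ⟨_, rfl⟩
    rw [← hr] at r1
    have hr' : sc (6 * X) = r * sc X := by rw [hr]; field_simp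
    rw [hr'] at k1
    have r1a : |r - 1| < 1 := r1.trans_le (min_le_left _ _)
    have r1b : |r - 1| < ε / (8 * w) := r1.trans_le (min_le_right _ _)
    have hly : 0 < Real.log y := Real.log_pos (by linarith)
    have hly2 : 1 ≤ 2 * Real.log y := by
      have h1 := Real.log_two_gt_d9
      have h2 := Real.log_le_log two_pos hy
      linarith
    obtain ⟨P, hP⟩ : ∃ P : ℝ, P = pr (6 * X) y := ⟨_, rfl⟩
    obtain ⟨Q, hQ⟩ : ∃ Q : ℝ, Q = pr X y := ⟨_, rfl⟩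
    rw [← hP] at k1
    have eQ : max 0 (1 - Real.log (Real.log X) / (2 * Real.log y)) = Q := by rw [hQ]; rfl
    rw [eQ]
    have hP0 : 0 ≤ P := by rw [hP]; exact le_max_left _ _
    have hP1 : P ≤ 1 := by
      rw [hP]
      unfold pr
      refine max_le zero_le_one ?_
      have hlog : 1 ≤ Real.log (6 * X) := by
        rw [Real.le_log_iff_exp_le (by linarith)]
        have := Real.exp_one_lt_d9
        linarith
      have : 0 ≤ Real.log (Real.log (6 * X)) / (2 * Real.log y) :=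
        div_nonneg (Real.log_nonneg hlog) (by linarith)
      linarith
    have hPQ : |P - Q| ≤ ε / (8 * w) := by
      have e1 : |P - Q| ≤ |(1 - Real.log (Real.log (6 * X)) / (2 * Real.log y)) -
          (1 - Real.log (Real.log X) / (2 * Real.log y))| := by
        rw [hP, hQ]
        unfold pr
        rw [max_comm 0, max_comm 0]
        exact abs_max_sub_max_le_abs _ _ _
      refine e1.trans ?_
      have e2 : (1 - Real.log (Real.log (6 * X)) / (2 * Real.log y)) -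
          (1 - Real.log (Real.log X) / (2 * Real.log y)) =
          -((Real.log (Real.log (6 * X)) - Real.log (Real.log X)) / (2 * Real.log y)) := by ring
      rw [e2, abs_neg, abs_div, abs_of_pos (show 0 < 2 * Real.log y by linarith)]
      exact (div_le_self (abs_nonneg _) hly2).trans r2.le
    -- the main estimate
    have c1' : (cntT 0 y (a, b) : ℝ) ≤ sqn W.Δ y := by exact_mod_cast c1
    have c2' : (sqn W.Δ y : ℝ) ≤ cntT 0 y (a, b) + 2 := by exact_mod_cast c2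
    have m1 : |(sqn W.Δ y : ℝ) - cntT 0 y (a, b)| ≤ ε / 4 * sc X := by
      have h1 : (2 : ℝ) ≤ ε / 4 * sc X := by
        rw [div_le_iff₀ hε] at r4
        linarith
      rw [abs_le]
      constructor <;> linarith
    have m2 : |(cntT 0 y (a, b) : ℝ) - P * (w * (r * sc X))| ≤ ε / 4 * sc X := by
      refine k1.trans ?_
      have h1 : r ≤ 2 := by linarith [(abs_lt.1 r1a).2]
      have h2 : ε' * (w * (r * sc X)) = ε' * w * r * sc X := by ring
      rw [h2]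
      apply mul_le_mul_of_nonneg_right _ hscp.le
      have h3 : ε' * w * r ≤ ε' * w * 2 := mul_le_mul_of_nonneg_left h1 (by positivity)
      linarith
    have m3 : |P * (w * (r * sc X)) - Q * (w * sc X)| ≤ ε / 4 * sc X := by
      have h1 : P * (w * (r * sc X)) - Q * (w * sc X) = (P * (r - 1) + (P - Q)) * w * sc X := by
        ring
      rw [h1, abs_mul, abs_mul, abs_of_pos hscp, abs_of_pos hw0]
      apply mul_le_mul_of_nonneg_right _ hscp.le
      have h2 : |P * (r - 1) + (P - Q)| ≤ ε / (8 * w) + ε / (8 * w) := by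
        refine (abs_add_le _ _).trans (add_le_add ?_ hPQ)
        rw [abs_mul, abs_of_nonneg hP0]
        calc P * |r - 1| ≤ 1 * |r - 1| := mul_le_mul_of_nonneg_right hP1 (abs_nonneg _)
          _ ≤ ε / (8 * w) := by rw [one_mul]; exact r1b.le
      calc |P * (r - 1) + (P - Q)| * w ≤ (ε / (8 * w) + ε / (8 * w)) * w :=
            mul_le_mul_of_nonneg_right h2 hw0.le
        _ = ε / 4 := by field_simp; ring
    have m4 : (sqn W.Δ y : ℝ) - Q * (w * sc X) = ((sqn W.Δ y : ℝ) - cntT 0 y (a, b)) +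
        ((cntT 0 y (a, b) : ℝ) - P * (w * (r * sc X))) +
        (P * (w * (r * sc X)) - Q * (w * sc X)) := by ring
    rw [m4]
    have m5 := abs_add_three ((sqn W.Δ y : ℝ) - cntT 0 y (a, b))
      ((cntT 0 y (a, b) : ℝ) - P * (w * (r * sc X))) (P * (w * (r * sc X)) - Q * (w * sc X))
    have m6 : 0 < ε / 4 * sc X := by positivity
    linarith

/-- **The final statement for semistable curves.** -/
theorem fin_semi {σ : ℝ} (hσ1 : 1 < σ) (hσ2 : σ < 6 / 5) (K : ℝ) (hK : 1 ≤ K) (V : ℝ → Set (ℤ × ℤ))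
    (hfin : ∀ X, (V X).Finite)
    (hV : ∀ X, 31 ≤ X → ∀ q ∈ V X, ∃ W : WeierstrassCurve ℤ, W.Δ ≠ 0 ∧ IsCoprime W.c₄ W.Δ ∧
      q = (W.c₄, W.c₆) ∧ |(W.c₄ : ℝ)| ≤ X ^ 2 ∧ |(W.c₆ : ℝ)| ≤ X ^ 3 ∧
      ∀ a b u : ℤ, (u = 1 ∨ u = 3) → a * u ^ 4 = 27 * W.c₄ → b * u ^ 6 = 54 * W.c₆ →
        (Nc a b : ℝ) ≤ K * Mx a b ^ (1 / σ))
    (h : Tendsto (fun X : ℝ => (Real.log ((V X).ncard : ℝ) - (6 / σ - 1) * Real.log X) /
      √(Real.log X / Real.log (Real.log X))) atTop (𝓝 √(48 * (1 - 1 / σ)))) (ε : ℝ) (hε : 0 < ε) :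
    ∃ δ : ℝ, 0 < δ ∧ ∀ᶠ X : ℝ in atTop, 0 < (V X).ncard ∧
      (({q ∈ V X | ¬ TypD σ ε X ((q.1 ^ 3 - q.2 ^ 2) / 1728)} : Set (ℤ × ℤ)).ncard : ℝ) ≤
        Real.exp (-(δ * sc X)) * ((V X).ncard : ℝ) := by
  classical
  have hσ0 : 0 < σ := by linarith
  obtain ⟨ε', hε'0, htyp⟩ := typ_of hσ1 hσ2 hε
  obtain ⟨lam, hlam⟩ : ∃ lam : ℝ, lam = 1 - 1 / σ := ⟨_, rfl⟩
  have hl0 : 0 < lam := by
    rw [hlam, sub_pos, div_lt_one hσ0]
    exact hσ1
  have hl1 : lam < 1 / 6 := by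
    have : 5 / 6 < 1 / σ := by
      rw [lt_div_iff₀ hσ0]
      linarith
    rw [hlam]
    linarith
  have es : 1 / σ = 1 - lam := by rw [hlam]; ring
  have e1 : 6 / σ - 1 = 5 - 6 * lam := by
    rw [hlam]
    field_simp
    ring
  rw [← hlam] at htyp h
  rw [e1] at h
  simp only [es] at hV
  obtain ⟨δ₀, X₀, hδ₀, hX₀, hrare⟩ := rare_typ lam K ε' hl0 hl1 hK hε'0
  obtain ⟨δ, hδ⟩ : ∃ δ : ℝ, δ = min δ₀ 1 := ⟨_, rfl⟩
  have hδ0 : 0 < δ := by rw [hδ]; exact lt_min hδ₀ one_pos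
  have hδ1 : δ ≤ δ₀ := by rw [hδ]; exact min_le_left _ _
  have hδ2 : δ ≤ 1 := by rw [hδ]; exact min_le_right _ _
  obtain ⟨w, hw⟩ : ∃ w : ℝ, w = √(12 * lam) := ⟨_, rfl⟩
  have hw0 : 0 < w := by rw [hw]; exact Real.sqrt_pos.2 (by positivity)
  have h4 : √(48 * lam) = 2 * w := by
    rw [hw, show (48 : ℝ) * lam = 2 ^ 2 * (12 * lam) by ring, Real.sqrt_mul (by norm_num),
      Real.sqrt_sq (by norm_num)]
  rw [h4] at h
  -- the lower bound for `V`
  have r0 : ∀ᶠ X : ℝ in atTop, (2 - δ / 4) * w <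
      (Real.log ((V X).ncard : ℝ) - (5 - 6 * lam) * Real.log X) /
        √(Real.log X / Real.log (Real.log X)) :=
    h.eventually (lt_mem_nhds (by nlinarith))
  have r1 : ∀ᶠ X : ℝ in atTop, sc (6 * X) / sc X < 1 + δ / 8 :=
    sc_ratio.eventually (gt_mem_nhds (by linarith))
  have h6 : ∀ᶠ X : ℝ in atTop, X₀ ≤ 6 * X := by
    filter_upwards [eventually_ge_atTop (max X₀ 31)] with X hX
    have := (le_max_left _ _).trans hX
    have h31 : 31 ≤ X := (le_max_right _ _).trans hX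
    linarith
  refine ⟨δ / 8 * w, by positivity, ?_⟩
  filter_upwards [r0, r1, htyp, h6, sc_large 1, sc_large (8 * (Real.log 2 + (5 - 6 * lam) * Real.log 6) / (δ * w)),
    eventually_ge_atTop (31 : ℝ)] with X r0 r1 ht h6 r5 r6 hX31
  have hX0 : 0 < X := by linarith
  have hX1 : 1 ≤ X := by linarith
  have hscp : 0 < sc X := by linarith
  have hlX : 0 ≤ Real.log X := Real.log_nonneg hX1
  have hlow : (5 - 6 * lam) * Real.log X + (2 - δ / 4) * w * sc X < Real.log ((V X).ncard : ℝ) := by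
    have e : √(Real.log X / Real.log (Real.log X)) = sc X := rfl
    rw [e, lt_div_iff₀ hscp] at r0
    linarith
  have hpos : 0 < Real.log ((V X).ncard : ℝ) := by
    refine lt_of_le_of_lt ?_ hlow
    have h1 : 0 ≤ (2 - δ / 4) * w * sc X := by
      apply mul_nonneg (mul_nonneg (by linarith) hw0.le) hscp.le
    have h2 : 0 ≤ (5 - 6 * lam) * Real.log X := mul_nonneg (by linarith) hlX
    linarith
  have hN : 0 < ((V X).ncard : ℝ) := by
    by_contra h11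
    have h12 : ((V X).ncard : ℝ) = 0 := le_antisymm (not_lt.1 h11) (Nat.cast_nonneg _)
    rw [h12, Real.log_zero] at hpos
    exact lt_irrefl _ hpos
  refine ⟨by exact_mod_cast hN, ?_⟩
  -- the exceptional set
  set U : Set (ℤ × ℤ) := {q ∈ V X | ¬ TypD σ ε X ((q.1 ^ 3 - q.2 ^ 2) / 1728)} with hU
  have hUfin : U.Finite := (hfin X).subset fun x hx => hx.1
  let S := hUfin.toFinset
  let p : ℤ × ℤ → Prop := fun q => (3 : ℤ) ∣ q.1 ∧ (27 : ℤ) ∣ q.2
  have hcard : U.ncard = (S.filter p).card + (S.filter fun q => ¬ p q).card := by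
    rw [Set.ncard_eq_toFinset_card _ hUfin, Finset.card_filter_add_card_filter_not]
  have hmem : ∀ q ∈ S, ∃ W : WeierstrassCurve ℤ, W.Δ ≠ 0 ∧ IsCoprime W.c₄ W.Δ ∧
      q = (W.c₄, W.c₆) ∧ |(W.c₄ : ℝ)| ≤ X ^ 2 ∧ |(W.c₆ : ℝ)| ≤ X ^ 3 ∧
      (∀ a b u : ℤ, (u = 1 ∨ u = 3) → a * u ^ 4 = 27 * W.c₄ → b * u ^ 6 = 54 * W.c₆ →
        (Nc a b : ℝ) ≤ K * Mx a b ^ (1 - lam)) ∧ ¬ TypD σ ε X W.Δ := fun q hq => by
    rw [Set.Finite.mem_toFinset] at hq
    obtain ⟨hq1, hq2⟩ := hq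
    obtain ⟨W, g0, g1, g2, g3, g4, g5⟩ := hV X hX31 q hq1
    refine ⟨W, g0, g1, g2, g3, g4, g5, ?_⟩
    have e : (q.1 ^ 3 - q.2 ^ 2) / 1728 = W.Δ := by
      rw [g2]
      have := W.c_relation
      simp only
      omega
    rwa [e] at hq2
  have hkey : ∀ (W : WeierstrassCurve ℤ) (a b u : ℤ), W.Δ ≠ 0 → IsCoprime W.c₄ W.Δ →
      (u = 1 ∨ u = 3) → a * u ^ 4 = 27 * W.c₄ → b * u ^ 6 = 54 * W.c₆ →
      (u = 1 → ¬ ((3 : ℤ) ∣ W.c₄ ∧ (27 : ℤ) ∣ W.c₆)) →
      |(W.c₄ : ℝ)| ≤ X ^ 2 → |(W.c₆ : ℝ)| ≤ X ^ 3 → (Nc a b : ℝ) ≤ K * Mx a b ^ (1 - lam) →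
      ¬ TypD σ ε X W.Δ →
      CandS lam K (6 * X) (a, b) ∧ ¬ TypT lam ε' (6 * X) (a, b) := by
    intro W a b u h0 hco hu ha hb h31 h4 h6 hN' hT
    obtain ⟨k1, k2⟩ := Pool.Agent.N265.SS.box hu ha hb hX0.le h4 h6
    exact ⟨⟨⟨Pool.Agent.N265.SS.mn h0 hco hu ha hb h31, k1, k2, hN'⟩, nd h0 hco hu ha hb⟩,
      fun h => hT (ht W a b u h0 hco hu ha hb h)⟩
  have hF1 := hrare (6 * X) ((S.filter p).image fun q => (q.1 / 3, 2 * (q.2 / 27))) h6 (by
    intro x hx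
    rw [Finset.mem_image] at hx
    obtain ⟨q, hq, rfl⟩ := hx
    rw [Finset.mem_filter] at hq
    obtain ⟨hq, hq3, hq27⟩ := hq
    obtain ⟨W, h0, hco, rfl, h4, h6, hS, hT⟩ := hmem q hq
    simp only at hq3 hq27 ⊢
    have ha : W.c₄ / 3 * (3 : ℤ) ^ 4 = 27 * W.c₄ := by omega
    have hb : 2 * (W.c₆ / 27) * (3 : ℤ) ^ 6 = 54 * W.c₆ := by omega
    have h31 : (3 : ℤ) = 1 → ¬ ((3 : ℤ) ∣ W.c₄ ∧ (27 : ℤ) ∣ W.c₆) := fun h => by omega
    exact hkey W _ _ 3 h0 hco (Or.inr rfl) ha hb h31 h4 h6 (hS _ _ 3 (Or.inr rfl) ha hb) hT)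
  have hF2 := hrare (6 * X) ((S.filter fun q => ¬ p q).image fun q => (27 * q.1, 54 * q.2)) h6 (by
    intro x hx
    rw [Finset.mem_image] at hx
    obtain ⟨q, hq, rfl⟩ := hx
    rw [Finset.mem_filter] at hq
    obtain ⟨hq, hqp⟩ := hq
    obtain ⟨W, h0, hco, rfl, h4, h6, hS, hT⟩ := hmem q hq
    have ha : 27 * W.c₄ * (1 : ℤ) ^ 4 = 27 * W.c₄ := by omega
    have hb : 54 * W.c₆ * (1 : ℤ) ^ 6 = 54 * W.c₆ := by omega
    have h31 : (1 : ℤ) = 1 → ¬ ((3 : ℤ) ∣ W.c₄ ∧ (27 : ℤ) ∣ W.c₆) := fun _ => hqp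
    exact hkey W _ _ 1 h0 hco (Or.inl rfl) ha hb h31 h4 h6 (hS _ _ 1 (Or.inl rfl) ha hb) hT)
  rw [Finset.card_image_of_injOn] at hF1 hF2
  rotate_left
  · intro x hx y hy hxy
    simp only [Prod.mk.injEq] at hxy
    refine Prod.ext ?_ ?_ <;> omega
  · intro x hx y hy hxy
    rw [Finset.mem_coe, Finset.mem_filter] at hx hy
    obtain ⟨-, hx1, hx2⟩ := hx
    obtain ⟨-, hy1, hy2⟩ := hy
    simp only [Prod.mk.injEq] at hxy
    refine Prod.ext ?_ ?_ <;> omega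
  have hub : (U.ncard : ℝ) ≤ 2 * Real.exp ((5 - 6 * lam) * Real.log (6 * X) +
      (2 - δ₀) * s1 lam (6 * X)) := by
    rw [hcard]
    push_cast
    linarith
  refine hub.trans ?_
  have e6 : Real.log (6 * X) = Real.log 6 + Real.log X := by
    rw [Real.log_mul (by norm_num) hX0.ne']
  have hs : (2 - δ₀) * s1 lam (6 * X) ≤ (2 - 3 * δ / 4) * w * sc X := by
    rw [s1_eq hl0, ← hw]
    have h1 : sc (6 * X) ≤ (1 + δ / 8) * sc X := by
      rw [div_lt_iff₀ hscp] at r1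
      exact r1.le
    have h2 : 0 ≤ sc (6 * X) := Real.sqrt_nonneg _
    calc (2 - δ₀) * (w * sc (6 * X)) ≤ (2 - δ) * (w * sc (6 * X)) :=
          mul_le_mul_of_nonneg_right (by linarith) (by positivity)
      _ ≤ (2 - δ) * (w * ((1 + δ / 8) * sc X)) := by
          apply mul_le_mul_of_nonneg_left _ (by linarith)
          exact mul_le_mul_of_nonneg_left h1 hw0.le
      _ = ((2 - δ) * (1 + δ / 8)) * (w * sc X) := by ring
      _ ≤ (2 - 3 * δ / 4) * (w * sc X) := by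
          apply mul_le_mul_of_nonneg_right _ (by positivity)
          nlinarith
      _ = _ := by ring
  have hfinal : Real.log 2 + ((5 - 6 * lam) * Real.log (6 * X) + (2 - δ₀) * s1 lam (6 * X)) ≤
      -(δ / 8 * w * sc X) + Real.log ((V X).ncard : ℝ) := by
    have h1 : Real.log 2 + (5 - 6 * lam) * Real.log 6 ≤ δ / 8 * w * sc X := by
      rw [div_le_iff₀ (by positivity)] at r6
      linarith
    rw [e6]
    have h2 : (5 - 6 * lam) * (Real.log 6 + Real.log X) =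
        (5 - 6 * lam) * Real.log 6 + (5 - 6 * lam) * Real.log X := by ring
    rw [h2]
    have h3 : (2 - 3 * δ / 4) * w * sc X = (2 - δ / 4) * w * sc X - δ / 2 * w * sc X := by ring
    have h4 : 0 < δ * w * sc X := by positivity
    have h5 : δ / 2 * w * sc X = δ * w * sc X / 2 := by ring
    have h6 : δ / 8 * w * sc X = δ * w * sc X / 8 := by ring
    linarith
  calc 2 * Real.exp ((5 - 6 * lam) * Real.log (6 * X) + (2 - δ₀) * s1 lam (6 * X))
      = Real.exp (Real.log 2 + ((5 - 6 * lam) * Real.log (6 * X) + (2 - δ₀) * s1 lam (6 * X))) := by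
        rw [Real.exp_add (Real.log 2), Real.exp_log two_pos]
    _ ≤ Real.exp (-(δ / 8 * w * sc X) + Real.log ((V X).ncard : ℝ)) := Real.exp_le_exp.2 hfinal
    _ = _ := by rw [Real.exp_add, Real.exp_log hN]

end Pool.Agent.Run7.h585.AN.Semi
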