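import Pool.Agent.Run7.h585.AN.SCher

/-!
# Semistable curves: the typical curves (helper585)

As `Typ.lean`, with the scale `s1`.
-/

set_option autoImplicit false

namespace Pool.Agent.Run7.h585.AN.Semi

open Finset Filter Topology Pool.Agent.N906.SZ Pool.Agent.N906.FH
open Pool.Agent.N692.FH (upg_size upg_mx upg_box)

/-- `s1` is a multiple of `s0` -/
theorem s1_eq0 (lam X : ℝ) : s1 lam X = √2 * s0 lam X := by
  rw [s1, s0, ← Real.sqrt_mul (by norm_num)]
  congr 1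
  ring

/-- `s1` tends to infinity -/
theorem s1_large (lam c : ℝ) (hl0 : 0 < lam) : ∀ᶠ X : ℝ in atTop, c ≤ s1 lam X := by
  filter_upwards [s0_large lam c hl0] with X hX
  rw [s1_eq0]
  have h1 : 1 ≤ √(2 : ℝ) := by rw [Real.one_le_sqrt]; norm_num
  have h2 := s0_nonneg lam X
  nlinarith

/-- a rare property -/
def Rare (lam : ℝ) (P : ℝ → ℤ × ℤ → Prop) : Prop :=
  ∃ δ X₀ : ℝ, 0 < δ ∧ 31 ≤ X₀ ∧ ∀ (X : ℝ) (F : Finset (ℤ × ℤ)), X₀ ≤ X → (∀ x ∈ F, P X x) →
    (F.card : ℝ) ≤ Real.exp ((5 - 6 * lam) * Real.log X + (2 - δ) * s1 lam X)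

theorem Rare.mono {lam : ℝ} {P Q : ℝ → ℤ × ℤ → Prop} (h : Rare lam P)
    (hPQ : ∀ᶠ X : ℝ in atTop, ∀ x, Q X x → P X x) : Rare lam Q := by
  obtain ⟨δ, X₀, h1, h2, h3⟩ := h
  obtain ⟨X₁, hX₁⟩ := eventually_atTop.1 hPQ
  refine ⟨δ, max X₀ X₁, h1, h2.trans (le_max_left _ _), fun X F hX hF => ?_⟩
  exact h3 X F ((le_max_left _ _).trans hX)
    (fun x hx => hX₁ X ((le_max_right _ _).trans hX) x (hF x hx))

theorem Rare.or {lam : ℝ} (hl0 : 0 < lam) {P Q : ℝ → ℤ × ℤ → Prop} (hP : Rare lam P)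
    (hQ : Rare lam Q) : Rare lam (fun X x => P X x ∨ Q X x) := by
  classical
  obtain ⟨δ₁, X₁, h1, h2, h3⟩ := hP
  obtain ⟨δ₂, X₂, g1, g2, g3⟩ := hQ
  obtain ⟨δ, hδ⟩ : ∃ δ : ℝ, δ = min δ₁ δ₂ := ⟨_, rfl⟩
  have hδ0 : 0 < δ := by rw [hδ]; exact lt_min h1 g1
  have hδ1 : δ ≤ δ₁ := by rw [hδ]; exact min_le_left _ _
  have hδ2 : δ ≤ δ₂ := by rw [hδ]; exact min_le_right _ _
  obtain ⟨X₃, hX₃⟩ := eventually_atTop.1 (s1_large lam (2 / δ) hl0)
  refine ⟨δ / 2, max (max X₁ X₂) X₃, by positivity, (h2.trans (le_max_left _ _)).trans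
    (le_max_left _ _), fun X F hX hF => ?_⟩
  have hXa : X₁ ≤ X := ((le_max_left _ _).trans (le_max_left _ _)).trans hX
  have hXb : X₂ ≤ X := ((le_max_right _ _).trans (le_max_left _ _)).trans hX
  have hs := hX₃ X ((le_max_right _ _).trans hX)
  have k1 := h3 X (F.filter (fun x => P X x)) hXa (fun x hx => (mem_filter.1 hx).2)
  have k2 := g3 X (F.filter (fun x => ¬ P X x)) hXb (fun x hx => by
    rw [mem_filter] at hx
    exact (hF x hx.1).resolve_left hx.2)
  have h0 := s1_nonneg lam X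
  have k3 : (F.card : ℝ) = (F.filter (fun x => P X x)).card +
      (F.filter (fun x => ¬ P X x)).card := by
    exact_mod_cast (Finset.card_filter_add_card_filter_not (s := F) (fun x => P X x)).symm
  have k4 : ∀ δ' : ℝ, δ ≤ δ' → Real.exp ((5 - 6 * lam) * Real.log X + (2 - δ') * s1 lam X) ≤
      Real.exp ((5 - 6 * lam) * Real.log X + (2 - δ) * s1 lam X) := by
    intro δ' hδ'
    apply Real.exp_le_exp.2
    have := mul_le_mul_of_nonneg_right hδ' h0
    linarith [show (2 - δ') * s1 lam X = 2 * s1 lam X - δ' * s1 lam X by ring,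
      show (2 - δ) * s1 lam X = 2 * s1 lam X - δ * s1 lam X by ring]
  have k5 : (2 : ℝ) ≤ Real.exp (δ / 2 * s1 lam X) := by
    have h5 := Real.add_one_le_exp (δ / 2 * s1 lam X)
    rw [div_le_iff₀ hδ0] at hs
    linarith
  calc (F.card : ℝ) ≤ 2 * Real.exp ((5 - 6 * lam) * Real.log X + (2 - δ) * s1 lam X) := by
        have := k4 δ₁ hδ1
        have := k4 δ₂ hδ2
        linarith
    _ ≤ Real.exp (δ / 2 * s1 lam X) *
        Real.exp ((5 - 6 * lam) * Real.log X + (2 - δ) * s1 lam X) :=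
        mul_le_mul_of_nonneg_right k5 (Real.exp_pos _).le
    _ = _ := by
        rw [← Real.exp_add]
        congr 1; ring

theorem Rare.none (lam : ℝ) : Rare lam (fun _ _ => False) := by
  refine ⟨1, 31, one_pos, le_rfl, fun X F _ hF => ?_⟩
  have : F = ∅ := by
    rw [Finset.eq_empty_iff_forall_notMem]
    intro x hx
    exact hF x hx
  rw [this, Finset.card_empty, Nat.cast_zero]
  exact (Real.exp_pos _).le

theorem Rare.fin {lam : ℝ} (hl0 : 0 < lam) (m : ℕ) {P : ℕ → ℝ → ℤ × ℤ → Prop}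
    (h : ∀ k < m, Rare lam (P k)) : Rare lam (fun X x => ∃ k < m, P k X x) := by
  induction m with
  | zero =>
    refine (Rare.none lam).mono (Eventually.of_forall fun X x => ?_)
    rintro ⟨k, hk, -⟩
    omega
  | succ m ih =>
    have h1 := ih (fun k hk => h k (by omega))
    have h2 := h m (by omega)
    refine (h1.or hl0 h2).mono (Eventually.of_forall fun X x => ?_)
    rintro ⟨k, hk, hP⟩
    rcases Nat.lt_succ_iff_lt_or_eq.1 hk with h3 | h3
    · exact Or.inl ⟨k, h3, hP⟩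
    · right
      rw [← h3]
      exact hP

/-- the candidates -/
def CandS (lam K X : ℝ) (x : ℤ × ℤ) : Prop := Cand lam K X x ∧ Nd x

theorem rare_bad (lam K : ℝ) (hl0 : 0 < lam) (hl1 : lam < 1 / 6) (hK : 1 ≤ K) :
    Rare lam (fun X x => CandS lam K X x ∧ ¬ Good lam K X x) := by
  have hsq : 0 < √(12 * lam) := Real.sqrt_pos.2 (by positivity)
  obtain ⟨X₀, hX₀, h⟩ := bad lam K (√(12 * lam)) hl0 hl1 hK hsq
  refine ⟨1, X₀, by norm_num, hX₀, fun X F hX hF => ?_⟩
  have h1 := h X F hX (fun x hx => by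
    obtain ⟨⟨⟨g1, g2, g3, g4⟩, -⟩, g5⟩ := hF x hx
    exact ⟨g1, g2, g3, g4, g5⟩)
  refine h1.trans (le_of_eq ?_)
  have e : s1 lam X = √(12 * lam) * √(Real.log X / Real.log (Real.log X)) := by
    rw [s1, ← Real.sqrt_mul (by positivity)]
    congr 1
    ring
  rw [e]
  congr 1; ring

/-- the curves with a small discriminant -/
theorem rare_D (lam K ε : ℝ) (hl0 : 0 < lam) (hl1 : lam < 1 / 6) (hK : 1 ≤ K) (hε : 0 < ε) :
    Rare lam (fun X x => CandS lam K X x ∧ |((Dd x.1 x.2 : ℤ) : ℝ)| < X ^ (6 - ε)) := by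
  classical
  obtain ⟨ε', hε'⟩ : ∃ ε' : ℝ, ε' = min ε (6 * lam) := ⟨_, rfl⟩
  have hε'0 : 0 < ε' := by rw [hε']; exact lt_min hε (by positivity)
  have hε'1 : ε' ≤ ε := by rw [hε']; exact min_le_left _ _
  have hε'2 : ε' ≤ 6 * lam := by rw [hε']; exact min_le_right _ _
  obtain ⟨lam₂, hlam₂⟩ : ∃ lam₂ : ℝ, lam₂ = lam - ε' / 12 := ⟨_, rfl⟩
  have hl20 : 0 < lam₂ := by rw [hlam₂]; linarith
  -- small height
  have hA : Rare lam (fun X x => CandS lam K X x ∧ Mx x.1 x.2 ≤ X ^ (6 - ε' / 2)) := by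
    obtain ⟨X₁, hX₁3, hup⟩ := up_un lam K 1 hl0 hl1 hK one_pos
    have hb : 0 < (5 - 6 * lam) * (ε' / 12) := by
      apply mul_pos <;> linarith
    have hld := lin_dom (2 * √(96 * lam)) ((5 - 6 * lam) * (ε' / 12)) hb
    obtain ⟨L₂, hL₂⟩ := eventually_atTop.1 hld
    have hc : 0 < 1 - ε' / 12 := by linarith
    have h3 : ∀ᶠ X : ℝ in atTop, X₁ ≤ X ^ (1 - ε' / 12) ∧ L₂ ≤ Real.log (X ^ (1 - ε' / 12)) := by
      have h4 := tendsto_rpow_atTop hc
      exact (h4.eventually_ge_atTop X₁).and ((Real.tendsto_log_atTop.comp h4).eventually_ge_atTop L₂)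
    obtain ⟨X₂, hX₂⟩ := eventually_atTop.1 h3
    refine ⟨2, max X₂ 31, by norm_num, le_max_right _ _, fun X F hX hF => ?_⟩
    have hX31 : (31 : ℝ) ≤ X := (le_max_right _ _).trans hX
    have hX0 : 0 < X := by linarith
    have hX1 : 1 ≤ X := by linarith
    obtain ⟨k1, k2⟩ := hX₂ X ((le_max_left _ _).trans hX)
    obtain ⟨W, hW⟩ : ∃ W : ℝ, W = X ^ (1 - ε' / 12) := ⟨_, rfl⟩
    rw [← hW] at k1 k2
    have hW0 : 0 < W := by rw [hW]; positivity
    have hlW : Real.log W = (1 - ε' / 12) * Real.log X := by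
      rw [hW, Real.log_rpow hX0]
    have hlX : 0 ≤ Real.log X := Real.log_nonneg hX1
    have hW6 : W ^ 6 = X ^ (6 - ε' / 2) := by
      rw [hW, ← Real.rpow_natCast, ← Real.rpow_mul hX0.le]
      congr 1
      push_cast
      ring
    have h5 := hup W F k1 (by
      intro x hx
      obtain ⟨⟨⟨g1, g2, g3, g4⟩, -⟩, g5⟩ := hF x hx
      rw [← hW6] at g5
      have hsz := upg_size hW0.le g5
      refine ⟨g1, hsz.1, hsz.2, nq x.1 x.2, (nq_spec g1.1).1, (nq_spec g1.1).2.1, ?_⟩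
      rw [nq_real g1.1]
      calc (nq x.1 x.2 : ℝ) * Nc x.1 x.2 ≤ nq x.1 x.2 * (K * Mx x.1 x.2 ^ (1 - lam)) :=
            mul_le_mul_of_nonneg_left g4 (Nat.cast_nonneg _)
        _ = _ := by ring)
    refine h5.trans ?_
    apply Real.exp_le_exp.2
    have h6 := hL₂ (Real.log W) k2
    have e1 : √(48 * 2 * lam * Real.log W / Real.log (Real.log W)) =
        √(96 * lam) * √(Real.log W / Real.log (Real.log W)) := by
      rw [← Real.sqrt_mul (by positivity)]
      congr 1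
      ring
    rw [e1]
    have h7 : (5 - 6 * lam) * (ε' / 12) * Real.log W ≤
        (5 - 6 * lam) * (ε' / 12) * Real.log X := by
      apply mul_le_mul_of_nonneg_left _ hb.le
      rw [hlW]
      have : (1 - ε' / 12) * Real.log X ≤ 1 * Real.log X :=
        mul_le_mul_of_nonneg_right (by linarith) hlX
      linarith
    have h8 : (5 - 6 * lam) * Real.log W + (5 - 6 * lam) * (ε' / 12) * Real.log X =
        (5 - 6 * lam) * Real.log X := by
      rw [hlW]; ring
    have h9 : (2 - (2 : ℝ)) * s1 lam X = 0 := by ring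
    rw [h9]
    linarith
  -- good curves
  have hB : Rare lam (fun X x => Good lam K X x ∧ Nd x ∧
      |((Dd x.1 x.2 : ℤ) : ℝ)| ≤ 1 * X ^ (6 * lam₂) * Mx x.1 x.2 ^ (1 - lam)) := by
    have hcc : √(4 * 1 * lam₂ / lam) - 0 < 2 := by
      rw [sub_zero, Real.sqrt_lt' (by norm_num), div_lt_iff₀ hl0, hlam₂]
      linarith
    obtain ⟨δ, X₁, hδ, hX₁, hch⟩ := cher0 (w0 1) (w0 1) (w0_nonneg zero_le_one)
      (w0_nonneg zero_le_one) 1 le_rfl 1 (by norm_num) (by rw [w0_sum]; norm_num) lam lam₂ K 1 0 hl0 hl1 hl20 hK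
      le_rfl hcc
    refine ⟨δ, X₁, hδ, hX₁, fun X F hX hF => hch X F hX (fun x hx => ⟨(hF x hx).1, (hF x hx).2.2, ?_⟩)⟩
    have e : Th (wtc (uu 1 (6 * lam₂) (Real.log X) ^ (-(1 : ℝ))) (w0 1) (w0 1))
        (nq x.1 x.2) x.1 x.2 = 1 := by
      rw [Th_all _ _ (hF x hx).2.1, one_pow]
    rw [e, zero_mul, Real.exp_zero]
  refine ((hA.or hl0 hB).or hl0 (rare_bad lam K hl0 hl1 hK)).mono ?_
  filter_upwards [eventually_ge_atTop (31 : ℝ)] with X hX31 x
  have hX0 : 0 < X := by linarith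
  have hX1 : 1 ≤ X := by linarith
  rintro ⟨hcand, hD⟩
  by_cases hg : Good lam K X x
  swap
  · exact Or.inr ⟨hcand, hg⟩
  left
  by_cases hm : Mx x.1 x.2 ≤ X ^ (6 - ε' / 2)
  · exact Or.inl ⟨hcand, hm⟩
  right
  refine ⟨hg, hcand.2, ?_⟩
  rw [not_le] at hm
  have h1 : X ^ ((6 - ε' / 2) * (1 - lam)) ≤ Mx x.1 x.2 ^ (1 - lam) := by
    rw [Real.rpow_mul hX0.le]
    exact Real.rpow_le_rpow (by positivity) hm.le (by linarith)
  have h2 : |((Dd x.1 x.2 : ℤ) : ℝ)| ≤ X ^ (6 - ε') := by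
    refine hD.le.trans ?_
    exact Real.rpow_le_rpow_of_exponent_le hX1 (by linarith)
  have h3 : X ^ (6 - ε') ≤ X ^ (6 * lam₂) * X ^ ((6 - ε' / 2) * (1 - lam)) := by
    rw [← Real.rpow_add hX0]
    apply Real.rpow_le_rpow_of_exponent_le hX1
    rw [hlam₂]
    have : 0 ≤ ε' * lam := by positivity
    nlinarith
  rw [one_mul]
  calc |((Dd x.1 x.2 : ℤ) : ℝ)| ≤ X ^ (6 * lam₂) * X ^ ((6 - ε' / 2) * (1 - lam)) := h2.trans h3
    _ ≤ X ^ (6 * lam₂) * Mx x.1 x.2 ^ (1 - lam) := mul_le_mul_of_nonneg_left h1 (by positivity)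

/-- the curves with a small conductor -/
theorem rare_N (lam K ε : ℝ) (hl0 : 0 < lam) (hl1 : lam < 1 / 6) (hK : 1 ≤ K) (hε : 0 < ε) :
    Rare lam (fun X x => CandS lam K X x ∧ (Nc x.1 x.2 : ℝ) < X ^ (6 * (1 - lam) - ε)) := by
  obtain ⟨η, hη⟩ : ∃ η : ℝ, η = min (ε / 12) ((1 / 6 - lam) / 2) := ⟨_, rfl⟩
  have hη0 : 0 < η := by rw [hη]; exact lt_min (by positivity) (by linarith)
  have hη1 : η ≤ ε / 12 := by rw [hη]; exact min_le_left _ _
  have hη2 : η ≤ (1 / 6 - lam) / 2 := by rw [hη]; exact min_le_right _ _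
  have hA : Rare lam (fun X x => (Mn x.1 x.2 ∧ |(x.1 : ℝ)| ≤ X ^ 2 ∧ |(x.2 : ℝ)| ≤ X ^ 3) ∧
      (Nc x.1 x.2 : ℝ) ≤ 1 * Mx x.1 x.2 ^ (1 - (lam + η))) := by
    obtain ⟨X₁, hX₁3, hup⟩ := up_un (lam + η) 1 1 (by linarith) (by linarith) le_rfl one_pos
    have hld := lin_dom (2 * √(96 * (lam + η))) (6 * η) (by positivity)
    obtain ⟨X₂, hX₂⟩ := eventually_atTop.1 (Real.tendsto_log_atTop.eventually hld)
    refine ⟨2, max (max X₁ X₂) 31, by norm_num, le_max_right _ _, fun X F hX hF => ?_⟩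
    have hXa : X₁ ≤ X := ((le_max_left _ _).trans (le_max_left _ _)).trans hX
    have hXb : X₂ ≤ X := ((le_max_right _ _).trans (le_max_left _ _)).trans hX
    have h5 := hup X F hXa (by
      intro x hx
      obtain ⟨⟨g1, g2, g3⟩, g4⟩ := hF x hx
      refine ⟨g1, g2, g3, nq x.1 x.2, (nq_spec g1.1).1, (nq_spec g1.1).2.1, ?_⟩
      rw [nq_real g1.1]
      calc (nq x.1 x.2 : ℝ) * Nc x.1 x.2 ≤ nq x.1 x.2 * (1 * Mx x.1 x.2 ^ (1 - (lam + η))) :=
            mul_le_mul_of_nonneg_left g4 (Nat.cast_nonneg _)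
        _ = _ := by ring)
    refine h5.trans ?_
    apply Real.exp_le_exp.2
    have h6 := hX₂ X hXb
    have e1 : √(48 * 2 * (lam + η) * Real.log X / Real.log (Real.log X)) =
        √(96 * (lam + η)) * √(Real.log X / Real.log (Real.log X)) := by
      rw [← Real.sqrt_mul (by positivity)]
      congr 1
      ring
    rw [e1]
    have h9 : (2 - (2 : ℝ)) * s1 lam X = 0 := by ring
    rw [h9]
    linarith
  refine ((rare_D lam K (ε / 2) hl0 hl1 hK (by positivity)).or hl0 hA).mono ?_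
  filter_upwards [eventually_ge_atTop (31 : ℝ)] with X hX31 x
  have hX0 : 0 < X := by linarith
  have hX1 : 1 ≤ X := by linarith
  rintro ⟨hcand, hN⟩
  by_cases hD : |((Dd x.1 x.2 : ℤ) : ℝ)| < X ^ (6 - ε / 2)
  · exact Or.inl ⟨hcand, hD⟩
  right
  refine ⟨⟨hcand.1.1, hcand.1.2.1, hcand.1.2.2.1⟩, ?_⟩
  rw [not_lt] at hD
  have hM : X ^ (6 - ε / 2) ≤ Mx x.1 x.2 := hD.trans (le_max_right _ _)
  rw [one_mul]
  calc (Nc x.1 x.2 : ℝ) ≤ X ^ (6 * (1 - lam) - ε) := hN.le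
    _ ≤ X ^ ((6 - ε / 2) * (1 - (lam + η))) := by
        apply Real.rpow_le_rpow_of_exponent_le hX1
        nlinarith
    _ = (X ^ (6 - ε / 2)) ^ (1 - (lam + η)) := Real.rpow_mul hX0.le _ _
    _ ≤ Mx x.1 x.2 ^ (1 - (lam + η)) :=
        Real.rpow_le_rpow (by positivity) hM (by linarith)

/-- the typical semistable curves -/
def TypT (lam ε X : ℝ) (x : ℤ × ℤ) : Prop :=
  X ^ (6 - ε) ≤ |((Dd x.1 x.2 : ℤ) : ℝ)| ∧ X ^ (6 * (1 - lam) - ε) ≤ Nc x.1 x.2 ∧
  (rd (nq x.1 x.2) : ℝ) ≤ X ^ ε ∧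
  (∀ y : ℝ, 2 ≤ y → |(cntT 0 y x : ℝ) - pr X y * s1 lam X| ≤ ε * s1 lam X)

/-- the number of the nodes -/
theorem rare_cnt (lam K ε : ℝ) (hl0 : 0 < lam)
    (hl1 : lam < 1 / 6) (hK : 1 ≤ K) (hε : 0 < ε) (hε1 : ε ≤ 1) :
    Rare lam (fun X x => Good lam K X x ∧ Nd x ∧
      ∃ y : ℝ, 2 ≤ y ∧ ε * s1 lam X < |(cntT 0 y x : ℝ) - pr X y * s1 lam X|) := by
  obtain ⟨m, hm⟩ := exists_nat_gt (4 / ε)
  have hm0 : (0 : ℝ) < m := lt_trans (by positivity) hm
  have hm1 : 0 < m := by exact_mod_cast hm0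
  have hmε : 1 / (m : ℝ) ≤ ε / 4 := by
    rw [div_lt_iff₀ hε] at hm
    rw [div_le_iff₀ hm0]
    linarith
  -- the grid `t_k = m / (m - k)`
  obtain ⟨T, hT⟩ : ∃ T : ℕ → ℝ, T = fun k : ℕ => (m : ℝ) / ((m : ℝ) - (k : ℝ)) := ⟨_, rfl⟩
  have hTk : ∀ k < m, 1 - 1 / T k = k / m ∧ 1 ≤ T k := by
    intro k hk
    have hk' : (k : ℝ) < m := by exact_mod_cast hk
    have hk0 : (0 : ℝ) ≤ k := Nat.cast_nonneg k
    rw [hT]
    simp only
    constructor
    · rw [one_div_div]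
      field_simp
      ring
    · rw [one_le_div (by linarith)]
      linarith
  have hTk1 : ∀ k < m, 0 < k → 1 < T k := by
    intro k hk hk1
    have hk' : (k : ℝ) < m := by exact_mod_cast hk
    have hk0 : (0 : ℝ) < k := by exact_mod_cast hk1
    rw [hT]
    simp only
    rw [one_lt_div (by linarith)]
    linarith
  have hU : Rare lam (fun X x => ∃ k < m, (Good lam K X x ∧ Nd x ∧
      (1 - 1 / T k + ε / 2) * s1 lam X ≤ cntT 0 (Real.log X ^ (T k / 2)) x)) :=
    Rare.fin hl0 m (fun k hk => cher_up (T k) lam K (ε / 2) (hTk k hk).2 hl0 hl1 hK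
      (by positivity) (by linarith))
  have hLo : Rare lam (fun X x => ∃ k < m, (0 < k ∧ Good lam K X x ∧ Nd x ∧
      (cntT 0 (Real.log X ^ (T k / 2)) x : ℝ) ≤ (1 - 1 / T k - ε / 2) * s1 lam X)) := by
    refine Rare.fin hl0 m (fun k hk => ?_)
    by_cases hk0 : 0 < k
    · refine Rare.mono (P := fun X x => Good lam K X x ∧ Nd x ∧
        (cntT 0 (Real.log X ^ (T k / 2)) x : ℝ) ≤ (1 - 1 / T k - ε / 2) * s1 lam X) ?_ ?_
      · exact cher_lo (T k) lam K (ε / 2) (hTk1 k hk hk0) hl0 hl1 hK (by positivity)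
          (by linarith)
      · exact Eventually.of_forall fun X x h => h.2
    · exact (Rare.none lam).mono (Eventually.of_forall fun X x h => hk0 h.1)
  have hAll : Rare lam (fun X x => Good lam K X x ∧ Nd x ∧ (1 + ε / 2) * s1 lam X ≤ cntA 0 x) :=
    cher_all lam K (ε / 2) hl0 hl1 hK (by positivity) (by linarith)
  refine (((hU.or hl0 hLo).or hl0 hAll)).mono ?_
  filter_upwards [eventually_ge_atTop (31 : ℝ)] with X hX31 x
  have hX0 : 0 < X := by linarith
  rintro ⟨hg, hnd, y, hy2, hy⟩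
  by_contra hcon
  rw [not_or, not_or] at hcon
  obtain ⟨⟨c1, c2⟩, c3⟩ := hcon
  push Not at c1 c2 c3
  have hs := s1_nonneg lam X
  have hly : 0 < Real.log y := Real.log_pos (by linarith)
  have hlogX : 3 ≤ Real.log X := by
    rw [Real.le_log_iff_exp_le hX0]
    have h1 := Real.exp_one_lt_d9
    have h2 : Real.exp 3 = Real.exp 1 ^ 3 := by rw [← Real.exp_nat_mul]; norm_num
    rw [h2]
    have h3 : Real.exp 1 ^ 3 ≤ 2.72 ^ 3 := pow_le_pow_left₀ (Real.exp_pos _).le (by linarith) 3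
    norm_num at h3
    linarith
  have hlX0 : 0 < Real.log X := by linarith
  have hllX : 0 < Real.log (Real.log X) := Real.log_pos (by linarith)
  obtain ⟨ll, hll⟩ : ∃ ll : ℝ, ll = Real.log (Real.log X) := ⟨_, rfl⟩
  rw [← hll] at hllX
  obtain ⟨a, ha⟩ : ∃ a : ℝ, a = pr X y := ⟨_, rfl⟩
  have ha0 : 0 ≤ a := by rw [ha]; exact le_max_left _ _
  have ha1 : a < 1 := by
    rw [ha]
    unfold pr
    rw [← hll]
    refine max_lt one_pos ?_
    have : 0 < ll / (2 * Real.log y) := by positivity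
    linarith
  obtain ⟨k, hk⟩ : ∃ k : ℕ, k = ⌊(m : ℝ) * a⌋₊ := ⟨_, rfl⟩
  have hk1 : (k : ℝ) ≤ m * a := by rw [hk]; exact Nat.floor_le (by positivity)
  have hk2 : (m : ℝ) * a < k + 1 := by rw [hk]; exact Nat.lt_floor_add_one _
  have hkm : k < m := by
    have : (k : ℝ) < m := by nlinarith
    exact_mod_cast this
  have hak : (k : ℝ) / m ≤ a := by rw [div_le_iff₀ hm0]; linarith
  have hak2 : a < (k : ℝ) / m + 1 / m := by
    rw [← add_div, lt_div_iff₀ hm0]
    linarith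
  -- lower bound
  have hlow : ((k : ℝ) / m - ε / 2) * s1 lam X ≤ cntT 0 y x := by
    by_cases hk0 : 0 < k
    · have h1 := c2 k hkm hk0 hg hnd
      rw [(hTk k hkm).1] at h1
      refine h1.le.trans ?_
      have hz : Real.log X ^ (T k / 2) ≤ y := by
        -- `a ≥ k/m > 0`
        have hkpos : (0 : ℝ) < (k : ℝ) / m := by
          have : (0 : ℝ) < k := by exact_mod_cast hk0
          positivity
        have hkm' : (k : ℝ) < m := by exact_mod_cast hkm
        have h2 : (k : ℝ) / m ≤ 1 - ll / (2 * Real.log y) := by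
          rw [ha] at hak
          unfold pr at hak
          rw [← hll] at hak
          rcases le_max_iff.1 hak with h3 | h3
          · linarith
          · exact h3
        rw [Real.rpow_def_of_pos hlX0, ← hll]
        rw [← Real.le_log_iff_exp_le (by linarith)]
        have h4 : ll / (2 * Real.log y) ≤ ((m : ℝ) - k) / m := by
          have : ((m : ℝ) - k) / m = 1 - k / m := by field_simp
          rw [this]; linarith
        rw [div_le_div_iff₀ (by positivity) hm0] at h4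
        rw [hT]
        simp only
        have h5 : 0 < (m : ℝ) - k := by linarith
        rw [div_div, mul_div_assoc', div_le_iff₀ (by positivity)]
        linarith
      exact_mod_cast cntT_mono 0 hz x
    · have hk00 : k = 0 := by omega
      rw [hk00]
      push_cast
      have h1 : (0 : ℝ) ≤ cntT 0 y x := Nat.cast_nonneg _
      have h2 : (0 / (m : ℝ) - ε / 2) * s1 lam X ≤ 0 := by
        rw [zero_div]
        nlinarith
      linarith
  -- upper bound
  have hup : (cntT 0 y x : ℝ) ≤ ((k : ℝ) / m + 1 / m + ε / 2) * s1 lam X := by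
    by_cases hk1m : k + 1 < m
    · have h1 := c1 (k + 1) hk1m hg hnd
      rw [(hTk (k + 1) hk1m).1] at h1
      have e : ((k + 1 : ℕ) : ℝ) / m = (k : ℝ) / m + 1 / m := by push_cast; ring
      rw [e] at h1
      refine le_trans ?_ h1.le
      have hz : y ≤ Real.log X ^ (T (k + 1) / 2) := by
        have hkm' : ((k + 1 : ℕ) : ℝ) < m := by exact_mod_cast hk1m
        push_cast at hkm'
        have h2 : 1 - ll / (2 * Real.log y) < (k : ℝ) / m + 1 / m := by
          refine lt_of_le_of_lt ?_ hak2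
          rw [ha]
          unfold pr
          rw [← hll]
          exact le_max_right _ _
        rw [Real.rpow_def_of_pos hlX0, ← hll]
        rw [← Real.log_le_iff_le_exp (by linarith)]
        have h4 : ((m : ℝ) - (k + 1)) / m < ll / (2 * Real.log y) := by
          have : ((m : ℝ) - (k + 1)) / m = 1 - (k / m + 1 / m) := by field_simp
          rw [this]; linarith
        rw [div_lt_div_iff₀ hm0 (by positivity)] at h4
        rw [hT]
        simp only
        push_cast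
        have h5 : 0 < (m : ℝ) - (k + 1) := by linarith
        rw [div_div, mul_div_assoc', le_div_iff₀ (by positivity)]
        linarith
      exact_mod_cast cntT_mono 0 hz x
    · have hkm2 : k + 1 = m := by omega
      have h1 := c3 hg hnd
      have h2 : (k : ℝ) / m + 1 / m = 1 := by
        rw [← add_div]
        have : (k : ℝ) + 1 = m := by exact_mod_cast hkm2
        rw [this, div_self hm0.ne']
      rw [h2]
      refine le_trans ?_ h1.le
      exact_mod_cast cntT_le 0 y x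
  rw [← ha] at hy
  have hfin : |(cntT 0 y x : ℝ) - a * s1 lam X| ≤ ε * s1 lam X := by
    rw [abs_le]
    constructor
    · have h1 : (a - ε) * s1 lam X ≤ ((k : ℝ) / m - ε / 2) * s1 lam X :=
        mul_le_mul_of_nonneg_right (by linarith) hs
      linarith [show (a - ε) * s1 lam X = a * s1 lam X - ε * s1 lam X by ring]
    · have h1 : ((k : ℝ) / m + 1 / m + ε / 2) * s1 lam X ≤ (a + ε) * s1 lam X :=
        mul_le_mul_of_nonneg_right (by linarith) hs
      linarith [show (a + ε) * s1 lam X = a * s1 lam X + ε * s1 lam X by ring]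
  linarith

/-- **The atypical semistable curves are rare.** -/
theorem rare_typ (lam K ε : ℝ) (hl0 : 0 < lam) (hl1 : lam < 1 / 6) (hK : 1 ≤ K) (hε : 0 < ε) :
    Rare lam (fun X x => CandS lam K X x ∧ ¬ TypT lam ε X x) := by
  obtain ⟨ε', hε'⟩ : ∃ ε' : ℝ, ε' = min ε 1 := ⟨_, rfl⟩
  have hε'0 : 0 < ε' := by rw [hε']; exact lt_min hε one_pos
  have hε'1 : ε' ≤ ε := by rw [hε']; exact min_le_left _ _
  have hε'2 : ε' ≤ 1 := by rw [hε']; exact min_le_right _ _
  have h1 := rare_D lam K ε hl0 hl1 hK hε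
  have h2 := rare_cnt lam K ε' hl0 hl1 hK hε'0 hε'2
  have h5 := rare_bad lam K hl0 hl1 hK
  have h6 := rare_N lam K ε hl0 hl1 hK hε
  have h7 : Rare lam (fun X x => Good lam K X x ∧ Nd x ∧ X ^ ε ≤ (rd (nq x.1 x.2) : ℝ)) :=
    cher_rad lam K ε hl0 hl1 hK hε
  refine ((((h1.or hl0 h2).or hl0 h5).or hl0 h6).or hl0 h7).mono ?_
  refine Eventually.of_forall fun X x => ?_
  rintro ⟨hcand, htyp⟩
  by_contra hcon
  rw [not_or, not_or, not_or, not_or] at hcon
  obtain ⟨⟨⟨⟨c1, c2⟩, c5⟩, c6⟩, c7⟩ := hcon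
  have hgood : Good lam K X x := by
    by_contra h
    exact c5 ⟨hcand, h⟩
  have hs := s1_nonneg lam X
  have hεs : ε' * s1 lam X ≤ ε * s1 lam X := mul_le_mul_of_nonneg_right hε'1 hs
  apply htyp
  refine ⟨?_, ?_, ?_, ?_⟩
  · by_contra h
    exact c1 ⟨hcand, not_le.1 h⟩
  · by_contra h
    exact c6 ⟨hcand, not_le.1 h⟩
  · by_contra h
    exact c7 ⟨hgood, hcand.2, (not_le.1 h).le⟩
  · intro y hy
    by_contra h
    exact c2 ⟨hgood, hcand.2, y, hy, hεs.trans_lt (not_le.1 h)⟩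

end Pool.Agent.Run7.h585.AN.Semi
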