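import Pool.Agent.Run7.h585.AN.Dens

/-!
# Weighted counts of elliptic curves with a given `|D| / N₆` (helper585)
-/

set_option autoImplicit false

namespace Pool.Agent.Run7.h585.AN

open Finset Pool.Agent.N906.SZ Pool.Agent.N906.FH

/-- the weight of a curve: the product of the weights of the types at the primes `p ∣ n`, `p ≥ 5` -/
noncomputable def Th (wt : ℕ → Fin 3 → ℝ) (n : ℕ) (a b : ℤ) : ℝ :=
  ∏ p ∈ n.primeFactors.filter (fun p => 5 ≤ p), wt p (ty p a b)

/-- the weight of an integer -/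
noncomputable def ww (wt : ℕ → Fin 3 → ℝ) (n : ℕ) : ℝ :=
  ∏ p ∈ n.primeFactors.filter (fun p => 5 ≤ p),
    (wt p 0 + wt p 1 + if 9 ≤ n.factorization p then 0 else wt p 2)

theorem Th_nonneg {wt : ℕ → Fin 3 → ℝ} (hw : ∀ p t, 0 ≤ wt p t) (n : ℕ) (a b : ℤ) :
    0 ≤ Th wt n a b := Finset.prod_nonneg fun p _ => hw _ _

theorem ww_nonneg {wt : ℕ → Fin 3 → ℝ} (hw : ∀ p t, 0 ≤ wt p t) (n : ℕ) : 0 ≤ ww wt n := by
  refine Finset.prod_nonneg fun p _ => ?_
  have h0 := hw p 0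
  have h1 := hw p 1
  have h2 := hw p 2
  split_ifs <;> linarith

theorem wcnt : ∃ C : ℝ, 0 < C ∧ ∀ (wt : ℕ → Fin 3 → ℝ), (∀ p t, 0 ≤ wt p t) →
    ∀ (X Y : ℝ) (n : ℕ), 1 ≤ X → 1 ≤ Y → 1 ≤ n → ((n * rd n : ℕ) : ℝ) ≤ X ^ 2 →
    ∀ F : Finset (ℤ × ℤ), (∀ x ∈ F, Mn x.1 x.2 ∧ Rg X Y x.1 x.2 ∧ Cn n x.1 x.2) →
    ∑ x ∈ F, Th wt n x.1 x.2 ≤ C * ww wt n * (Y / (X * (n * rd n : ℕ)) + X ^ 2) := by
  classical
  obtain ⟨C, hC, hcnt⟩ := cnt_ty
  refine ⟨C, hC, fun wt hw X Y n hX hY hn hM F hF => ?_⟩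
  set S := n.primeFactors.filter (fun p => 5 ≤ p) with hS
  set B : ℝ := Y / (X * (n * rd n : ℕ)) + X ^ 2 with hB
  have hB0 : 0 ≤ B := by
    have : 0 < X := by linarith
    rw [hB]; positivity
  -- the vector of the types
  let T : ℤ × ℤ → (S → Fin 3) := fun x p => ty p x.1 x.2
  let ext : (S → Fin 3) → ℕ → Fin 3 := fun τ p => if h : p ∈ S then τ ⟨p, h⟩ else 0
  have hfib : ∀ τ : S → Fin 3, ∑ x ∈ F with T x = τ, Th wt n x.1 x.2 ≤
      C * (∏ p : S, wt p (τ p) * (ctn (n.factorization p) (τ p) : ℝ)) * B := by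
    intro τ
    have h1 : ∀ x ∈ F.filter (fun x => T x = τ), Th wt n x.1 x.2 = ∏ p : S, wt p (τ p) := by
      intro x hx
      rw [mem_filter] at hx
      unfold Th
      rw [← Finset.prod_coe_sort]
      refine Finset.prod_congr rfl fun p _ => ?_
      rw [← hx.2]
    rw [Finset.sum_congr rfl h1, Finset.sum_const, nsmul_eq_mul]
    have h2 := hcnt X Y n (ext τ) hX hY hn hM (F.filter (fun x => T x = τ)) (by
      intro x hx
      rw [mem_filter] at hx
      obtain ⟨g1, g2, g3⟩ := hF x hx.1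
      refine ⟨g1, g2, g3, fun p hp h5 => ?_⟩
      have hpS : p ∈ S := by rw [hS, mem_filter]; exact ⟨hp, h5⟩
      have e : ext τ p = τ ⟨p, hpS⟩ := dif_pos hpS
      rw [e, ← hx.2])
    have h3 : ((∏ p ∈ n.primeFactors, ctp n (ext τ) p : ℕ) : ℝ) =
        ∏ p : S, (ctn (n.factorization p) (τ p) : ℝ) := by
      have e1 : ∏ p ∈ n.primeFactors, ctp n (ext τ) p =
          ∏ p ∈ S, ctn (n.factorization p) (ext τ p) := by
        rw [hS, Finset.prod_filter]
        refine Finset.prod_congr rfl fun p _ => ?_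
        unfold ctp
        rfl
      rw [e1, ← Finset.prod_coe_sort]
      push_cast
      refine Finset.prod_congr rfl fun p _ => ?_
      have e : ext τ p = τ p := dif_pos p.2
      rw [e]
    rw [h3] at h2
    have h4 : 0 ≤ ∏ p : S, wt p (τ p) := Finset.prod_nonneg fun p _ => hw _ _
    calc ((F.filter (fun x => T x = τ)).card : ℝ) * ∏ p : S, wt p (τ p) ≤
        (C * (∏ p : S, (ctn (n.factorization p) (τ p) : ℝ)) * B) * ∏ p : S, wt p (τ p) :=
          mul_le_mul_of_nonneg_right h2 h4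
      _ = _ := by
          rw [Finset.prod_mul_distrib]
          ring
  rw [← Finset.sum_fiberwise F T]
  refine (Finset.sum_le_sum fun τ _ => hfib τ).trans (le_of_eq ?_)
  rw [← Finset.sum_mul, ← Finset.mul_sum]
  congr 2
  have h5 := Finset.prod_univ_sum (fun _ : S => (univ : Finset (Fin 3)))
    (fun (p : S) (t : Fin 3) => wt p t * (ctn (n.factorization p) t : ℝ))
  rw [Fintype.piFinset_univ] at h5
  rw [← h5]
  unfold ww
  rw [← hS, ← Finset.prod_coe_sort S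
    (fun p => (wt p 0 + wt p 1 + if 9 ≤ n.factorization p then 0 else wt p 2))]
  refine Finset.prod_congr rfl fun p _ => ?_
  rw [Fin.sum_univ_three]
  unfold ctn
  rw [if_neg (fun h => absurd h.1 (by decide)), if_neg (fun h => absurd h.1 (by decide))]
  by_cases h9 : 9 ≤ n.factorization p
  · rw [if_pos ⟨rfl, h9⟩, if_pos h9]
    push_cast
    ring
  · rw [if_neg (fun h => h9 h.2), if_neg h9]
    push_cast
    ring

end Pool.Agent.Run7.h585.AN
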